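import Pool.Agent.ROS.Stmts

/-!
# Road S: the signed permutation of a chain has no good circuit
-/

set_option autoImplicit false
set_option linter.unusedSectionVars false

namespace Pool.ROS

open Pool.GOD.PG

namespace BADC_

variable {V : Type} [Fintype V] [DecidableEq V] {f g : Equiv.Perm V} {v m : V} {N : ℕ}
  {ρ σ : V → ℕ} {th : Dt V → Prop} {p : Dt V → ℕ} {sp : GS.SP V} {S Z : Finset V}

/-- The dart `d` belongs to an edge of the set `D` given by `Z`. -/
def DD (f g : Equiv.Perm V) (ρ σ : V → ℕ) (th : Dt V → Prop) (p : Dt V → ℕ) (sp : GS.SP V)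
    (Z : Finset V) (d : Dt V) : Prop :=
  1 ≤ col f g ρ σ d ∧ ∃ i, (th d ↔ i = false) ∧
    Odd (Z.filter (fun z => sp.k i z ≤ ((p d / 2 : ℕ) : ℤ))).card

lemma tr_unique {a : Prop} {i j : Bool} (h1 : a ↔ i = false) (h2 : a ↔ j = false) : i = j := by
  cases i <;> cases j <;> simp_all

lemma tr_exists (a : Prop) : ∃ i : Bool, (a ↔ i = false) := by
  by_cases h : a
  · exact ⟨false, by simp [h]⟩
  · exact ⟨true, by simp [h]⟩

lemma dd_iff {i : Bool} {d : Dt V} (hc : 1 ≤ col f g ρ σ d) (hi : th d ↔ i = false) :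
    DD f g ρ σ th p sp Z d ↔
      Odd (Z.filter (fun z => sp.k i z ≤ ((p d / 2 : ℕ) : ℤ))).card := by
  constructor
  · rintro ⟨-, j, h1, h2⟩
    rw [tr_unique hi h1]
    exact h2
  · intro h
    exact ⟨hc, i, hi, h⟩

lemma dd_nx (hD : Dat f g v m N ρ σ th p sp S) (d : Dt V) :
    DD f g ρ σ th p sp Z (nx f g d) ↔ DD f g ρ σ th p sp Z d := by
  by_cases hc : 1 ≤ col f g ρ σ d
  · obtain ⟨i, hi⟩ := tr_exists (th d)
    have hi' : th (nx f g d) ↔ i = false := (hD.tr.tx d hc).trans hi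
    have hc' : 1 ≤ col f g ρ σ (nx f g d) := by rw [col_nx]; exact hc
    rw [dd_iff hc hi, dd_iff hc' hi']
    have e : p (nx f g d) / 2 = p d / 2 := by
      rcases hD.rl.nx d hc with ⟨h1, h2⟩ | ⟨h1, h2⟩
      · obtain ⟨k, hk⟩ := h1
        omega
      · obtain ⟨k, hk⟩ := h1
        omega
    rw [e]
  · constructor
    · intro h
      have := h.1
      rw [col_nx] at this
      exact absurd this hc
    · intro h
      exact absurd h.1 hc

/-- The two darts of a track at a letter of `S`. -/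
lemma two (hD : Dat f g v m N ρ σ th p sp S) {x : V} (hx : x ∈ S) (i : Bool) :
    ∃ d d' : Dt V, d.1 = x ∧ d'.1 = x ∧ d.2.1 = false ∧ d'.2.1 = true ∧ 1 ≤ col f g ρ σ d ∧
      1 ≤ col f g ρ σ d' ∧ (th d ↔ i = false) ∧ (th d' ↔ i = false) ∧
      ((Odd (p d) ∧ p d' = p d + 1) ∨ (Odd (p d') ∧ p d = p d' + 1)) ∧
      sp.k i x = (((p d + 1) / 2 : ℕ) : ℤ) := by
  obtain ⟨hxv, hK⟩ := (hD.md.mem x).1 hx
  obtain ⟨d, a1, a2, a3, -, a5, -⟩ := hD.tr.selK hxv hK false (i = false)
  obtain ⟨d', b1, b2, b3, -, b5, -⟩ := hD.tr.selK hxv hK true (i = false)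
  have hm : x ≠ m := by
    rintro rfl
    obtain ⟨d0, c1, c2, c3, c4⟩ := hD.m0 false
    obtain ⟨x0, s0, o0⟩ := d0
    simp only at c1 c2
    subst c1 c2
    have := hK false (!o0)
    change col f g ρ σ (x0, false, !o0) = 0 at c4
    omega
  refine ⟨d, d', a1, b1, a2, b2, a3, b3, a5, b5, ?_, ?_⟩
  · exact hD.rl.ps d d' (by rw [a1]; exact hxv) (by rw [a1]; exact hm) (by rw [a1, b1])
      (by rw [a2, b2]; rfl) a3 b3 (by rw [a5, b5])
  · have := hD.md.k i d (by rw [a1]; exact hx) a5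
    rw [a1] at this
    exact this

lemma key_pos (hD : Dat f g v m N ρ σ th p sp S) {x : V} (hx : x ∈ S) (i : Bool) :
    1 ≤ sp.k i x := by
  obtain ⟨d, d', -, -, -, -, -, -, -, -, h1, h2⟩ := two hD hx i
  rw [h2]
  have : 1 ≤ (p d + 1) / 2 := by
    rcases h1 with ⟨h1, h3⟩ | ⟨h1, h3⟩
    · obtain ⟨k, hk⟩ := h1
      omega
    · omega
  exact_mod_cast this

lemma not_K_of_0 {x : V} (h0 : Is0 f g ρ σ x) (hK : IsK f g ρ σ x) : False := by
  obtain ⟨d0, c1, c2, c3, c4⟩ := h0 false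
  obtain ⟨x0, s0, o0⟩ := d0
  simp only at c1 c2
  subst c1 c2
  have := hK false (!o0)
  change col f g ρ σ (x0, false, !o0) = 0 at c4
  omega

lemma dd_dep (hD : Dat f g v m N ρ σ th p sp S) {i : Bool} {d : Dt V} (hx : d.1 ∈ S)
    (hc : 1 ≤ col f g ρ σ d) (hi : th d ↔ i = false) (he : Even (p d)) :
    DD f g ρ σ th p sp Z d ↔ sp.pa i Z (some d.1) := by
  rw [dd_iff hc hi, sp.pa_some]
  have h1 := hD.md.k i d hx hi
  have h2 : (p d + 1) / 2 = p d / 2 := by
    obtain ⟨k, hk⟩ := he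
    omega
  rw [h1, h2]

lemma dd_arr (hD : Dat f g v m N ρ σ th p sp S) {i : Bool} {d : Dt V} (hx : d.1 ∈ S)
    (hc : 1 ≤ col f g ρ σ d) (hi : th d ↔ i = false) (he : Odd (p d)) :
    DD f g ρ σ th p sp Z d ↔ sp.pb i Z d.1 := by
  rw [dd_iff hc hi]
  unfold GS.SP.pb
  have h1 := hD.md.k i d hx hi
  have h2 : (p d + 1) / 2 = p d / 2 + 1 := by
    obtain ⟨k, hk⟩ := he
    omega
  rw [h1, h2]
  have h3 : (Z.filter (fun z => sp.k i z ≤ ((p d / 2 : ℕ) : ℤ))) =
      (Z.filter (fun z => sp.k i z < ((p d / 2 + 1 : ℕ) : ℤ))) := by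
    apply Finset.filter_congr
    intro z _
    push_cast
    omega
  rw [h3]

lemma pa_pb_off (i : Bool) {x : V} (hx : x ∉ Z) :
    sp.pa i Z (some x) ↔ sp.pb i Z x := by
  rw [sp.pa_some]
  unfold GS.SP.pb
  have h3 : (Z.filter (fun z => sp.k i z ≤ sp.k i x)) = (Z.filter (fun z => sp.k i z < sp.k i x)) := by
    apply Finset.filter_congr
    intro z hz
    have : sp.k i z ≠ sp.k i x := fun e => hx (sp.inj i e ▸ hz)
    omega
  rw [h3]

lemma pa_pb_on (i : Bool) {x : V} (hx : x ∈ Z) :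
    sp.pa i Z (some x) ↔ ¬ sp.pb i Z x := by
  rw [sp.pa_some]
  unfold GS.SP.pb
  have h3 : (Z.filter (fun z => sp.k i z ≤ sp.k i x)) =
      insert x (Z.filter (fun z => sp.k i z < sp.k i x)) := by
    ext z
    rw [Finset.mem_insert, Finset.mem_filter, Finset.mem_filter]
    constructor
    · rintro ⟨h1, h2⟩
      by_cases e : z = x
      · exact Or.inl e
      · have : sp.k i z ≠ sp.k i x := fun e' => e (sp.inj i e')
        exact Or.inr ⟨h1, by omega⟩
    · rintro (rfl | ⟨h1, h2⟩)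
      · exact ⟨hx, le_refl _⟩
      · exact ⟨h1, by omega⟩
  rw [h3, Finset.card_insert_of_notMem (by simp), Nat.odd_add_one]

/-- The darts at a letter of `S`. -/
lemma dd_S (hD : Dat f g v m N ρ σ th p sp S) {i : Bool} {d : Dt V} (hx : d.1 ∈ S)
    (hc : 1 ≤ col f g ρ σ d) (hi : th d ↔ i = false) :
    (d.1 ∉ Z → (DD f g ρ σ th p sp Z d ↔ sp.pb i Z d.1)) ∧
    (d.1 ∈ Z → (DD f g ρ σ th p sp Z d ↔
      ((d.2.1 = false ↔ sp.o i d.1 = true) ↔ sp.pb i Z d.1))) := by
  have ho := hD.md.o i d hx hi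
  rcases Nat.even_or_odd (p d) with he | he
  · have h1 := dd_dep (Z := Z) hD hx hc hi he
    refine ⟨fun h => ?_, fun h => ?_⟩
    · rw [h1, pa_pb_off i h]
    · rw [h1, pa_pb_on i h]
      have h2 : ¬ Odd (p d) := by rwa [Nat.not_odd_iff_even]
      by_cases a1 : d.2.1 = false <;> by_cases a2 : sp.o i d.1 = true <;>
        by_cases a3 : sp.pb i Z d.1 <;> simp [a1, a2, a3, h2] at ho ⊢
  · have h1 := dd_arr (Z := Z) hD hx hc hi he
    refine ⟨fun h => h1, fun h => ?_⟩
    rw [h1]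
    by_cases a1 : d.2.1 = false <;> by_cases a2 : sp.o i d.1 = true <;>
      by_cases a3 : sp.pb i Z d.1 <;> simp [a1, a2, a3, he] at ho ⊢

lemma dd_pt (hD : Dat f g v m N ρ σ th p sp S) (hV : sp.Val S Z) {d : Dt V} (hx : d.1 ∈ S) :
    ¬ (DD f g ρ σ th p sp Z d ∧ DD f g ρ σ th p sp Z (fl d)) ∧
    (¬ (DD f g ρ σ th p sp Z d ↔ DD f g ρ σ th p sp Z (fl d)) ↔
      (d.1 ∈ Z ∨ sp.pb false Z d.1 ∨ sp.pb true Z d.1)) := by
  obtain ⟨hxv, hK⟩ := (hD.md.mem d.1).1 hx
  have hc : 1 ≤ col f g ρ σ d := hK d.2.1 d.2.2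
  have hc' : 1 ≤ col f g ρ σ (fl d) := hK d.2.1 (!d.2.2)
  obtain ⟨i, hi⟩ := tr_exists (th d)
  have hi' : th (fl d) ↔ (!i) = false := by
    rw [hD.tr.tK d hxv hc hc', hi]
    cases i <;> simp
  obtain ⟨a1, a2⟩ := dd_S (Z := Z) hD hx hc hi
  obtain ⟨b1, b2⟩ := dd_S (Z := Z) hD (d := fl d) hx hc' hi'
  rw [fl_fst] at b1 b2
  rw [fl_side] at b2
  by_cases hZ : d.1 ∈ Z
  · have hon := hV.on d.1 hZ
    rw [a2 hZ, b2 hZ]
    cases i <;> cases h1 : d.2.1 <;> cases h2 : sp.o false d.1 <;> cases h3 : sp.o true d.1 <;>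
      by_cases h4 : sp.pb false Z d.1 <;> by_cases h5 : sp.pb true Z d.1 <;>
      simp [h2, h3, h4, h5, hZ] at hon ⊢
  · have hoff := hV.off d.1 hx hZ
    rw [a1 hZ, b1 hZ]
    cases i <;> by_cases h4 : sp.pb false Z d.1 <;> by_cases h5 : sp.pb true Z d.1 <;>
      simp [h4, h5, hZ] at hoff ⊢

lemma dd_v (hD : Dat f g v m N ρ σ th p sp S) (hV : sp.Val S Z) {d : Dt V} (hx : d.1 = v) :
    ¬ DD f g ρ σ th p sp Z d := by
  intro h
  have hc := h.1
  obtain ⟨i, hi⟩ := tr_exists (th d)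
  rw [dd_iff hc hi, hD.rl.pv d hx hc] at h
  have h3 : (Z.filter (fun z => sp.k i z ≤ ((0 / 2 : ℕ) : ℤ))) = ∅ := by
    rw [Finset.filter_eq_empty_iff]
    intro z hz
    have := key_pos hD (hV.sub hz) i
    simp
    omega
  rw [h3] at h
  simp at h

lemma dd_m (hD : Dat f g v m N ρ σ th p sp S) (hV : sp.Val S Z) {d : Dt V} (hx : d.1 = m) :
    ¬ DD f g ρ σ th p sp Z d := by
  intro h
  have hc := h.1
  obtain ⟨i, hi⟩ := tr_exists (th d)
  rw [dd_iff hc hi] at h
  have h3 : (Z.filter (fun z => sp.k i z ≤ ((p d / 2 : ℕ) : ℤ))) = Z := by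
    rw [Finset.filter_eq_self]
    intro z hz
    obtain ⟨e, e', c1, c2, c3, c4, c5, c6, c7, c8, c9, c10⟩ := two hD (hV.sub hz) i
    rw [c10]
    have k1 := hD.rl.pm d e hx hc c5 (by rw [c7, hi])
    have k2 := hD.rl.pm d e' hx hc c6 (by rw [c8, hi])
    have : (p e + 1) / 2 ≤ p d / 2 := by
      rcases c9 with ⟨⟨k, hk⟩, h4⟩ | ⟨⟨k, hk⟩, h4⟩ <;> omega
    exact_mod_cast this
  rw [h3] at h
  exact (Nat.not_even_iff_odd.2 h) hV.even

lemma dd_0 (hD : Dat f g v m N ρ σ th p sp S) (hV : sp.Val S Z) {d d' : Dt V} (h1 : d.1 ≠ v)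
    (h2 : d.1 ≠ m) (h0 : Is0 f g ρ σ d.1) (h3 : d'.1 = d.1) (h4 : d'.2.1 = (!d.2.1))
    (hc : 1 ≤ col f g ρ σ d) (hc' : 1 ≤ col f g ρ σ d') (ht : th d' ↔ th d) :
    DD f g ρ σ th p sp Z d ↔ DD f g ρ σ th p sp Z d' := by
  obtain ⟨i, hi⟩ := tr_exists (th d)
  have hi' : th d' ↔ i = false := ht.trans hi
  rw [dd_iff hc hi, dd_iff hc' hi']
  -- the key of a letter of `S` is not between the two darts
  have key : ∀ z ∈ Z, ∀ n, (n = p d ∨ n = p d') → (p d' = n + 1 ∨ p d = n + 1) → Odd n →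
      sp.k i z ≠ (((n + 1) / 2 : ℕ) : ℤ) := by
    intro z hz n hn hn' ho he
    obtain ⟨e, e', c1, c2, c3, c4, c5, c6, c7, c8, c9, c10⟩ := two hD (hV.sub hz) i
    rw [c10] at he
    have he' : (p e + 1) / 2 = (n + 1) / 2 := by exact_mod_cast he
    have hzz : z ≠ d.1 := by
      rintro rfl
      exact not_K_of_0 h0 ((hD.md.mem _).1 (hV.sub hz)).2
    have k1 : p e ≠ p d := fun k => hzz (by rw [← c1, hD.rl.inj d e hc c5 (by rw [c7, hi]) k])
    have k2 : p e ≠ p d' := fun k => hzz (by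
      rw [← c1, hD.rl.inj d' e hc' c5 (by rw [c7, hi']) k, h3])
    obtain ⟨k, hk⟩ := ho
    rcases hn with hn | hn <;> rcases hn' with hn' | hn' <;> omega
  rcases hD.rl.ps d d' h1 h2 h3 h4 hc hc' ht with ⟨k1, k2⟩ | ⟨k1, k2⟩
  · have h5 : (Z.filter (fun z => sp.k i z ≤ ((p d / 2 : ℕ) : ℤ))) =
        (Z.filter (fun z => sp.k i z ≤ ((p d' / 2 : ℕ) : ℤ))) := by
      apply Finset.filter_congr
      intro z hz
      have h6 := key z hz (p d) (Or.inl rfl) (Or.inl k2) k1
      obtain ⟨k, hk⟩ := k1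
      rw [k2]
      have e1 : p d / 2 = k := by omega
      have e2 : (p d + 1) / 2 = k + 1 := by omega
      rw [e1, e2]
      rw [e2] at h6
      push_cast at h6 ⊢
      omega
    rw [h5]
  · have h5 : (Z.filter (fun z => sp.k i z ≤ ((p d / 2 : ℕ) : ℤ))) =
        (Z.filter (fun z => sp.k i z ≤ ((p d' / 2 : ℕ) : ℤ))) := by
      apply Finset.filter_congr
      intro z hz
      have h6 := key z hz (p d') (Or.inr rfl) (Or.inr k2) k1
      obtain ⟨k, hk⟩ := k1
      rw [k2]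
      have e1 : p d' / 2 = k := by omega
      have e2 : (p d' + 1) / 2 = k + 1 := by omega
      rw [e1, e2]
      rw [e2] at h6
      push_cast at h6 ⊢
      omega
    rw [h5]

/-- The darts with positive colour at a letter of `D_0`. -/
lemma dart0 {x : V} (h0 : Is0 f g ρ σ x) (s : Bool) :
    ∃ d : Dt V, d.1 = x ∧ d.2.1 = s ∧ 1 ≤ col f g ρ σ d ∧ col f g ρ σ (fl d) = 0 ∧
      (∀ d', d'.1 = x → d'.2.1 = s → 1 ≤ col f g ρ σ d' → d' = d) := by
  obtain ⟨d, c1, c2, c3, c4⟩ := h0 s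
  refine ⟨d, c1, c2, by omega, c4, ?_⟩
  intro d' k1 k2 k3
  rcases eq_or_fl (d := d) (d' := d') (by rw [k1, c1]) (by rw [k2, c2]) with e | e
  · exact e
  · rw [e] at k3
    omega

/-- At most one dart at a point is in `D`; the two points of a letter are both in `D` or not. -/
lemma dd_all (hD : Dat f g v m N ρ σ th p sp S) (hV : sp.Val S Z) (x : V) :
    (∀ s, ¬ (DD f g ρ σ th p sp Z (x, s, true) ∧ DD f g ρ σ th p sp Z (x, s, false))) ∧
    (¬ (DD f g ρ σ th p sp Z (x, false, true) ↔ DD f g ρ σ th p sp Z (x, false, false)) ↔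
      ¬ (DD f g ρ σ th p sp Z (x, true, true) ↔ DD f g ρ σ th p sp Z (x, true, false))) := by
  by_cases hxv : x = v
  · have e : ∀ s o, ¬ DD f g ρ σ th p sp Z (x, s, o) := fun s o => dd_v hD hV (d := (x, s, o)) hxv
    refine ⟨fun s h => e _ _ h.1, ?_⟩
    simp [e]
  · rcases dich hD.ch hxv with hK | h0
    · have hS : x ∈ S := (hD.md.mem x).2 ⟨hxv, hK⟩
      refine ⟨fun s => (dd_pt hD hV (d := (x, s, true)) hS).1, ?_⟩
      have e1 := (dd_pt hD hV (d := (x, false, true)) hS).2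
      have e2 := (dd_pt hD hV (d := (x, true, true)) hS).2
      exact e1.trans e2.symm
    · obtain ⟨d, a1, a2, a3, a4, a5⟩ := dart0 h0 false
      obtain ⟨d', b1, b2, b3, b4, b5⟩ := dart0 h0 true
      have fd : ¬ DD f g ρ σ th p sp Z (fl d) := fun h => by have := h.1; omega
      have fd' : ¬ DD f g ρ σ th p sp Z (fl d') := fun h => by have := h.1; omega
      refine ⟨fun s h => ?_, ?_⟩
      · cases s
        · have e1 := a5 _ rfl rfl h.1.1
          have e2 := a5 _ rfl rfl h.2.1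
          rw [← e2] at e1
          simp at e1
        · have e1 := b5 _ rfl rfl h.1.1
          have e2 := b5 _ rfl rfl h.2.1
          rw [← e2] at e1
          simp at e1
      · rw [xor_fl _ a1 a2, xor_fl _ b1 b2]
        by_cases hxm : x = m
        · have k1 := dd_m hD hV (d := d) (by rw [a1, hxm])
          have k2 := dd_m hD hV (d := d') (by rw [b1, hxm])
          simp [fd, fd', k1, k2]
        · have k1 := dd_0 hD hV (d := d) (d' := d') (by rw [a1]; exact hxv) (by rw [a1]; exact hxm)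
            (by rw [a1]; exact h0) (by rw [a1, b1]) (by rw [a2, b2]; rfl) a3 b3
            (hD.tr.tz d d' (by rw [a1]; exact hxv) (by rw [a1]; exact hxm) (by rw [a1, b1])
              (by rw [a2, b2]; rfl) a3 b3 a4)
          rw [k1]
          simp [fd, fd']

/-- The colouring of the vertices of the signed permutation. -/
noncomputable def chi (v m : V) (P Q : Finset V) : GS.Vx V → Bool
  | (none, false) => decide (v ∈ Q)
  | (none, true) => decide (m ∈ P)
  | (some x, false) => decide (x ∈ P)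
  | (some x, true) => decide (x ∈ Q)

/-- The side of the point of a dart. -/
def val (P Q : Finset V) (d : Dt V) : Prop := if d.2.1 = false then d.1 ∈ P else d.1 ∈ Q

end BADC_

open BADC_ in
theorem t_BADC (h1 : Stmt_DAR) (h2 : Stmt_GAP) : Stmt_BADC := by
  intro V _ _ f g v m N ρ σ th p sp S hD Z hG
  classical
  obtain ⟨hV, hBr⟩ := hG
  have hE : ∀ d, DD f g ρ σ th p sp Z (nx f g d) ↔ DD f g ρ σ th p sp Z d := fun d => dd_nx hD d
  set E : Dt V → Prop := DD f g ρ σ th p sp Z with hEdef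
  set A := Finset.univ.filter fun x => E (x, false, true) with hA
  set B := Finset.univ.filter fun x => E (x, true, true) with hB
  have hall := fun x => dd_all hD hV x
  have memA : ∀ x, x ∈ A ↔ E (x, false, true) := fun x => by simp [hA]
  have memB : ∀ x, x ∈ B ↔ E (x, true, true) := fun x => by simp [hB]
  have hAlt : Alt f g A B := by
    refine ⟨?_, ?_, ?_, ?_⟩
    · obtain ⟨z, hz⟩ := hV.ne
      have h3 := (dd_pt hD hV (d := (z, false, true)) (hV.sub hz)).2.2 (Or.inl hz)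
      by_cases h4 : E (z, false, true)
      · exact ⟨z, (memA z).2 h4⟩
      · have h5 : E (z, false, false) := by
          by_contra h5
          exact h3 (iff_of_false h4 h5)
        exact ⟨f.symm z, (memA _).2 ((hE (z, false, false)).2 h5)⟩
    · intro x hx hfx
      rw [memA] at hx hfx
      exact (hall (f x)).1 false ⟨hfx, (hE (x, false, true)).2 hx⟩
    · intro x hx hgx
      rw [memB] at hx hgx
      exact (hall (g x)).1 true ⟨hgx, (hE (x, true, true)).2 hx⟩
    · ext x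
      rw [(mem_bd_E E hE x).1, (mem_bd_E E hE x).2]
      exact (hall x).2
  obtain ⟨z, -, P, Q, hP, hQ, hPQ, hzz⟩ := hD.nn.exists_br hAlt
  have hz0 : ¬ Is0 f g ρ σ z := by
    intro h0
    refine not_br_of_cert (cert0 hD.ch A B ?_ ?_ h0) ⟨P, Q, hP, hQ, hPQ, hzz⟩
    · intro x hx
      exact ((memA x).1 hx).1
    · intro x hx
      exact ((memB x).1 hx).1
  have hmz : m ≠ z := fun e => hz0 (e ▸ hD.m0)
  have val_nx : ∀ d, ¬ E d → (val P Q (nx f g d) ↔ val P Q d) := by
    rintro ⟨x, s, o⟩ hd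
    cases s <;> cases o
    · have e : f.symm x ∉ A := fun h => hd ((hE (x, false, false)).1 ((memA _).1 h))
      have := hP _ e
      rw [Equiv.apply_symm_apply] at this
      simpa [val, nx] using this
    · have e : x ∉ A := fun h => hd ((memA _).1 h)
      simpa [val, nx] using (hP _ e).symm
    · have e : g.symm x ∉ B := fun h => hd ((hE (x, true, false)).1 ((memB _).1 h))
      have := hQ _ e
      rw [Equiv.apply_symm_apply] at this
      simpa [val, nx] using this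
    · have e : x ∉ B := fun h => hd ((memB _).1 h)
      simpa [val, nx] using (hQ _ e).symm
  have val_oth : ∀ d d' : Dt V, d.1 ≠ z → d'.1 = d.1 → (val P Q d' ↔ val P Q d) := by
    rintro ⟨x, s, o⟩ ⟨x', s', o'⟩ hd hx
    simp only at hd hx
    subst hx
    have := hPQ _ hd
    cases s <;> cases s' <;> simp [val, this]
  have hvm : v ∈ P ↔ m ∈ P := by
    obtain ⟨d, c1, c2, c3, c4⟩ := hD.m0 false
    have h3 := conn0 hD.ch (val P Q) (fun e he => val_nx e (fun h => by
        have := h.1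
        omega)) (fun e he => by
        rcases cc_cases hD.ch e with ⟨k1, k2, k3, k4, k5, k6⟩ | ⟨k1, k2⟩
        · refine val_oth e _ ?_ k3
          rintro rfl
          rcases dich hD.ch k1 with k7 | k7
          · have := k7 e.2.1 e.2.2
            change 1 ≤ col f g ρ σ e at this
            omega
          · exact hz0 k7
        · rw [k2]
          simp [val, fl]) (v, false, true) (fl d) (col_v1 hD.ch true) c4
    simpa [val, c1, c2] using h3
  have hmPQ : m ∈ P ↔ m ∈ Q := hPQ m hmz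
  have chi_oo : ∀ i (a : Option V), sp.outV i a = (a, sp.oo i a) := fun i a => rfl
  -- the dart at the start of a gap
  have val_dep : ∀ i a d, a ∈ Finset.insertNone S → Dep f g v ρ σ th p i a d →
      (val P Q d ↔ chi v m P Q (sp.outV i a) = true) := by
    intro i a d ha hd
    obtain ⟨e1, e2, e3⟩ := h1 V f g v m N ρ σ th p sp S hD
    cases a with
    | none =>
      have k1 := e2 i d hd
      obtain ⟨-, -, ⟨-, k2⟩ | ⟨k2, -⟩⟩ := hd
      · simp [val, k1, k2, GS.SP.outV, GS.SP.oo, chi]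
      · simp at k2
    | some x =>
      have hx : x ∈ S := by simpa using ha
      have k1 := (e3 i x hx d).1 hd
      obtain ⟨-, -, ⟨k2, -⟩ | ⟨k2, -⟩⟩ := hd
      · simp at k2
      · have k3 : x = d.1 := by simpa using k2
        subst k3
        cases k4 : sp.o i d.1 <;> simp [val, k1, k4, GS.SP.outV, GS.SP.oo, chi]
  have val_arr : ∀ i b d, b ∈ Finset.insertNone S → Arr f g m ρ σ th p i b d →
      (val P Q d ↔ chi v m P Q (sp.inV i b) = true) := by
    intro i a d ha hd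
    obtain ⟨e1, e2, e3⟩ := h1 V f g v m N ρ σ th p sp S hD
    cases a with
    | none =>
      obtain ⟨-, -, ⟨-, k2⟩ | ⟨k2, -⟩⟩ := hd
      · cases k1 : d.2.1 <;> simp [val, k1, k2, GS.SP.inV, GS.SP.oo, chi, hmPQ]
      · simp at k2
    | some x =>
      have hx : x ∈ S := by simpa using ha
      have k1 := (e3 i x hx d).2 hd
      obtain ⟨-, -, ⟨k2, -⟩ | ⟨k2, -⟩⟩ := hd
      · simp at k2
      · have k3 : x = d.1 := by simpa using k2
        subst k3
        cases k4 : sp.o i d.1 <;> simp [val, k1, k4, GS.SP.inV, GS.SP.oo, chi]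
  have hzS : z ≠ v → z ∈ S := fun h =>
    (hD.md.mem z).2 ⟨h, (dich hD.ch h).resolve_right hz0⟩
  refine hBr (if z = v then none else some z) ?_ (chi v m P Q) ⟨?_, ?_, ?_⟩
  · by_cases h3 : z = v
    · simp [h3]
    · simp [h3, hzS h3]
  · intro a ha hne
    cases a with
    | none =>
      have h3 : z ≠ v := by
        intro h3
        simp [h3] at hne
      have h4 := hPQ v (Ne.symm h3)
      simp [chi, ← h4, hvm]
    | some x =>
      have hx : x ∈ S := by simpa using ha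
      have h3 : x ≠ z := by
        rintro rfl
        by_cases h4 : x = v
        · exact ((hD.md.mem x).1 hx).1 h4
        · simp [h4] at hne
      have h4 := hPQ x h3
      simp [chi, h4]
  · intro i a b hcons hpa
    obtain ⟨d, hd⟩ := ((h1 V f g v m N ρ σ th p sp S hD).1 i a hcons.1).1
    obtain ⟨d', hd'⟩ := ((h1 V f g v m N ρ σ th p sp S hD).1 i b hcons.2.1).2
    have h3 := h2 V f g v m N ρ σ th p sp S hD i a b hcons
      (fun e => ¬ E e ∧ (val P Q e ↔ chi v m P Q (sp.outV i a) = true)) (fun e _ _ h => ?_)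
      (fun e e' k1 k2 k3 k4 k5 k6 k7 k8 k9 h => ?_) d d' hd hd' ⟨?_, val_dep i a d hcons.1 hd⟩
    · have h4 := h3.2
      rw [val_arr i b d' hcons.2.1 hd'] at h4
      exact (Bool.eq_iff_iff.2 h4).symm
    · exact ⟨fun h' => h.1 ((hE e).1 h'), by rw [val_nx e h.1]; exact h.2⟩
    · refine ⟨fun h' => h.1 ((dd_0 hD hV k1 k2 k3 k4 k5 k6 k7 k9).2 h'), ?_⟩
      rw [val_oth e e' (fun h' => hz0 (h' ▸ k3)) k4]
      exact h.2
    · obtain ⟨q1, q2, ⟨-, q3⟩ | ⟨q3, q4⟩⟩ := hd
      · exact dd_v hD hV q3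
      · have hx : d.1 ∈ S := by
          have := hcons.1
          rw [q3] at this
          simpa using this
        intro h'
        rw [q3] at hpa
        exact hpa ((dd_dep hD hx q1 q2 q4).1 h')
  · by_cases h3 : z = v
    · subst h3
      intro h4
      apply hzz
      simp only [if_true, chi, decide_eq_decide] at h4
      rw [hvm]
      exact h4.symm
    · intro h4
      apply hzz
      simp only [if_neg h3, chi, decide_eq_decide] at h4
      exact h4

end Pool.ROS
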