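import Pool.Agent.LAWB.Frame

/-!
# Road S: from a chain to a signed permutation

The side `D_1 + .. + D_N` of a chain `(ρ, σ)` of `w - 2v` in a permutation graph `(f, g)`.
A dart `(x, s, o)` is an edge of one of the two circuits together with one of its ends: `x` is the
letter at this end, `s = false` for the first circuit and `s = true` for the second one, `o = false`
if the edge arrives at `x` and `o = true` if it leaves `x`.
-/

set_option autoImplicit false
set_option linter.unusedSectionVars false

namespace Pool.ROS

open Pool.GOD.PG

/-- darts -/
abbrev Dt (V : Type*) := V × Bool × Bool

section

variable {V : Type*}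

/-- the other dart of the same edge -/
def nx (f g : Equiv.Perm V) : Dt V → Dt V
  | (x, false, false) => (f.symm x, false, true)
  | (x, false, true) => (f x, false, false)
  | (x, true, false) => (g.symm x, true, true)
  | (x, true, true) => (g x, true, false)

/-- the colour of the edge -/
def col (f g : Equiv.Perm V) (ρ σ : V → ℕ) : Dt V → ℕ
  | (x, false, false) => ρ (f.symm x)
  | (x, false, true) => ρ x
  | (x, true, false) => σ (g.symm x)
  | (x, true, true) => σ x

/-- passing the letter of a dart to the other circuit, to the first dart there with the same value
of `R` -/
def mt {κ : Type*} [DecidableEq κ] (R : Dt V → κ) : Dt V → Dt V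
  | (x, s, o) => if R (x, !s, false) = R (x, s, o) then (x, !s, false) else (x, !s, true)

/-- the other dart at the same point -/
def fl : Dt V → Dt V
  | (x, s, o) => (x, s, !o)

/-- Smoothing: at `v` and at a letter which is not on the circuit `D_0` go straight on at the same
point; at the other letters (one dart at each of the two points has the colour `0`) pass the letter,
from colour `0` to colour `0` and from the other colour to the other colour. -/
def cc [DecidableEq V] (f g : Equiv.Perm V) (ρ σ : V → ℕ) (v : V) (d : Dt V) : Dt V :=
  if d.1 ≠ v ∧ (col f g ρ σ d = 0 ∨ col f g ρ σ (fl d) = 0) then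
    mt (fun d => decide (col f g ρ σ d = 0)) d
  else fl d

end

end Pool.ROS
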