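import Pool.Agent.ROS.Stmts

/-!
# Road S: the colours of the gaps
-/

set_option autoImplicit false
set_option linter.unusedSectionVars false

namespace Pool.ROS

open Pool.GOD.PG Pool.GS

section

variable {V : Type} [Fintype V] [DecidableEq V] {f g : Equiv.Perm V} {v m : V} {N : ℕ}
  {ρ σ : V → ℕ} {th : Dt V → Prop} {p : Dt V → ℕ} {sp : GS.SP V} {S : Finset V}

lemma col_of_is0 {x : V} (h : Is0 f g ρ σ x) {d : Dt V} (hd : d.1 = x)
    (h1 : 1 ≤ col f g ρ σ d) : col f g ρ σ d = 1 := by
  obtain ⟨d', h2, h3, h4, h5⟩ := h d.2.1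
  rcases eq_or_fl (d := d') (d' := d) (hd.trans h2.symm) h3.symm with h6 | h6
  · rw [h6]
    exact h4
  · rw [h6] at h1
    omega

/-- The colour of a gap: the two ends of a gap have the same colour. -/
lemma gap_col (hG : Stmt_GAP) (hD : Dat f g v m N ρ σ th p sp S) {i : Bool} {a b : Option V}
    (hc : sp.Cons i S a b) {d d' : Dt V} (h1 : Dep f g v ρ σ th p i a d)
    (h2 : Arr f g m ρ σ th p i b d') : col f g ρ σ d' = col f g ρ σ d := by
  refine hG V f g v m N ρ σ th p sp S hD i a b hc (fun e => col f g ρ σ e = col f g ρ σ d)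
    ?_ ?_ d d' h1 h2 rfl
  · intro e _ _ h3
    rw [col_nx]
    exact h3
  · intro e e' _ _ h3 h4 _ h5 h6 _ _ h7
    rw [col_of_is0 h3 h4 h6, ← h7, col_of_is0 h3 rfl h5]

lemma nb_of (h : Chn f g v N ρ σ) {d : Dt V} (hd : d.1 ≠ v) :
    Nb (min (col f g ρ σ d) (col f g ρ σ (fl d))) (col f g ρ σ d) (col f g ρ σ (fl d)) := by
  have := col_step h hd
  unfold Nb
  omega

end

/-- **CLR** -/
theorem t_CLR (hDar : Stmt_DAR) (hG : Stmt_GAP) : Stmt_CLR := by
  classical
  intro V _ _ f g v m N ρ σ th p sp S hD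
  obtain ⟨hE, hN, hside⟩ := hDar V f g v m N ρ σ th p sp S hD
  -- the departing and the arriving darts
  have hdep : ∀ (i : Bool) (a : Option V), ∃ d, a ∈ Finset.insertNone S →
      Dep f g v ρ σ th p i a d := by
    intro i a
    by_cases ha : a ∈ Finset.insertNone S
    · obtain ⟨d, hd⟩ := (hE i a ha).1
      exact ⟨d, fun _ => hd⟩
    · exact ⟨(v, false, false), fun h => absurd h ha⟩
  have harr : ∀ (i : Bool) (a : Option V), ∃ d, a ∈ Finset.insertNone S →
      Arr f g m ρ σ th p i a d := by
    intro i a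
    by_cases ha : a ∈ Finset.insertNone S
    · obtain ⟨d, hd⟩ := (hE i a ha).2
      exact ⟨d, fun _ => hd⟩
    · exact ⟨(v, false, false), fun h => absurd h ha⟩
  choose Dp hDp using hdep
  choose Ar hAr using harr
  have hgap : ∀ i a b, sp.Cons i S a b → col f g ρ σ (Ar i b) = col f g ρ σ (Dp i a) :=
    fun i a b hc => gap_col hG hD hc (hDp i a hc.1) (hAr i b hc.2.1)
  have hroot : ∀ i, col f g ρ σ (Dp i none) = N := by
    intro i
    have h1 := hDp i none (by simp)
    have h2 := hN i _ h1
    obtain ⟨-, -, h3⟩ := h1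
    have h4 : (Dp i none).1 = v := by
      rcases h3 with h3 | h3
      · exact h3.2
      · exact absurd h3.1 (by simp)
    have h5 : Dp i none = (v, true, (Dp i none).2.2) := by
      rw [← h4, ← h2]
    rw [h5]
    exact col_v2 hD.ch _
  refine ⟨fun i a => col f g ρ σ (Dp i a), hroot, ?_, ?_⟩
  · intro i a hc
    have h1 := hgap i a none hc
    have h2 := hAr i none hc.2.1
    obtain ⟨h3, -, h4⟩ := h2
    have h5 : (Ar i none).1 = m := by
      rcases h4 with h4 | h4
      · exact h4.2
      · exact absurd h4.1 (by simp)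
    show col f g ρ σ (Dp i a) = 1
    rw [← h1]
    exact col_of_is0 hD.m0 h5 h3
  · intro x hx a a' hc hc'
    have hxi : (some x : Option V) ∈ Finset.insertNone S := by simpa using hx
    have hxv : x ≠ v := ((hD.md.mem x).1 hx).1
    have ga := hgap false a (some x) hc
    have ga' := hgap true a' (some x) hc'
    have d1 := hDp false (some x) hxi
    have d2 := hDp true (some x) hxi
    have r1 := hAr false (some x) hxi
    have r2 := hAr true (some x) hxi
    have s1 := (hside false x hx _).1 d1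
    have s2 := (hside true x hx _).1 d2
    have s3 := (hside false x hx _).2 r1
    have s4 := (hside true x hx _).2 r2
    have eDep : ∀ {i d}, Dep f g v ρ σ th p i (some x) d → d.1 = x := by
      intro i d h
      rcases h.2.2 with h1 | h1
      · exact absurd h1.1 (by simp)
      · exact (Option.some.inj h1.1).symm
    have eArr : ∀ {i d}, Arr f g m ρ σ th p i (some x) d → d.1 = x := by
      intro i d h
      rcases h.2.2 with h1 | h1
      · exact absurd h1.1 (by simp)
      · exact (Option.some.inj h1.1).symm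
    -- the two darts at a point
    have key : ∀ e e' : Dt V, e.1 = x → e'.1 = x → e'.2.1 = e.2.1 → (th e ↔ false = false) →
        (th e' ↔ true = false) → e' = fl e := by
      intro e e' h1 h2 h3 h4 h5
      rcases eq_or_fl (d := e) (d' := e') (h2.trans h1.symm) h3 with h6 | h6
      · exfalso
        rw [h6] at h5
        have h7 := h4.2 rfl
        have h8 := h5.1 h7
        exact absurd h8 (by decide)
      · exact h6
    -- the final computation
    have fin : ∀ e1 e2 g1 g2 : Dt V, e1.1 = x → e2.1 = x → g1.1 = x → g2.1 = x →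
        e1.2.1 = false → e2.2.1 = false → g1.2.1 = true → g2.2.1 = true →
        (th e1 ↔ false = false) → (th e2 ↔ true = false) → (th g1 ↔ false = false) →
        (th g2 ↔ true = false) → 1 ≤ col f g ρ σ e1 → 1 ≤ col f g ρ σ e2 →
        ∃ j, 1 ≤ j ∧ Nb j (col f g ρ σ e1) (col f g ρ σ e2) ∧
          Nb j (col f g ρ σ g1) (col f g ρ σ g2) := by
      intro e1 e2 g1 g2 a1 a2 a3 a4 b1 b2 b3 b4 t1 t2 t3 t4 c1 c2
      have k1 := key e1 e2 a1 a2 (b2.trans b1.symm) t1 t2
      have k2 := key g1 g2 a3 a4 (b4.trans b3.symm) t3 t4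
      have hev : e1.1 ≠ v := by rw [a1]; exact hxv
      refine ⟨min (col f g ρ σ e1) (col f g ρ σ (fl e1)), ?_, ?_, ?_⟩
      · rw [← k1]
        omega
      · rw [k1]
        exact nb_of hD.ch hev
      · obtain ⟨d', q1, q2, q3, q4⟩ := col_other hD.ch hev
        have h5 := nb_of hD.ch hev
        rcases eq_or_fl (d := g1) (d' := d') (q1.trans (a1.trans a3.symm))
          (by rw [q2, b1, b3]; rfl) with h6 | h6
        · rw [h6] at q3 q4
          rw [k2, q3, q4]
          exact h5
        · rw [h6] at q3 q4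
          rw [fl_fl] at q4
          rw [k2, q3, q4]
          unfold Nb at h5 ⊢
          omega
    have w1 := fin
    show ∃ j, 1 ≤ j ∧
      Nb j (if sp.o false x then col f g ρ σ (Dp false a) else col f g ρ σ (Dp false (some x)))
        (if sp.o true x then col f g ρ σ (Dp true a') else col f g ρ σ (Dp true (some x))) ∧
      Nb j (if sp.o false x then col f g ρ σ (Dp false (some x)) else col f g ρ σ (Dp false a))
        (if sp.o true x then col f g ρ σ (Dp true (some x)) else col f g ρ σ (Dp true a'))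
    rw [← ga, ← ga']
    cases o1 : sp.o false x <;> cases o2 : sp.o true x
    · rw [o1] at s1 s3
      rw [o2] at s2 s4
      simpa using fin _ _ _ _ (eDep d1) (eDep d2) (eArr r1) (eArr r2) s1 s2 s3 s4 d1.2.1 d2.2.1
        r1.2.1 r2.2.1 d1.1 d2.1
    · rw [o1] at s1 s3
      rw [o2] at s2 s4
      simpa using fin _ _ _ _ (eDep d1) (eArr r2) (eArr r1) (eDep d2) s1 s4 s3 s2 d1.2.1 r2.2.1
        r1.2.1 d2.2.1 d1.1 r2.1
    · rw [o1] at s1 s3
      rw [o2] at s2 s4
      simpa using fin _ _ _ _ (eArr r1) (eDep d2) (eDep d1) (eArr r2) s3 s2 s1 s4 r1.2.1 d2.2.1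
        d1.2.1 r2.2.1 r1.1 d2.1
    · rw [o1] at s1 s3
      rw [o2] at s2 s4
      simpa using fin _ _ _ _ (eArr r1) (eArr r2) (eDep d1) (eDep d2) s3 s4 s1 s2 r1.2.1 r2.2.1
        d1.2.1 d2.2.1 r1.1 r2.1

end Pool.ROS
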