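import Pool.Agent.ROS.Seg

/-!
# Road S: darts of a chain
-/

set_option autoImplicit false
set_option linter.unusedSectionVars false

namespace Pool.ROS

open Pool.GOD.PG

section basic

variable {V : Type*} {f g : Equiv.Perm V} {ρ σ : V → ℕ}

lemma nx_nx (d : Dt V) : nx f g (nx f g d) = d := by
  obtain ⟨x, s, o⟩ := d
  cases s <;> cases o <;> simp [nx]

lemma nx_ne (d : Dt V) : nx f g d ≠ d := by
  obtain ⟨x, s, o⟩ := d
  cases s <;> cases o <;> simp [nx]

lemma nx_side (d : Dt V) : (nx f g d).2.1 = d.2.1 := by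
  obtain ⟨x, s, o⟩ := d
  cases s <;> cases o <;> simp [nx]

lemma col_nx (d : Dt V) : col f g ρ σ (nx f g d) = col f g ρ σ d := by
  obtain ⟨x, s, o⟩ := d
  cases s <;> cases o <;> simp [nx, col]

lemma fl_fl (d : Dt V) : fl (fl d) = d := by
  obtain ⟨x, s, o⟩ := d
  simp [fl]

lemma fl_ne (d : Dt V) : fl d ≠ d := by
  obtain ⟨x, s, o⟩ := d
  cases o <;> simp [fl]

@[simp] lemma fl_fst (d : Dt V) : (fl d).1 = d.1 := rfl

@[simp] lemma fl_side (d : Dt V) : (fl d).2.1 = d.2.1 := rfl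

/-- two darts with the same letter and the same side -/
lemma eq_or_fl {d d' : Dt V} (h1 : d'.1 = d.1) (h2 : d'.2.1 = d.2.1) : d' = d ∨ d' = fl d := by
  obtain ⟨x, s, o⟩ := d
  obtain ⟨x', s', o'⟩ := d'
  simp only at h1 h2
  subst h1 h2
  cases o <;> cases o' <;> simp [fl]

lemma mt_fst {κ : Type*} [DecidableEq κ] (R : Dt V → κ) (d : Dt V) : (mt R d).1 = d.1 := by
  obtain ⟨x, s, o⟩ := d
  simp only [mt]
  split_ifs <;> rfl

lemma mt_side {κ : Type*} [DecidableEq κ] (R : Dt V → κ) (d : Dt V) : (mt R d).2.1 = !d.2.1 := by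
  obtain ⟨x, s, o⟩ := d
  simp only [mt]
  split_ifs <;> rfl

/-- `mt` finds the dart on the other side -/
lemma mt_eq {κ : Type*} [DecidableEq κ] (R : Dt V → κ) {d d' : Dt V} (h1 : d'.1 = d.1)
    (h2 : d'.2.1 = !d.2.1) (h3 : R d' = R d) (h4 : R (fl d') ≠ R d) : mt R d = d' := by
  obtain ⟨x, s, o⟩ := d
  obtain ⟨x', s', o'⟩ := d'
  simp only at h1 h2
  subst h1 h2
  simp only [mt]
  cases o'
  · rw [if_pos h3]
  · rw [if_neg]
    exact h4

end basic

section chain

variable {V : Type*} [Fintype V] [DecidableEq V] {f g : Equiv.Perm V} {v : V} {N : ℕ}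
  {ρ σ : V → ℕ}

lemma col_v1 (h : Chn f g v N ρ σ) (o : Bool) : col f g ρ σ (v, false, o) = 0 := by
  cases o
  · show ρ (f.symm v) = 0
    rw [h.cov.vf, h.r0]
  · exact h.r0

lemma col_v2 (h : Chn f g v N ρ σ) (o : Bool) : col f g ρ σ (v, true, o) = N := by
  cases o
  · show σ (g.symm v) = N
    rw [h.cov.vg, h.sN]
  · exact h.sN

/-- the colours on the two sides of a letter are the same -/
lemma col_other (h : Chn f g v N ρ σ) {d : Dt V} (hd : d.1 ≠ v) :
    ∃ d' : Dt V, d'.1 = d.1 ∧ d'.2.1 = (!d.2.1) ∧ col f g ρ σ d' = col f g ρ σ d ∧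
      col f g ρ σ (fl d') = col f g ρ σ (fl d) := by
  obtain ⟨x, s, o⟩ := d
  have h1 := h.cov.eq x hd
  cases s <;> cases o
  · rcases h1 with ⟨h1, h2⟩ | ⟨h1, h2⟩
    · exact ⟨(x, true, false), rfl, rfl, h1, h2⟩
    · exact ⟨(x, true, true), rfl, rfl, h2, h1⟩
  · rcases h1 with ⟨h1, h2⟩ | ⟨h1, h2⟩
    · exact ⟨(x, true, true), rfl, rfl, h2, h1⟩
    · exact ⟨(x, true, false), rfl, rfl, h1, h2⟩
  · rcases h1 with ⟨h1, h2⟩ | ⟨h1, h2⟩
    · exact ⟨(x, false, false), rfl, rfl, h1.symm, h2.symm⟩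
    · exact ⟨(x, false, true), rfl, rfl, h1.symm, h2.symm⟩
  · rcases h1 with ⟨h1, h2⟩ | ⟨h1, h2⟩
    · exact ⟨(x, false, true), rfl, rfl, h2.symm, h1.symm⟩
    · exact ⟨(x, false, false), rfl, rfl, h2.symm, h1.symm⟩

lemma col_step1 (h : Chn f g v N ρ σ) {x : V} (hx : x ≠ v) (o : Bool) :
    col f g ρ σ (x, false, o) = col f g ρ σ (x, false, !o) + 1 ∨
      col f g ρ σ (x, false, !o) = col f g ρ σ (x, false, o) + 1 := by
  have h1 := h.step x hx
  cases o
  · exact h1.symm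
  · exact h1

lemma col_step (h : Chn f g v N ρ σ) {d : Dt V} (hd : d.1 ≠ v) :
    col f g ρ σ d = col f g ρ σ (fl d) + 1 ∨ col f g ρ σ (fl d) = col f g ρ σ d + 1 := by
  obtain ⟨x, s, o⟩ := d
  cases s
  · exact col_step1 h hd o
  · obtain ⟨⟨x', s', o'⟩, h1, h2, h3, h4⟩ := col_other h hd
    simp only [Bool.not_true] at h1 h2
    subst h1 h2
    rw [← h3, ← h4]
    exact col_step1 h hd o'

lemma col_le (h : Chn f g v N ρ σ) (d : Dt V) : col f g ρ σ d ≤ N := by
  obtain ⟨x, s, o⟩ := d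
  cases s <;> cases o
  · exact h.rle _
  · exact h.rle _
  · exact h.sle _
  · exact h.sle _

/-- the smoothing at a letter of `D_0` -/
lemma cc_eq (h : Chn f g v N ρ σ) {d : Dt V} (hd : d.1 ≠ v)
    (h0 : col f g ρ σ d = 0 ∨ col f g ρ σ (fl d) = 0) {d' : Dt V} (h1 : d'.1 = d.1)
    (h2 : d'.2.1 = !d.2.1) (h3 : col f g ρ σ d' = 0 ↔ col f g ρ σ d = 0) :
    cc f g ρ σ v d = d' := by
  unfold cc
  rw [if_pos ⟨hd, h0⟩]
  refine mt_eq _ h1 h2 ?_ ?_
  · simp only [h3]
  · have h4 := col_step h hd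
    have h5 : d'.1 ≠ v := by rw [h1]; exact hd
    have h6 := col_step h h5
    obtain ⟨d'', k1, k2, k3, k4⟩ := col_other h hd
    have h7 : d' = d'' ∨ d' = fl d'' := eq_or_fl (by rw [h1, k1]) (by rw [h2, k2])
    intro h8
    rw [decide_eq_decide] at h8
    rcases h7 with h7 | h7
    · rw [h7] at h3 h6 h8
      rw [k3, k4] at h6
      rw [k4] at h8
      omega
    · rw [h7] at h3 h6 h8
      rw [fl_fl] at h6 h8
      rw [k3, k4] at h6
      rw [k3] at h8
      rw [k4] at h3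
      omega

lemma cc_v {d : Dt V} (hd : d.1 = v) : cc f g ρ σ v d = fl d := by
  unfold cc
  rw [if_neg]
  exact fun h => h.1 hd

lemma cc_K {d : Dt V} (h1 : col f g ρ σ d ≠ 0) (h2 : col f g ρ σ (fl d) ≠ 0) :
    cc f g ρ σ v d = fl d := by
  unfold cc
  rw [if_neg]
  rintro ⟨-, h | h⟩
  · exact h1 h
  · exact h2 h

/-- all properties of the smoothing -/
lemma cc_cases (h : Chn f g v N ρ σ) (d : Dt V) :
    (d.1 ≠ v ∧ (col f g ρ σ d = 0 ∨ col f g ρ σ (fl d) = 0) ∧ (cc f g ρ σ v d).1 = d.1 ∧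
      (cc f g ρ σ v d).2.1 = (!d.2.1) ∧
      col f g ρ σ (cc f g ρ σ v d) = col f g ρ σ d ∧
      col f g ρ σ (fl (cc f g ρ σ v d)) = col f g ρ σ (fl d)) ∨
    ((d.1 = v ∨ (col f g ρ σ d ≠ 0 ∧ col f g ρ σ (fl d) ≠ 0)) ∧ cc f g ρ σ v d = fl d) := by
  by_cases hd : d.1 = v
  · exact Or.inr ⟨Or.inl hd, cc_v hd⟩
  · by_cases h0 : col f g ρ σ d = 0 ∨ col f g ρ σ (fl d) = 0
    · obtain ⟨d', k1, k2, k3, k4⟩ := col_other h hd
      have h1 := cc_eq h hd h0 k1 k2 (by rw [k3])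
      rw [h1]
      exact Or.inl ⟨hd, h0, k1, k2, k3, k4⟩
    · push Not at h0
      exact Or.inr ⟨Or.inr h0, cc_K h0.1 h0.2⟩

lemma cc_fst (h : Chn f g v N ρ σ) (d : Dt V) : (cc f g ρ σ v d).1 = d.1 := by
  rcases cc_cases h d with ⟨-, -, h1, -⟩ | ⟨-, h1⟩
  · exact h1
  · rw [h1, fl_fst]

lemma cc_col0 (h : Chn f g v N ρ σ) (d : Dt V) :
    col f g ρ σ (cc f g ρ σ v d) = 0 ↔ col f g ρ σ d = 0 := by
  rcases cc_cases h d with ⟨-, -, -, -, h1, -⟩ | ⟨h0, h1⟩
  · rw [h1]
  · rw [h1]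
    rcases h0 with h0 | h0
    · obtain ⟨x, s, o⟩ := d
      simp only at h0
      subst h0
      cases s
      · simp [fl, col_v1 h]
      · simp [fl, col_v2 h]
    · exact iff_of_false h0.2 h0.1

lemma cc_cc (h : Chn f g v N ρ σ) (d : Dt V) :
    cc f g ρ σ v (cc f g ρ σ v d) = d := by
  rcases cc_cases h d with ⟨h0, h1, h2, h3, h4, h5⟩ | ⟨h0, h1⟩
  · apply cc_eq h
    · rw [h2]
      exact h0
    · rw [h4, h5]
      exact h1
    · exact h2.symm
    · rw [h3, Bool.not_not]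
    · rw [h4]
  · rw [h1]
    rcases h0 with h0 | h0
    · rw [cc_v (by rw [fl_fst, h0]), fl_fl]
    · rw [cc_K h0.2 (by rw [fl_fl]; exact h0.1), fl_fl]

lemma cc_ne (h : Chn f g v N ρ σ) (d : Dt V) : cc f g ρ σ v d ≠ d := by
  rcases cc_cases h d with ⟨h0, h1, h2, h3, h4, h5⟩ | ⟨h0, h1⟩
  · intro h6
    rw [h6] at h3
    cases h7 : d.2.1 <;> rw [h7] at h3 <;> simp at h3
  · rw [h1]
    exact fl_ne d

/-- `D_0` is connected. -/
theorem conn0 (h : Chn f g v N ρ σ) (P : Dt V → Prop)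
    (h1 : ∀ d, col f g ρ σ d = 0 → (P (nx f g d) ↔ P d))
    (h2 : ∀ d, col f g ρ σ d = 0 → (P (cc f g ρ σ v d) ↔ P d)) (d d' : Dt V)
    (hd : col f g ρ σ d = 0) (hd' : col f g ρ σ d' = 0) : P d ↔ P d' := by
  have n1 : ∀ x : V, ρ (f.symm x) = 0 → (P (x, false, false) ↔ P (f.symm x, false, true)) := by
    intro x hx
    exact (h1 (x, false, false) hx).symm
  have n2 : ∀ x : V, σ (g.symm x) = 0 → (P (x, true, false) ↔ P (g.symm x, true, true)) := by
    intro x hx
    exact (h1 (x, true, false) hx).symm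
  have hh : ∀ x, x ≠ v → ∀ o o' : Bool, col f g ρ σ (x, false, o) = 0 →
      col f g ρ σ (x, true, o') = 0 → (P (x, false, o) ↔ P (x, true, o')) := by
    intro x hx o o' k1 k2
    have k3 : cc f g ρ σ v (x, false, o) = (x, true, o') :=
      cc_eq h hx (Or.inl k1) rfl rfl (by rw [k1, k2])
    rw [← k3]
    exact (h2 _ k1).symm
  obtain ⟨F1, F2, F3⟩ := h.fine (fun x => ρ x = 0 ∧ P (x, false, true))
    (fun x => σ x = 0 ∧ P (x, true, true)) (by
      have e1 : ρ (f.symm v) = 0 := by rw [h.cov.vf, h.r0]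
      simp only [e1, h.r0, true_and]
      rw [← n1 v e1]
      have e2 : cc f g ρ σ v (v, false, false) = (v, false, true) := cc_v rfl
      rw [← h2 (v, false, false) (col_v1 h false), e2]) (by
      simp only [h.cov.vg, h.sN]
      have e1 : N ≠ 0 := by have := h.pos; omega
      simp [e1]) (by
      intro x hx
      refine ⟨fun e => ?_, fun e => ?_, fun e => ?_, fun e => ?_⟩
      · by_cases e1 : σ x = 0
        · simp only [e, e1, true_and]
          rw [← n1 x (e.trans e1)]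
          exact hh x hx false true (e.trans e1) e1
        · simp only [e, e1, false_and]
      · by_cases e1 : σ x = 0
        · simp only [e, e1, true_and]
          exact hh x hx true true (e.trans e1) e1
        · simp only [e, e1, false_and]
      · by_cases e1 : σ (g.symm x) = 0
        · simp only [e, e1, true_and]
          rw [← n1 x (e.trans e1), ← n2 x e1]
          exact hh x hx false false (e.trans e1) e1
        · simp only [e, e1, false_and]
      · by_cases e1 : σ (g.symm x) = 0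
        · simp only [e, e1, true_and]
          rw [← n2 x e1]
          exact hh x hx true false (e.trans e1) e1
        · simp only [e, e1, false_and])
  have key : ∀ d : Dt V, col f g ρ σ d = 0 → (P d ↔ P (v, false, true)) := by
    rintro ⟨x, s, o⟩ hx
    cases s <;> cases o
    · rw [n1 x hx]
      have := F1 (f.symm x) v (by rw [h.r0]; exact hx)
      have hx' : ρ (f.symm x) = 0 := hx
      simpa [hx', h.r0] using this
    · have := F1 x v (by rw [h.r0]; exact hx)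
      have hx' : ρ x = 0 := hx
      simpa [hx', h.r0] using this
    · rw [n2 x hx]
      have := F2 v (g.symm x) (by rw [h.r0]; exact hx.symm)
      have hx' : σ (g.symm x) = 0 := hx
      simpa [hx', h.r0] using this.symm
    · have := F2 v x (by rw [h.r0]; exact hx.symm)
      have hx' : σ x = 0 := hx
      simpa [hx', h.r0] using this.symm
  rw [key d hd, key d' hd']

end chain

end Pool.ROS
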