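import Pool.Agent.ROS.Stmts

/-!
# Road S: the darts at the letters and the passage through a gap
-/

set_option autoImplicit false
set_option linter.unusedSectionVars false

namespace Pool.ROS

open Pool.GOD.PG

section

variable {V : Type} [Fintype V] [DecidableEq V] {f g : Equiv.Perm V} {v m : V} {N : ℕ}
  {ρ σ : V → ℕ} {th : Dt V → Prop} {p : Dt V → ℕ} {sp : GS.SP V} {S : Finset V}

lemma m_notK (hm : Is0 f g ρ σ m) : ¬ IsK f g ρ σ m := by
  intro hK
  obtain ⟨⟨x, s, o⟩, h1, h2, h3, h4⟩ := hm false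
  simp only at h1 h2
  subst h1 h2
  have := hK false (!o)
  change col f g ρ σ (x, false, !o) = 0 at h4
  omega

lemma Dat.ne_v (h : Dat f g v m N ρ σ th p sp S) {x : V} (hx : x ∈ S) : x ≠ v :=
  ((h.md.mem x).mp hx).1

lemma Dat.ne_m (h : Dat f g v m N ρ σ th p sp S) {x : V} (hx : x ∈ S) : x ≠ m := by
  rintro rfl
  exact m_notK h.m0 ((h.md.mem _).mp hx).2

/-- every dart of a track at `m` has an odd position -/
lemma Dat.odd_m (h : Dat f g v m N ρ σ th p sp S) {d : Dt V} (hd : d.1 = m)
    (hc : 1 ≤ col f g ρ σ d) : Odd (p d) := by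
  rcases h.rl.nx d hc with ⟨h1, h2⟩ | ⟨h1, h2⟩
  · have := h.rl.pm d (nx f g d) hd hc (by rwa [col_nx]) (h.tr.tx d hc)
    omega
  · exact h1

/-- the two darts of a track at a letter of `S` -/
lemma Dat.two (h : Dat f g v m N ρ σ th p sp S) (i : Bool) {x : V} (hx : x ∈ S) :
    ∃ d d' : Dt V, d.1 = x ∧ d'.1 = x ∧ 1 ≤ col f g ρ σ d ∧ 1 ≤ col f g ρ σ d' ∧
      (th d ↔ i = false) ∧ (th d' ↔ i = false) ∧ Odd (p d) ∧ Even (p d') := by
  have hK := ((h.md.mem x).mp hx).2
  have hv := h.ne_v hx
  have hmx := h.ne_m hx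
  obtain ⟨d, h1, h2, h3, h4, h5, h6⟩ := h.tr.selK hv hK false (i = false)
  obtain ⟨d', k1, k2, k3, k4, k5, k6⟩ := h.tr.selK hv hK true (i = false)
  rcases h.rl.ps d d' (by rw [h1]; exact hv) (by rw [h1]; exact hmx) (by rw [h1, k1])
    (by rw [h2, k2]; rfl) h3 k3 (by rw [h5, k5]) with ⟨q1, q2⟩ | ⟨q1, q2⟩
  · refine ⟨d, d', h1, k1, h3, k3, h5, k5, q1, ?_⟩
    rw [q2]
    exact q1.add_one
  · refine ⟨d', d, k1, h1, k3, h3, k5, h5, q1, ?_⟩
    rw [q2]
    exact q1.add_one

end

/-- DAR -/
theorem t_DAR : Stmt_DAR := by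
  intro V _ _ f g v m N ρ σ th p sp S h
  have hN := h.ch.pos
  refine ⟨?_, ?_, ?_⟩
  · intro i a ha
    rcases a with _ | x
    · constructor
      · have hc : ∀ o : Bool, 1 ≤ col f g ρ σ (v, true, o) := fun o => by
          rw [col_v2 h.ch]; exact hN
        have ht := h.tr.tv
        by_cases h1 : th (v, true, true) ↔ i = false
        · exact ⟨(v, true, true), hc _, h1, Or.inl ⟨rfl, rfl⟩⟩
        · exact ⟨(v, true, false), hc _, by tauto, Or.inl ⟨rfl, rfl⟩⟩
      · obtain ⟨d, h1, h2, h3, h4⟩ := h.m0 false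
        obtain ⟨d', k1, k2, k3, k4⟩ := h.m0 true
        have ht := h.tr.tm d d' h1 k1 (by rw [h2, k2]; rfl) (by omega) (by omega)
        by_cases h5 : th d ↔ i = false
        · exact ⟨d, by omega, h5, Or.inl ⟨rfl, h1⟩⟩
        · exact ⟨d', by omega, by tauto, Or.inl ⟨rfl, k1⟩⟩
    · have hx : x ∈ S := by simpa using ha
      obtain ⟨d, d', h1, h2, h3, h4, h5, h6, h7, h8⟩ := h.two i hx
      exact ⟨⟨d', h4, h6, Or.inr ⟨by rw [h2], h8⟩⟩, ⟨d, h3, h5, Or.inr ⟨by rw [h1], h7⟩⟩⟩
  · rintro i ⟨x, s, o⟩ ⟨h1, h2, ⟨-, h3⟩ | ⟨h3, -⟩⟩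
    · simp only at h3
      subst h3
      cases s
      · rw [col_v1 h.ch] at h1
        omega
      · rfl
    · simp at h3
  · intro i x hx d
    constructor
    · rintro ⟨h1, h2, ⟨h3, -⟩ | ⟨h3, h4⟩⟩
      · simp at h3
      · have h5 : d.1 = x := by simpa using h3.symm
        have h6 := h.md.o i d (by rw [h5]; exact hx) h2
        rw [h5] at h6
        have h7 : ¬ Odd (p d) := by rwa [Nat.not_odd_iff_even]
        simp only [h7, iff_false] at h6
        cases h8 : sp.o i x <;> cases h9 : d.2.1 <;> simp_all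
    · rintro ⟨h1, h2, ⟨h3, -⟩ | ⟨h3, h4⟩⟩
      · simp at h3
      · have h5 : d.1 = x := by simpa using h3.symm
        have h6 := h.md.o i d (by rw [h5]; exact hx) h2
        rw [h5] at h6
        simp only [h4, iff_true] at h6
        cases h8 : sp.o i x <;> cases h9 : d.2.1 <;> simp_all

/-- GAP -/
theorem t_GAP : Stmt_GAP := by
  intro V _ _ f g v m N ρ σ th p sp S h i a b hc Q hQ1 hQ2 d d' hd hd' hQ
  obtain ⟨c1, t1, e1⟩ := hd
  obtain ⟨c2, t2, e2⟩ := hd'
  -- the key of the start
  have hev : Even (p d) := by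
    rcases e1 with ⟨-, h1⟩ | ⟨-, h1⟩
    · rw [h.rl.pv d h1 c1]
      exact Even.zero
    · exact h1
  have hod : Odd (p d') := by
    rcases e2 with ⟨-, h1⟩ | ⟨-, h1⟩
    · exact h.odd_m h1 c2
    · exact h1
  have ka : ∀ x, a = some x → x ∈ S ∧ sp.k i x = ((p d / 2 : ℕ) : ℤ) := by
    intro x hx
    subst hx
    have hxS : x ∈ S := GS.SP.mem_ins.mp hc.1
    refine ⟨hxS, ?_⟩
    rcases e1 with ⟨h1, -⟩ | ⟨h1, -⟩
    · simp at h1
    · have h2 : d.1 = x := by simpa using h1.symm
      have h3 := h.md.k i d (by rw [h2]; exact hxS) t1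
      rw [h2] at h3
      rw [h3]
      obtain ⟨j, hj⟩ := hev
      congr 1
      omega
  have kb : ∀ y, b = some y → y ∈ S ∧ sp.k i y = (((p d' + 1) / 2 : ℕ) : ℤ) := by
    intro y hy
    subst hy
    have hyS : y ∈ S := GS.SP.mem_ins.mp hc.2.1
    refine ⟨hyS, ?_⟩
    rcases e2 with ⟨h1, -⟩ | ⟨h1, -⟩
    · simp at h1
    · have h2 : d'.1 = y := by simpa using h1.symm
      have h3 := h.md.k i d' (by rw [h2]; exact hyS) t2
      rw [h2] at h3
      exact h3
  have hle : p d ≤ p d' := by
    rcases a with _ | x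
    · rcases e1 with ⟨-, h1⟩ | ⟨h1, -⟩
      · rw [h.rl.pv d h1 c1]
        omega
      · simp at h1
    · rcases b with _ | y
      · rcases e2 with ⟨-, h1⟩ | ⟨h1, -⟩
        · exact h.rl.pm d' d h1 c2 c1 (by rw [t1, t2])
        · simp at h1
      · have h1 := hc.2.2.1 x y rfl rfl
        rw [(ka x rfl).2, (kb y rfl).2] at h1
        obtain ⟨j, hj⟩ := hev
        obtain ⟨l, hl⟩ := hod
        omega
  have key : ∀ n, ∀ e : Dt V, 1 ≤ col f g ρ σ e → (th e ↔ i = false) → p e = n → p d ≤ n →
      n ≤ p d' → Q e := by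
    intro n
    induction n using Nat.strong_induction_on with
    | _ n ih =>
      intro e c3 t3 hn h1 h2
      rcases Nat.eq_or_lt_of_le h1 with h1 | h1
      · have : e = d := h.rl.inj d e c1 c3 (by rw [t3, t1]) (by rw [hn, h1])
        rw [this]
        exact hQ
      · rcases Nat.even_or_odd n with h3 | h3
        · -- the dart leaves a letter
          have hev' : ¬ Odd (p e) := by rw [hn, Nat.not_odd_iff_even]; exact h3
          have hv : e.1 ≠ v := by
            intro h4
            have := h.rl.pv e h4 c3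
            omega
          have hme : e.1 ≠ m := fun h4 => hev' (h.odd_m h4 c3)
          have hS : e.1 ∉ S := by
            intro h4
            have h5 := h.md.k i e h4 t3
            apply hc.2.2.2 e.1 h4
            obtain ⟨j, hj⟩ := hev
            obtain ⟨l, hl⟩ := hod
            obtain ⟨r, hr⟩ := h3
            constructor
            · intro x z hx hz
              obtain rfl : e.1 = z := by simpa using hz
              rw [(ka x hx).2, h5]
              omega
            · intro z y hz hy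
              obtain rfl : e.1 = z := by simpa using hz
              rw [(kb y hy).2, h5]
              omega
          have h0 : Is0 f g ρ σ e.1 := by
            rcases dich h.ch hv with h4 | h4
            · exact absurd ((h.md.mem e.1).mpr ⟨hv, h4⟩) hS
            · exact h4
          obtain ⟨e', k1, k2, k3, k4⟩ := h0 (!e.2.1)
          have k5 : e.2.1 = (!e'.2.1) := by rw [k2, Bool.not_not]
          have hv' : e'.1 ≠ v := by rw [k1]; exact hv
          have hm' : e'.1 ≠ m := by rw [k1]; exact hme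
          have k6 : th e ↔ th e' := h.tr.tz e' e hv' hm' k1.symm k5 (by omega) c3 k4
          have t4 : th e' ↔ i = false := by rw [← k6]; exact t3
          rcases h.rl.ps e' e hv' hm' k1.symm k5 (by omega) c3 k6 with ⟨q1, q2⟩ | ⟨q1, q2⟩
          · have h5 : Q e' := ih (p e') (by omega) e' (by omega) t4 rfl (by omega) (by omega)
            exact hQ2 e' e hv' hm' (by rw [k1]; exact h0) k1.symm k5 (by omega) c3 t4 k6 h5
          · exact absurd q1 hev'
        · -- the dart enters a letter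
          rcases h.rl.nx e c3 with ⟨h4, h5⟩ | ⟨h4, h5⟩
          · rw [hn] at h4
            exact absurd h3 (Nat.not_odd_iff_even.mpr h4)
          · have h6 : Q (nx f g e) := ih (p (nx f g e)) (by omega) (nx f g e)
              (by rw [col_nx]; exact c3) (by rw [h.tr.tx e c3]; exact t3) rfl (by omega) (by omega)
            have h7 := hQ1 (nx f g e) (by rw [col_nx]; exact c3)
              (by rw [h.tr.tx e c3]; exact t3) h6
            rwa [nx_nx] at h7
  exact key (p d') d' c2 t2 rfl hle le_rfl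

end Pool.ROS
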