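import Pool.Agent.ROS.Stmts

/-!
# Road S: MDL, the signed permutation of the two tracks
-/

set_option autoImplicit false
set_option linter.unusedSectionVars false

namespace Pool.ROS

open Pool.GOD.PG

/-- MDL -/
theorem t_MDL : Stmt_MDL := by
  classical
  intro V _ _ f g v m N ρ σ th p h hm hm0 ht hr
  -- the dart of the track `i` at the point `(x, s)`
  have hsel : ∀ (i : Bool) (x : V) (s : Bool), x ≠ v → IsK f g ρ σ x →
      ∃ d : Dt V, d.1 = x ∧ d.2.1 = s ∧ 1 ≤ col f g ρ σ d ∧ (th d ↔ i = false) ∧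
        ∀ d' : Dt V, d'.1 = x → d'.2.1 = s → (th d' ↔ i = false) → d' = d := by
    intro i x s hx hK
    obtain ⟨d, d1, d2, d3, d4, d5, d6⟩ := ht.selK hx hK s (i = false)
    refine ⟨d, d1, d2, d3, d5, fun d' k1 k2 k3 => ?_⟩
    rcases eq_or_fl (d := d) (d' := d') (k1.trans d1.symm) (k2.trans d2.symm) with k | k
    · exact k
    · rw [k] at k3
      exact absurd k3 d6
  -- the positions of the two darts
  have hps : ∀ (i : Bool) (d d' : Dt V), d.1 ≠ v → IsK f g ρ σ d.1 → d'.1 = d.1 →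
      d'.2.1 = (!d.2.1) → (th d ↔ i = false) → (th d' ↔ i = false) →
      (Odd (p d) ∧ p d' = p d + 1) ∨ (Odd (p d') ∧ p d = p d' + 1) := by
    intro i d d' k1 k2 k3 k4 k5 k6
    have h1 : d.1 ≠ m := by
      rintro h'
      obtain ⟨e, e1, e2, e3, e4⟩ := hm0 false
      have := k2 e.2.1 (!e.2.2)
      obtain ⟨x, s, o⟩ := e
      simp only at e1
      have e5 : col f g ρ σ (x, s, !o) = 0 := e4
      rw [e1, ← h'] at e5
      simp only at this
      omega
    have h2 : 1 ≤ col f g ρ σ d := by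
      obtain ⟨x, s, o⟩ := d
      exact k2 s o
    have h3 : 1 ≤ col f g ρ σ d' := by
      obtain ⟨x, s, o⟩ := d'
      simp only at k3
      subst k3
      exact k2 s o
    exact hr.ps d d' k1 h1 k3 k4 h2 h3 (k6.trans k5.symm)
  have hex : ∀ (i : Bool) (x : V), ∃ (k : ℤ) (o : Bool), ((x ≠ v ∧ IsK f g ρ σ x) → 0 ≤ k ∧
      (∃ d : Dt V, d.1 = x ∧ 1 ≤ col f g ρ σ d ∧ (th d ↔ i = false) ∧ (p d : ℤ) + 1 = 2 * k) ∧
      ∀ d : Dt V, d.1 = x → (th d ↔ i = false) → k = (((p d + 1) / 2 : ℕ) : ℤ) ∧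
        (o = true ↔ (d.2.1 = false ↔ Odd (p d)))) ∧
      (¬ (x ≠ v ∧ IsK f g ρ σ x) → k = - ((Fintype.equivFin V x : ℕ) : ℤ) - 1) := by
    intro i x
    by_cases hx : x ≠ v ∧ IsK f g ρ σ x
    · obtain ⟨hxv, hK⟩ := hx
      obtain ⟨a, a1, a2, a3, a4, a5⟩ := hsel i x false hxv hK
      obtain ⟨b, b1, b2, b3, b4, b5⟩ := hsel i x true hxv hK
      have hab := hps i a b (by rw [a1]; exact hxv) (by rw [a1]; exact hK) (b1.trans a1.symm)
        (by rw [a2, b2]; rfl) a4 b4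
      refine ⟨(((p a + 1) / 2 : ℕ) : ℤ), decide (Odd (p a)), fun _ => ⟨by positivity, ?_, ?_⟩,
        fun h' => absurd ⟨hxv, hK⟩ h'⟩
      · rcases hab with ⟨⟨k, hk⟩, h2⟩ | ⟨⟨k, hk⟩, h2⟩
        · exact ⟨a, a1, a3, a4, by omega⟩
        · exact ⟨b, b1, b3, b4, by omega⟩
      · intro d d1 d2
        cases hs : d.2.1
        · rw [a5 d d1 hs d2]
          exact ⟨rfl, by simp⟩
        · rw [b5 d d1 hs d2]
          rcases hab with ⟨⟨k, hk⟩, h2⟩ | ⟨⟨k, hk⟩, h2⟩
          · have e1 : Odd (p a) := ⟨k, hk⟩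
            have e2 : ¬ Odd (p b) := by rw [Nat.not_odd_iff_even]; exact ⟨k + 1, by omega⟩
            refine ⟨by omega, by simp [e1, e2]⟩
          · have e1 : Odd (p b) := ⟨k, hk⟩
            have e2 : ¬ Odd (p a) := by rw [Nat.not_odd_iff_even]; exact ⟨k + 1, by omega⟩
            refine ⟨by omega, by simp [e1, e2]⟩
    · exact ⟨- ((Fintype.equivFin V x : ℕ) : ℤ) - 1, false, fun h' => absurd h' hx, fun _ => rfl⟩
  choose k o hk1 hk2 using hex
  refine ⟨⟨k, o, ?_⟩, Finset.univ.filter (fun x => x ≠ v ∧ IsK f g ρ σ x), ⟨?_, ?_, ?_⟩⟩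
  · intro i x y hxy
    by_cases hx : x ≠ v ∧ IsK f g ρ σ x
    · by_cases hy : y ≠ v ∧ IsK f g ρ σ y
      · obtain ⟨-, ⟨d, d1, d2, d3, d4⟩, -⟩ := hk1 i x hx
        obtain ⟨-, ⟨e, e1, e2, e3, e4⟩, -⟩ := hk1 i y hy
        have : d = e := hr.inj e d e2 d2 (d3.trans e3.symm) (by omega)
        rw [← d1, ← e1, this]
      · have := (hk1 i x hx).1
        have := hk2 i y hy
        omega
    · by_cases hy : y ≠ v ∧ IsK f g ρ σ y
      · have := (hk1 i y hy).1
        have := hk2 i x hx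
        omega
      · have e1 := hk2 i x hx
        have e2 := hk2 i y hy
        have e3 : ((Fintype.equivFin V x : ℕ)) = ((Fintype.equivFin V y : ℕ)) := by omega
        exact (Fintype.equivFin V).injective (Fin.ext e3)
  · intro x
    simp
  · intro i d hd hd2
    have hd' : d.1 ≠ v ∧ IsK f g ρ σ d.1 := by simpa using hd
    exact ((hk1 i d.1 hd').2.2 d rfl hd2).1
  · intro i d hd hd2
    have hd' : d.1 ≠ v ∧ IsK f g ρ σ d.1 := by simpa using hd
    exact ((hk1 i d.1 hd').2.2 d rfl hd2).2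

end Pool.ROS
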