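import Mathlib

/-!
MP_7b7176_co (ROAD S in Lean): two involutions with two fixed points give an enumeration of a path.
-/

set_option autoImplicit false

namespace Pool.ROS

/-- The walk `a, e a, q (e a), ...`. -/
def walkU {X : Type*} (e q : X → X) (a : X) : ℕ → X
  | 0 => a
  | n + 1 => if Even n then e (walkU e q a n) else q (walkU e q a n)

theorem walkU_even {X : Type*} (e q : X → X) (a : X) (n : ℕ) (h : Even n) :
    walkU e q a (n + 1) = e (walkU e q a n) := by
  simp [walkU, h]

theorem walkU_odd {X : Type*} (e q : X → X) (a : X) (n : ℕ) (h : Odd n) :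
    walkU e q a (n + 1) = q (walkU e q a n) := by
  have h' : ¬ Even n := Nat.not_even_iff_odd.mpr h
  simp [walkU, h']

/-- Two involutions `e` (without fixed point) and `q` (fixed points `a`, `b`) which act transitively
enumerate the set as a path from `a` to `b`. -/
theorem path {X : Type*} [Finite X] (e q : X → X) (he : ∀ d, e (e d) = d) (hne : ∀ d, e d ≠ d)
    (hq : ∀ d, q (q d) = d) (a b : X) (hab : a ≠ b) (hfix : ∀ d, q d = d ↔ d = a ∨ d = b)
    (conn : ∀ Z : X → Prop, ¬ Z a → ¬ Z b → (∀ d, Z d → Z (e d)) → (∀ d, Z d → Z (q d)) →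
      ∀ d, ¬ Z d) :
    ∃ p : X → ℕ, Function.Injective p ∧ p a = 0 ∧ (∀ d, Even (p d) → p (e d) = p d + 1) ∧
      (∀ d, Odd (p d) → d ≠ b → p (q d) = p d + 1) ∧ (∀ d, p d ≤ p b) := by
  classical
  have hqa : q a = a := (hfix a).mpr (Or.inl rfl)
  have hqb : q b = b := (hfix b).mpr (Or.inr rfl)
  set u := walkU e q a with hu
  have u0 : u 0 = a := rfl
  have ue : ∀ n, Even n → u (n + 1) = e (u n) := fun n h => walkU_even e q a n h
  have uo : ∀ n, Odd n → u (n + 1) = q (u n) := fun n h => walkU_odd e q a n h
  have ue' : ∀ n, Even n → e (u (n + 1)) = u n := fun n h => by rw [ue n h, he]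
  have uo' : ∀ n, Odd n → q (u (n + 1)) = u n := fun n h => by rw [uo n h, hq]
  have hex : ∃ j, ∃ i, i < j ∧ u i = u j := by
    obtain ⟨x, y, hxy, hne'⟩ := Finite.exists_ne_map_eq_of_infinite u
    rcases lt_or_gt_of_ne hxy with h | h
    · exact ⟨y, x, h, hne'⟩
    · exact ⟨x, y, h, hne'.symm⟩
  obtain ⟨j, ⟨i, hij, hui⟩, hmin⟩ : ∃ j, (∃ i, i < j ∧ u i = u j) ∧
      ∀ j' < j, ¬ ∃ i, i < j' ∧ u i = u j' :=
    ⟨Nat.find hex, Nat.find_spec hex, fun j' h => Nat.find_min hex h⟩
  have inj : ∀ m n, m < j → n < j → u m = u n → m = n := by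
    intro m n hm hn h
    rcases lt_trichotomy m n with h' | h' | h'
    · exact absurd ⟨m, h', h⟩ (hmin n hn)
    · exact h'
    · exact absurd ⟨n, h', h.symm⟩ (hmin m hm)
  have key : Even j ∧ u (j - 1) = b := by
    obtain ⟨k, rfl⟩ : ∃ k, j = k + 1 := ⟨j - 1, by omega⟩
    rw [Nat.add_sub_cancel]
    rcases Nat.even_or_odd k with hk | hk
    · exfalso
      have h1 : e (u i) = u k := by rw [hui, ue' k hk]
      rcases Nat.even_or_odd i with hi | hi
      · have h2 : u (i + 1) = u k := by rw [ue i hi, h1]
        have h3 : i + 1 ≠ k := by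
          intro h; rw [← h] at hk
          exact (Nat.not_even_iff_odd.mpr (hi.add_one)) hk
        by_cases h4 : i = k
        · subst h4
          exact hne _ h1
        · have h5 : i + 1 < k + 1 := by omega
          exact h3 (inj _ _ h5 (by omega) h2)
      · obtain ⟨l, rfl⟩ : ∃ l, i = l + 1 := by
          rcases hi with ⟨m, hm⟩; exact ⟨2 * m, hm⟩
        have hl : Even l := by
          rcases Nat.even_or_odd l with h | h
          · exact h
          · exact absurd hi (Nat.not_odd_iff_even.mpr h.add_one)
        rw [ue' l hl] at h1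
        have := inj _ _ (by omega) (by omega) h1
        omega
    · refine ⟨hk.add_one, ?_⟩
      have h1 : q (u i) = u k := by rw [hui, uo' k hk]
      rcases Nat.even_or_odd i with hi | hi
      · exfalso
        rcases Nat.eq_zero_or_pos i with h0 | h0
        · subst h0
          rw [u0, hqa, ← u0] at h1
          have := inj _ _ (by omega) (by omega) h1
          subst this
          exact absurd hk (by decide)
        · obtain ⟨l, rfl⟩ : ∃ l, i = l + 1 := ⟨i - 1, by omega⟩
          have hl : Odd l := by
            rcases Nat.even_or_odd l with h | h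
            · exact absurd hi (Nat.not_even_iff_odd.mpr h.add_one)
            · exact h
          rw [uo' l hl] at h1
          have := inj _ _ (by omega) (by omega) h1
          omega
      · by_cases h4 : i = k
        · subst h4
          rcases (hfix _).mp h1 with h | h
          · exfalso
            rw [← u0] at h
            have := inj _ _ (by omega) (by omega) h
            subst this
            exact absurd hk (by decide)
          · exact h
        · exfalso
          have h2 : u (i + 1) = u k := by rw [uo i hi, h1]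
          have h3 := inj _ _ (by omega) (by omega) h2
          rw [← h3] at hk
          exact (Nat.not_odd_iff_even.mpr hi.add_one) hk
  obtain ⟨hj, hb⟩ := key
  have hj0 : 0 < j := by omega
  -- the set of the first `j` values is everything
  have ce : ∀ d, (∃ i, i < j ∧ u i = d) → ∃ i, i < j ∧ u i = e d := by
    rintro d ⟨i, hi, rfl⟩
    rcases Nat.even_or_odd i with h | h
    · refine ⟨i + 1, ?_, ue i h⟩
      have : i + 1 ≠ j := by
        intro h'; rw [← h'] at hj
        exact (Nat.not_even_iff_odd.mpr h.add_one) hj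
      omega
    · obtain ⟨l, rfl⟩ : ∃ l, i = l + 1 := by
        rcases h with ⟨m, hm⟩; exact ⟨2 * m, hm⟩
      have hl : Even l := by
        rcases Nat.even_or_odd l with h' | h'
        · exact h'
        · exact absurd h (Nat.not_odd_iff_even.mpr h'.add_one)
      exact ⟨l, by omega, (ue' l hl).symm⟩
  have cq : ∀ d, (∃ i, i < j ∧ u i = d) → ∃ i, i < j ∧ u i = q d := by
    rintro d ⟨i, hi, rfl⟩
    rcases Nat.even_or_odd i with h | h
    · rcases Nat.eq_zero_or_pos i with h0 | h0
      · subst h0
        exact ⟨0, hj0, by rw [u0, hqa]⟩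
      · obtain ⟨l, rfl⟩ : ∃ l, i = l + 1 := ⟨i - 1, by omega⟩
        have hl : Odd l := by
          rcases Nat.even_or_odd l with h' | h'
          · exact absurd h (Nat.not_even_iff_odd.mpr h'.add_one)
          · exact h'
        exact ⟨l, by omega, (uo' l hl).symm⟩
    · by_cases h' : i = j - 1
      · subst h'
        exact ⟨j - 1, by omega, by rw [hb, hqb]⟩
      · exact ⟨i + 1, by omega, uo i h⟩
  have all : ∀ d, ∃ i, i < j ∧ u i = d := by
    intro d
    have := conn (fun d => ¬ ∃ i, i < j ∧ u i = d) (fun h => h ⟨0, hj0, u0⟩)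
      (fun h => h ⟨j - 1, by omega, hb⟩)
      (fun d h h' => h (by have := ce _ h'; rwa [he] at this))
      (fun d h h' => h (by have := cq _ h'; rwa [hq] at this)) d
    exact not_not.mp this
  choose p hp using all
  have pu : ∀ i, i < j → p (u i) = i := fun i hi => inj _ _ (hp _).1 hi (hp _).2
  refine ⟨p, ?_, ?_, ?_, ?_, ?_⟩
  · intro x y h
    rw [← (hp x).2, ← (hp y).2, h]
  · have := pu 0 hj0
    rwa [u0] at this
  · intro d hd
    have h1 : p d + 1 < j := by
      have h2 := (hp d).1
      have : p d + 1 ≠ j := by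
        intro h'; rw [← h'] at hj
        exact (Nat.not_even_iff_odd.mpr hd.add_one) hj
      omega
    have h3 := pu _ h1
    rwa [ue _ hd, (hp d).2] at h3
  · intro d hd hdb
    have h1 : p d + 1 < j := by
      have h2 := (hp d).1
      have : p d ≠ j - 1 := by
        intro h'
        apply hdb
        rw [← (hp d).2, h', hb]
      omega
    have h3 := pu _ h1
    rwa [uo _ hd, (hp d).2] at h3
  · intro d
    have h1 : p b = j - 1 := by
      have := pu (j - 1) (by omega)
      rwa [hb] at this
    have := (hp d).1
    omega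

end Pool.ROS
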