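import Pool.Agent.ROS.Stmts
import Pool.Agent.ROS.Path

/-!
# Road S: REAL, the positions of the darts on the two tracks
-/

set_option autoImplicit false
set_option linter.unusedSectionVars false

namespace Pool.ROS

open Pool.GOD.PG

section

variable {V : Type} [Fintype V] [DecidableEq V] {f g : Equiv.Perm V} {v : V} {N : ℕ}
  {ρ σ : V → ℕ}

lemma real_uniq {m : V} {th : Dt V → Prop} (ht : Trk f g v m ρ σ th) {d d' : Dt V} (hv : d.1 ≠ v)
    (h1 : d'.1 = d.1) (h2 : d'.2.1 = d.2.1) (k1 : 1 ≤ col f g ρ σ d) (k2 : 1 ≤ col f g ρ σ d')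
    (k3 : th d' ↔ th d) : d' = d := by
  rcases eq_or_fl h1 h2 with e | e
  · exact e
  · exfalso
    subst e
    have := ht.tK d hv k1 k2
    tauto

lemma real_exq (h : Chn f g v N ρ σ) {m : V} {th : Dt V → Prop} (ht : Trk f g v m ρ σ th)
    {d : Dt V} (hd : 1 ≤ col f g ρ σ d) (hv : d.1 ≠ v) (hm : d.1 ≠ m) :
    ∃ d' : Dt V, d'.1 = d.1 ∧ d'.2.1 = (!d.2.1) ∧ 1 ≤ col f g ρ σ d' ∧ (th d' ↔ th d) := by
  rcases dich h hv with hK | h0
  · obtain ⟨d', b1, b2, b3, b4, b5, b6⟩ := ht.selK hv hK (!d.2.1) (th d)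
    exact ⟨d', b1, b2, b3, b5⟩
  · obtain ⟨d', b1, b2, b3, b4⟩ := h0 (!d.2.1)
    obtain ⟨d'', c1, c2, c3, c4⟩ := h0 d.2.1
    have hfl : col f g ρ σ (fl d) = 0 := by
      rcases eq_or_fl (d := d'') (d' := d) c1.symm c2.symm with e | e
      · rw [e, c4]
      · exfalso
        rw [e, c4] at hd
        omega
    exact ⟨d', b1, b2, by omega, ht.tz d d' hv hm b1 b2 hd (by omega) hfl⟩

/-- the positions on one track -/
lemma real_track (h : Chn f g v N ρ σ) (hN : NN f g) {m : V} (hm : m ≠ v) (hm0 : Is0 f g ρ σ m)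
    {th : Dt V → Prop} (ht : Trk f g v m ρ σ th) (t : Prop) :
    ∃ p : Dt V → ℕ,
      (∀ d d', 1 ≤ col f g ρ σ d → 1 ≤ col f g ρ σ d' → (th d ↔ t) → (th d' ↔ t) → p d' = p d →
        d' = d) ∧
      (∀ d, 1 ≤ col f g ρ σ d → (th d ↔ t) →
        (Even (p d) ∧ p (nx f g d) = p d + 1) ∨ (Odd (p d) ∧ p d = p (nx f g d) + 1)) ∧
      (∀ d d', d.1 ≠ v → d.1 ≠ m → d'.1 = d.1 → d'.2.1 = (!d.2.1) → 1 ≤ col f g ρ σ d →
        1 ≤ col f g ρ σ d' → (th d ↔ t) → (th d' ↔ t) →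
        (Odd (p d) ∧ p d' = p d + 1) ∨ (Odd (p d') ∧ p d = p d' + 1)) ∧
      (∀ d, d.1 = v → 1 ≤ col f g ρ σ d → (th d ↔ t) → p d = 0) ∧
      (∀ d d', d.1 = m → 1 ≤ col f g ρ σ d → 1 ≤ col f g ρ σ d' → (th d ↔ t) → (th d' ↔ t) →
        p d' ≤ p d) := by
  classical
  -- the dart at `v`
  have hv2 : ∀ o, 1 ≤ col f g ρ σ (v, true, o) := fun o => by
    rw [col_v2 h]
    exact h.pos
  have uv : ∀ d d' : Dt V, d.1 = v → d'.1 = v → 1 ≤ col f g ρ σ d → 1 ≤ col f g ρ σ d' →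
      (th d ↔ t) → (th d' ↔ t) → d' = d := by
    rintro ⟨x, s, o⟩ ⟨x', s', o'⟩ e1 e2 k1 k2 k3 k4
    simp only at e1 e2
    subst e1
    subst e2
    cases s
    · rw [col_v1 h] at k1
      omega
    cases s'
    · rw [col_v1 h] at k2
      omega
    have := ht.tv
    cases o <;> cases o'
    · rfl
    · tauto
    · tauto
    · rfl
  obtain ⟨a, av, ac, at'⟩ : ∃ a : Dt V, a.1 = v ∧ 1 ≤ col f g ρ σ a ∧ (th a ↔ t) := by
    by_cases k : th (v, true, true) ↔ t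
    · exact ⟨_, rfl, hv2 true, k⟩
    · refine ⟨_, rfl, hv2 false, ?_⟩
      have := ht.tv
      tauto
  -- the dart at `m`
  have um : ∀ d d' : Dt V, d.1 = m → d'.1 = m → 1 ≤ col f g ρ σ d → 1 ≤ col f g ρ σ d' →
      (th d ↔ t) → (th d' ↔ t) → d' = d := by
    intro d d' e1 e2 k1 k2 k3 k4
    by_cases hs : d'.2.1 = d.2.1
    · exact real_uniq ht (by rw [e1]; exact hm) (e2.trans e1.symm) hs k1 k2 (k4.trans k3.symm)
    · exfalso
      have hs' : d'.2.1 = !d.2.1 := by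
        cases h1 : d'.2.1 <;> cases h2 : d.2.1 <;> simp_all
      have := ht.tm d d' e1 e2 hs' k1 k2
      tauto
  obtain ⟨b, bm, bc, bt⟩ : ∃ b : Dt V, b.1 = m ∧ 1 ≤ col f g ρ σ b ∧ (th b ↔ t) := by
    obtain ⟨d0, q1, q2, q3, q4⟩ := hm0 false
    obtain ⟨d1, r1, r2, r3, r4⟩ := hm0 true
    have := ht.tm d0 d1 q1 r1 (by rw [q2, r2]; rfl) (by omega) (by omega)
    by_cases k : th d0 ↔ t
    · exact ⟨d0, q1, by omega, k⟩
    · exact ⟨d1, r1, by omega, by tauto⟩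
  let X := {d : Dt V // 1 ≤ col f g ρ σ d ∧ (th d ↔ t)}
  let e : X → X := fun d => ⟨nx f g d.1, by rw [col_nx]; exact d.2.1, (ht.tx d.1 d.2.1).trans d.2.2⟩
  let q : X → X := fun d => if k : d.1.1 ≠ v ∧ d.1.1 ≠ m then
      ⟨(real_exq h ht d.2.1 k.1 k.2).choose, (real_exq h ht d.2.1 k.1 k.2).choose_spec.2.2.1,
        (real_exq h ht d.2.1 k.1 k.2).choose_spec.2.2.2.trans d.2.2⟩
    else d
  have q1 : ∀ d : X, d.1.1 ≠ v → d.1.1 ≠ m → (q d).1.1 = d.1.1 ∧ (q d).1.2.1 = !d.1.2.1 := by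
    intro d k1 k2
    have hq : q d = ⟨(real_exq h ht d.2.1 k1 k2).choose, (real_exq h ht d.2.1 k1 k2).choose_spec.2.2.1,
        (real_exq h ht d.2.1 k1 k2).choose_spec.2.2.2.trans d.2.2⟩ := dif_pos ⟨k1, k2⟩
    rw [hq]
    exact ⟨(real_exq h ht d.2.1 k1 k2).choose_spec.1, (real_exq h ht d.2.1 k1 k2).choose_spec.2.1⟩
  have q2 : ∀ d : X, ¬ (d.1.1 ≠ v ∧ d.1.1 ≠ m) → q d = d := fun d k => dif_neg k
  have q3 : ∀ d d' : X, d.1.1 ≠ v → d.1.1 ≠ m → d'.1.1 = d.1.1 → d'.1.2.1 = (!d.1.2.1) → d' = q d := by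
    intro d d' k1 k2 k3 k4
    obtain ⟨k5, k6⟩ := q1 d k1 k2
    apply Subtype.ext
    exact real_uniq ht (by rw [k5]; exact k1) (by rw [k3, k5]) (by rw [k4, k6]) (q d).2.1 d'.2.1
      (d'.2.2.trans (q d).2.2.symm)
  have hqq : ∀ d, q (q d) = d := by
    intro d
    by_cases k : d.1.1 ≠ v ∧ d.1.1 ≠ m
    · obtain ⟨k5, k6⟩ := q1 d k.1 k.2
      symm
      apply q3
      · rw [k5]; exact k.1
      · rw [k5]; exact k.2
      · rw [k5]
      · rw [k6, Bool.not_not]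
    · rw [q2 d k, q2 d k]
  let A : X := ⟨a, ac, at'⟩
  let B : X := ⟨b, bc, bt⟩
  have hAv : ∀ d : X, d.1.1 = v → d = A := fun d k => Subtype.ext (uv a d.1 av k ac d.2.1 at' d.2.2)
  have hBm : ∀ d : X, d.1.1 = m → d = B := fun d k => Subtype.ext (um b d.1 bm k bc d.2.1 bt d.2.2)
  have hAB : A ≠ B := by
    intro k
    have : a = b := congrArg Subtype.val k
    rw [this, bm] at av
    exact hm av
  obtain ⟨p, pinj, pa, pe, po, pb⟩ := path e q (fun d => Subtype.ext (nx_nx d.1))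
    (fun d k => nx_ne d.1 (congrArg Subtype.val k)) hqq A B hAB
    (by
      intro d
      constructor
      · intro k
        by_contra k'
        push Not at k'
        have k1 : d.1.1 ≠ v := fun e => k'.1 (hAv d e)
        have k2 : d.1.1 ≠ m := fun e => k'.2 (hBm d e)
        have k3 := (q1 d k1 k2).2
        rw [k] at k3
        cases h4 : d.1.2.1 <;> rw [h4] at k3 <;> simp at k3
      · rintro (k | k)
        · exact q2 d (fun k' => k'.1 (by rw [k]; exact av))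
        · exact q2 d (fun k' => k'.2 (by rw [k]; exact bm)))
    (by
      intro Z z1 z2 z3 z4 d hd
      refine pconn h hN hm hm0 ht t (fun d => ∃ k, Z ⟨d, k⟩) ?_ ?_ ?_ d.1 ⟨d.2, hd⟩
      · rintro d' ⟨k, k'⟩
        refine ⟨k.1, k.2, fun e1 => ?_, fun e1 => ?_⟩
        · exact z1 (by rw [← hAv ⟨d', k⟩ e1]; exact k')
        · exact z2 (by rw [← hBm ⟨d', k⟩ e1]; exact k')
      · rintro d' ⟨k, k'⟩
        exact ⟨_, z3 _ k'⟩
      · rintro d1 d2 ⟨k, k'⟩ e1 e2 e3 e4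
        have k2 : 1 ≤ col f g ρ σ d2 ∧ (th d2 ↔ t) := ⟨e3, e4.trans k.2⟩
        refine ⟨k2, ?_⟩
        have k3 : (⟨d1, k⟩ : X).1.1 ≠ v := fun e1 => z1 (by rw [← hAv ⟨d1, k⟩ e1]; exact k')
        have k4 : (⟨d1, k⟩ : X).1.1 ≠ m := fun e1 => z2 (by rw [← hBm ⟨d1, k⟩ e1]; exact k')
        rw [q3 ⟨d1, k⟩ ⟨d2, k2⟩ k3 k4 e1 e2]
        exact z4 _ k')
  -- every label occurs
  have cov : ∀ n, n ≤ p B → ∃ x, p x = n ∧ (Odd n → ∃ z, p z + 1 = n ∧ x = e z) ∧
      (Even n → 0 < n → ∃ z, Odd (p z) ∧ p z + 1 = n ∧ x = q z) := by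
    intro n
    induction n with
    | zero =>
      intro _
      exact ⟨A, pa, fun k => absurd k (by decide), fun _ k => absurd k (lt_irrefl _)⟩
    | succ n ih =>
      intro hn
      obtain ⟨x, hx, _, _⟩ := ih (by omega)
      rcases Nat.even_or_odd n with he | ho
      · refine ⟨e x, ?_, fun _ => ⟨x, by omega, rfl⟩, fun k => ?_⟩
        · rw [pe x (by rw [hx]; exact he), hx]
        · exact absurd k (by rw [Nat.even_add_one]; simpa using he)
      · have hxB : x ≠ B := fun e => by rw [e] at hx; omega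
        refine ⟨q x, ?_, fun k => ?_, fun _ _ => ⟨x, by rw [hx]; exact ho, by omega, rfl⟩⟩
        · rw [po x (by rw [hx]; exact ho) hxB, hx]
        · exact absurd k (by rw [Nat.odd_add_one]; simpa using ho)
  have rnx : ∀ d : X, (Even (p d) ∧ p (e d) = p d + 1) ∨ (Odd (p d) ∧ p d = p (e d) + 1) := by
    intro d
    rcases Nat.even_or_odd (p d) with he | ho
    · exact Or.inl ⟨he, pe d he⟩
    · obtain ⟨x, hx, h1, _⟩ := cov (p d) (pb d)
      obtain ⟨z, hz, hz'⟩ := h1 ho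
      have hxd : x = d := pinj hx
      have : e d = z := by
        rw [← hxd, hz']
        exact Subtype.ext (nx_nx z.1)
      exact Or.inr ⟨ho, by rw [this, hz]⟩
  have rps : ∀ d : X, d.1.1 ≠ v → d.1.1 ≠ m →
      (Odd (p d) ∧ p (q d) = p d + 1) ∨ (Odd (p (q d)) ∧ p d = p (q d) + 1) := by
    intro d k1 k2
    rcases Nat.even_or_odd (p d) with he | ho
    · obtain ⟨x, hx, _, h2⟩ := cov (p d) (pb d)
      have hp0 : 0 < p d := by
        rcases Nat.eq_zero_or_pos (p d) with h0 | h0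
        · exfalso
          have : d = A := pinj (h0.trans pa.symm)
          rw [this] at k1
          exact k1 av
        · exact h0
      obtain ⟨z, hz1, hz2, hz3⟩ := h2 he hp0
      have hxd : x = d := pinj hx
      have : q d = z := by rw [← hxd, hz3, hqq]
      exact Or.inr ⟨by rw [this]; exact hz1, by rw [this, hz2]⟩
    · have hB : d ≠ B := fun k => k2 (by rw [k]; exact bm)
      exact Or.inl ⟨ho, po d ho hB⟩
  let P : Dt V → ℕ := fun d => if k : 1 ≤ col f g ρ σ d ∧ (th d ↔ t) then p ⟨d, k⟩ else 0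
  have hP : ∀ d (k : 1 ≤ col f g ρ σ d ∧ (th d ↔ t)), P d = p ⟨d, k⟩ := fun d k => dif_pos k
  refine ⟨P, ?_, ?_, ?_, ?_, ?_⟩
  · intro d d' k1 k2 k3 k4 k5
    rw [hP d ⟨k1, k3⟩, hP d' ⟨k2, k4⟩] at k5
    exact congrArg Subtype.val (pinj k5)
  · intro d k1 k2
    have k3 : 1 ≤ col f g ρ σ (nx f g d) ∧ (th (nx f g d) ↔ t) := (e ⟨d, k1, k2⟩).2
    rw [hP d ⟨k1, k2⟩, hP (nx f g d) k3]
    exact rnx ⟨d, k1, k2⟩
  · intro d d' k1 k2 k3 k4 k5 k6 k7 k8
    rw [hP d ⟨k5, k7⟩, hP d' ⟨k6, k8⟩, q3 ⟨d, k5, k7⟩ ⟨d', k6, k8⟩ k1 k2 k3 k4]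
    exact rps ⟨d, k5, k7⟩ k1 k2
  · intro d k1 k2 k3
    rw [hP d ⟨k2, k3⟩, hAv ⟨d, k2, k3⟩ k1, pa]
  · intro d d' k1 k2 k3 k4 k5
    rw [hP d ⟨k2, k4⟩, hP d' ⟨k3, k5⟩, hBm ⟨d, k2, k4⟩ k1]
    exact pb _

end

theorem t_REAL : Stmt_REAL := by
  classical
  intro V _ _ f g v m N ρ σ th h hN hm hm0 ht
  obtain ⟨p, a1, a2, a3, a4, a5⟩ := real_track h hN hm hm0 ht True
  obtain ⟨p', b1, b2, b3, b4, b5⟩ := real_track h hN hm hm0 ht False
  refine ⟨fun d => if th d then p d else p' d, ?_, ?_, ?_, ?_, ?_⟩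
  · intro d d' k1 k2 k3 k4
    by_cases k : th d
    · have k' := k3.mpr k
      simp only [k, k', if_true] at k4
      exact a1 d d' k1 k2 (iff_true_intro k) (iff_true_intro k') k4
    · have k' : ¬ th d' := fun e => k (k3.mp e)
      simp only [k, k', if_false] at k4
      exact b1 d d' k1 k2 (iff_false_intro k) (iff_false_intro k') k4
  · intro d k1
    have k3 := ht.tx d k1
    by_cases k : th d
    · have k' := k3.mpr k
      simp only [k, k', if_true]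
      exact a2 d k1 (iff_true_intro k)
    · have k' : ¬ th (nx f g d) := fun e => k (k3.mp e)
      simp only [k, k', if_false]
      exact b2 d k1 (iff_false_intro k)
  · intro d d' e1 e2 e3 e4 k1 k2 k3
    by_cases k : th d
    · have k' := k3.mpr k
      simp only [k, k', if_true]
      exact a3 d d' e1 e2 e3 e4 k1 k2 (iff_true_intro k) (iff_true_intro k')
    · have k' : ¬ th d' := fun e => k (k3.mp e)
      simp only [k, k', if_false]
      exact b3 d d' e1 e2 e3 e4 k1 k2 (iff_false_intro k) (iff_false_intro k')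
  · intro d e1 k1
    by_cases k : th d
    · simp only [k, if_true]
      exact a4 d e1 k1 (iff_true_intro k)
    · simp only [k, if_false]
      exact b4 d e1 k1 (iff_false_intro k)
  · intro d d' e1 k1 k2 k3
    by_cases k : th d
    · have k' := k3.mpr k
      simp only [k, k', if_true]
      exact a5 d d' e1 k1 k2 (iff_true_intro k) (iff_true_intro k')
    · have k' : ¬ th d' := fun e => k (k3.mp e)
      simp only [k, k', if_false]
      exact b5 d d' e1 k1 k2 (iff_false_intro k) (iff_false_intro k')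

end Pool.ROS
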