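import Pool.Agent.ROS.Kempe
import Pool.Agent.ROS.Real
import Pool.Agent.ROS.Gap
import Pool.Agent.ROS.Clr
import Pool.Agent.ROS.Mdl
import Pool.Agent.ROS.Badc
import Pool.Agent.GSP.SPrimePP
import Pool.Agent.GSP.ST
import Pool.Agent.GSP.Sum29

/-!
# Road S: all chains have at most three circuits; Q1 of MP_7b7176_co
-/

set_option autoImplicit false

namespace Pool.ROS

open Pool.GOD Pool.GOD.PG

theorem t3' (h6 : Stmt_FINC) : Stmt_T3 :=
  t3_of GS.t_SUM (GS.t_ST GS.t_Sprime) t_KMP t_REAL t_MDL (t_BADC t_DAR t_GAP)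
    (t_CLR t_DAR t_GAP) h6

theorem q1' (h6 : Stmt_FINC) : MGraph.Q1 := MGraph.q1_of_T3 (t3' h6)

end Pool.ROS
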