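import Pool.Agent.ROS.Stmts

/-!
# Road S: the signed permutation of a chain is not a direct sum
-/

set_option autoImplicit false
set_option linter.unusedSectionVars false

namespace Pool.ROS

open Pool.GOD.PG

section

variable {V : Type} [Fintype V] [DecidableEq V]

/-- The parity of a cut of a set of edges. -/
lemma cut_par (h : Equiv.Perm V) (X P : Finset V) :
    ((bd h X ∩ P).card : ZMod 2) =
      ((X.filter (fun y => ¬ (y ∈ P ↔ h y ∈ P))).card : ZMod 2) := by
  have e0 : ∀ Q : Finset V, (Q.card : ZMod 2) = ∑ x, if x ∈ Q then (1 : ZMod 2) else 0 := by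
    intro Q
    rw [Finset.sum_boole, Finset.filter_univ_mem]
  have e1 : ∀ x, (if x ∈ bd h X ∩ P then (1 : ZMod 2) else 0) =
      (if x ∈ X ∧ x ∈ P then 1 else 0) + (if h.symm x ∈ X ∧ x ∈ P then 1 else 0) := by
    intro x
    have a0 : x ∈ bd h X ∩ P ↔ ¬ (x ∈ X ↔ h.symm x ∈ X) ∧ x ∈ P := by
      rw [Finset.mem_inter, mem_bd]
    by_cases a1 : x ∈ X <;> by_cases a2 : h.symm x ∈ X <;> by_cases a3 : x ∈ P <;>
      simp [a0, a1, a2, a3, CharTwo.add_self_eq_zero]
  have e2 : ∀ y, (if y ∈ X.filter (fun y => ¬ (y ∈ P ↔ h y ∈ P)) then (1 : ZMod 2) else 0) =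
      (if y ∈ X ∧ y ∈ P then 1 else 0) + (if y ∈ X ∧ h y ∈ P then 1 else 0) := by
    intro y
    have a0 : y ∈ X.filter (fun y => ¬ (y ∈ P ↔ h y ∈ P)) ↔ y ∈ X ∧ ¬ (y ∈ P ↔ h y ∈ P) := by
      rw [Finset.mem_filter]
    by_cases a1 : y ∈ X <;> by_cases a2 : y ∈ P <;> by_cases a3 : h y ∈ P <;>
      simp [a1, a2, a3, CharTwo.add_self_eq_zero]
  rw [e0, e0, Finset.sum_congr rfl (fun x _ => e1 x), Finset.sum_congr rfl (fun y _ => e2 y),
    Finset.sum_add_distrib, Finset.sum_add_distrib]
  congr 1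
  rw [← Equiv.sum_comp h (fun x => if h.symm x ∈ X ∧ x ∈ P then (1 : ZMod 2) else 0)]
  simp

variable {f g : Equiv.Perm V} {v : V} {N : ℕ} {ρ σ : V → ℕ}

/-- A vertex set of letters: if a dart of colour `j` crosses, another one does. -/
lemma cross_pair (h : Chn f g v N ρ σ) (X : V → Prop) {d : Dt V} (h1 : X d.1)
    (h2 : ¬ X (nx f g d).1) : ∃ d' : Dt V, d' ≠ d ∧ X d'.1 ∧ ¬ X (nx f g d').1 ∧
      col f g ρ σ d' = col f g ρ σ d := by
  classical
  set j := col f g ρ σ d with hj
  set P : Finset V := Finset.univ.filter X with hP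
  set F := (Finset.univ.filter (fun x => ρ x = j)).filter (fun y => ¬ (y ∈ P ↔ f y ∈ P)) with hF
  set G := (Finset.univ.filter (fun x => σ x = j)).filter (fun y => ¬ (y ∈ P ↔ g y ∈ P)) with hG
  have hev : Even (F.disjSum G).card := by
    have e1 := cut_par f (Finset.univ.filter (fun x => ρ x = j)) P
    have e2 := cut_par g (Finset.univ.filter (fun x => σ x = j)) P
    have e3 : bd f (Finset.univ.filter (fun x => ρ x = j)) =
        bd g (Finset.univ.filter (fun x => σ x = j)) := by
      ext x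
      have e4 := Finset.ext_iff.1 (h.cov.bd j) x
      rw [mem_bd, mem_bd] at e4 ⊢
      simpa only [Finset.mem_filter, Finset.mem_univ, true_and] using e4
    rw [e3, e2] at e1
    rw [Finset.card_disjSum, ← ZMod.natCast_eq_zero_iff_even, Nat.cast_add, ← e1]
    exact CharTwo.add_self_eq_zero _
  -- the inner dart of a crossing edge
  let ph : V ⊕ V → Dt V := Sum.elim (fun x => if X x then (x, false, true) else (f x, false, false))
    (fun x => if X x then (x, true, true) else (g x, true, false))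
  have hmem : ∀ u ∈ F.disjSum G, X (ph u).1 ∧ ¬ X (nx f g (ph u)).1 ∧
      col f g ρ σ (ph u) = j := by
    intro u hu
    rcases Finset.mem_disjSum.1 hu with ⟨x, hx, rfl⟩ | ⟨x, hx, rfl⟩
    · simp only [hF, hP, Finset.mem_filter, Finset.mem_univ, true_and] at hx
      by_cases hX : X x
      · have e1 : ph (Sum.inl x) = (x, false, true) := by simp [ph, hX]
        rw [e1]
        exact ⟨hX, fun e => hx.2 (iff_of_true hX e), hx.1⟩
      · have e1 : ph (Sum.inl x) = (f x, false, false) := by simp [ph, hX]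
        rw [e1]
        refine ⟨?_, ?_, ?_⟩
        · by_contra e
          exact hx.2 (iff_of_false hX e)
        · simpa [nx] using hX
        · simpa [col] using hx.1
    · simp only [hG, hP, Finset.mem_filter, Finset.mem_univ, true_and] at hx
      by_cases hX : X x
      · have e1 : ph (Sum.inr x) = (x, true, true) := by simp [ph, hX]
        rw [e1]
        exact ⟨hX, fun e => hx.2 (iff_of_true hX e), hx.1⟩
      · have e1 : ph (Sum.inr x) = (g x, true, false) := by simp [ph, hX]
        rw [e1]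
        refine ⟨?_, ?_, ?_⟩
        · by_contra e
          exact hx.2 (iff_of_false hX e)
        · simpa [nx] using hX
        · simpa [col] using hx.1
  have hinj : Function.Injective ph := by
    rintro (x | x) (y | y) hxy
    · by_cases hx : X x <;> by_cases hy : X y <;> simp [ph, hx, hy] at hxy <;> simp [hxy]
    · by_cases hx : X x <;> by_cases hy : X y <;> simp [ph, hx, hy] at hxy
    · by_cases hx : X x <;> by_cases hy : X y <;> simp [ph, hx, hy] at hxy
    · by_cases hx : X x <;> by_cases hy : X y <;> simp [ph, hx, hy] at hxy <;> simp [hxy]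
  have hne : (F.disjSum G).Nonempty := by
    obtain ⟨x, s, o⟩ := d
    cases s <;> cases o
    · refine ⟨Sum.inl (f.symm x), Finset.mem_disjSum.2 (Or.inl ⟨_, ?_, rfl⟩)⟩
      simp only [hF, hP, Finset.mem_filter, Finset.mem_univ, true_and, Equiv.apply_symm_apply]
      exact ⟨rfl, fun e => h2 (e.2 h1)⟩
    · refine ⟨Sum.inl x, Finset.mem_disjSum.2 (Or.inl ⟨_, ?_, rfl⟩)⟩
      simp only [hF, hP, Finset.mem_filter, Finset.mem_univ, true_and]
      exact ⟨rfl, fun e => h2 (e.1 h1)⟩
    · refine ⟨Sum.inr (g.symm x), Finset.mem_disjSum.2 (Or.inr ⟨_, ?_, rfl⟩)⟩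
      simp only [hG, hP, Finset.mem_filter, Finset.mem_univ, true_and, Equiv.apply_symm_apply]
      exact ⟨rfl, fun e => h2 (e.2 h1)⟩
    · refine ⟨Sum.inr x, Finset.mem_disjSum.2 (Or.inr ⟨_, ?_, rfl⟩)⟩
      simp only [hG, hP, Finset.mem_filter, Finset.mem_univ, true_and]
      exact ⟨rfl, fun e => h2 (e.1 h1)⟩
  have h3 : 1 < (F.disjSum G).card := by
    have := hne.card_pos
    obtain ⟨r, hr⟩ := hev
    omega
  obtain ⟨u, hu, u', hu', hne'⟩ := Finset.one_lt_card.1 h3
  by_cases h4 : ph u = d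
  · refine ⟨ph u', fun e => hne' (hinj (by rw [h4, e])), ?_⟩
    exact hmem u' hu'
  · exact ⟨ph u, h4, hmem u hu⟩

/-- A class which does not cross is on one side. -/
lemma side_const (h : Chn f g v N ρ σ) (X : V → Prop) {j : ℕ} (hj : 1 ≤ j)
    (hc : ∀ d, col f g ρ σ d = j → (X d.1 ↔ X (nx f g d).1)) (d d' : Dt V)
    (hd : col f g ρ σ d = j) (hd' : col f g ρ σ d' = j) : X d.1 ↔ X d'.1 := by
  have nF : ∀ x : V, ρ (f.symm x) = j → (X (f.symm x) ↔ X x) := by
    intro x hx
    exact (hc (x, false, false) hx).symm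
  have nG : ∀ x : V, σ (g.symm x) = j → (X (g.symm x) ↔ X x) := by
    intro x hx
    exact (hc (x, true, false) hx).symm
  obtain ⟨F1, F2, F3⟩ := h.fine (fun x => ρ x = j ∧ X x) (fun x => σ x = j ∧ X x) (by
      have e1 : ¬ ρ (f.symm v) = j := by rw [h.cov.vf, h.r0]; omega
      have e2 : ¬ ρ v = j := by rw [h.r0]; omega
      simp [e1, e2]) (by
      by_cases e1 : σ v = j
      · have e2 : σ (g.symm v) = j := by rw [h.cov.vg, e1]
        simp only [e1, e2, true_and]
        exact nG v e2
      · have e2 : ¬ σ (g.symm v) = j := by rw [h.cov.vg]; exact e1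
        simp [e1, e2]) (by
      intro x hx
      refine ⟨fun e => ?_, fun e => ?_, fun e => ?_, fun e => ?_⟩
      · by_cases e1 : σ x = j
        · simp only [e, e1, true_and]
          exact nF x (e.trans e1)
        · simp only [e, e1, false_and]
      · simp only [e]
      · by_cases e1 : σ (g.symm x) = j
        · simp only [e, e1, true_and]
          rw [nF x (e.trans e1), nG x e1]
        · simp only [e, e1, false_and]
      · by_cases e1 : σ (g.symm x) = j
        · simp only [e, e1, true_and]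
          exact (nG x e1).symm
        · simp only [e, e1, false_and])
  -- every dart is compared with an edge
  have key : ∀ d : Dt V, col f g ρ σ d = j →
      (∃ x, ρ x = j ∧ (X x ↔ X d.1)) ∨ (∃ x, σ x = j ∧ (X x ↔ X d.1)) := by
    rintro ⟨x, s, o⟩ hx
    cases s <;> cases o
    · exact Or.inl ⟨f.symm x, hx, nF x hx⟩
    · exact Or.inl ⟨x, hx, Iff.rfl⟩
    · exact Or.inr ⟨g.symm x, hx, nG x hx⟩
    · exact Or.inr ⟨x, hx, Iff.rfl⟩
  rcases key d hd with ⟨x, a1, a2⟩ | ⟨x, a1, a2⟩ <;>
    rcases key d' hd' with ⟨y, b1, b2⟩ | ⟨y, b1, b2⟩ <;> rw [← a2, ← b2]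
  · simpa [a1, b1] using F1 x y (a1.trans b1.symm)
  · simpa [a1, b1] using F2 x y (a1.trans b1.symm)
  · simpa [a1, b1] using (F2 y x (b1.trans a1.symm)).symm
  · simpa [a1, b1] using F3 x y (a1.trans b1.symm)

end

/-- FINC -/
theorem t_FINC : Stmt_FINC := by
  classical
  intro V _ _ f g v m N ρ σ th p sp S D S₁ S₂ hS₁ hS₂ hS hlt
  have hch := D.ch
  let tr : Dt V → Bool := fun d => decide (¬ th d)
  have htr : ∀ d, th d ↔ tr d = false := by
    intro d
    simp [tr]
  have trE : ∀ {d d' : Dt V}, (th d' ↔ th d) → tr d' = tr d := by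
    intro d d' e
    simp [tr, e]
  have hmax : ∀ i, ∃ a ∈ S₁, ∀ x ∈ S₁, sp.k i x ≤ sp.k i a := fun i =>
    S₁.exists_max_image (sp.k i) hS₁
  choose a ha ha' using hmax
  have hS1 : ∀ x ∈ S₁, x ∈ S := fun x hx => by rw [hS]; exact Finset.mem_union_left _ hx
  have hS2 : ∀ x ∈ S₂, x ∈ S := fun x hx => by rw [hS]; exact Finset.mem_union_right _ hx
  have k1 : ∀ d : Dt V, d.1 ∈ S₁ → (p d : ℤ) ≤ 2 * sp.k (tr d) (a (tr d)) := by
    intro d hd
    have e1 := D.md.k (tr d) d (hS1 _ hd) (htr d)
    have e2 := ha' (tr d) d.1 hd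
    omega
  have k2 : ∀ d : Dt V, d.1 ∈ S₂ → 2 * sp.k (tr d) (a (tr d)) < (p d : ℤ) := by
    intro d hd
    have e1 := D.md.k (tr d) d (hS2 _ hd) (htr d)
    have e2 := hlt (a (tr d)) (ha _) d.1 hd (tr d)
    omega
  have k0 : ∀ i, 0 ≤ sp.k i (a i) := by
    intro i
    obtain ⟨e1, e2⟩ := (D.md.mem (a i)).1 (hS1 _ (ha i))
    obtain ⟨d, q1, q2, q3, q4, q5, q6⟩ := D.tr.selK e1 e2 false (i = false)
    have e3 := D.md.k i d (by rw [q1]; exact hS1 _ (ha i)) q5
    rw [q1] at e3
    omega
  have km : ∀ d : Dt V, d.1 = m → 1 ≤ col f g ρ σ d →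
      2 * sp.k (tr d) (a (tr d)) < (p d : ℤ) := by
    intro d hd hc
    obtain ⟨y, hy⟩ := hS₂
    obtain ⟨e1, e2⟩ := (D.md.mem y).1 (hS2 _ hy)
    obtain ⟨d', q1, q2, q3, q4, q5, q6⟩ := D.tr.selK e1 e2 false (th d)
    have e3 := D.rl.pm d d' hd hc q3 q5
    have e4 := k2 d' (by rw [q1]; exact hy)
    rw [trE q5] at e4
    omega
  -- the inner letters
  let X : V → Prop := fun x => ∃ d : Dt V, d.1 = x ∧ 1 ≤ col f g ρ σ d ∧
    (p d : ℤ) ≤ 2 * sp.k (tr d) (a (tr d))
  have hsame : ∀ d d' : Dt V, d'.1 = d.1 → 1 ≤ col f g ρ σ d → 1 ≤ col f g ρ σ d' →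
      (p d : ℤ) ≤ 2 * sp.k (tr d) (a (tr d)) → (p d' : ℤ) ≤ 2 * sp.k (tr d') (a (tr d')) := by
    intro d d' he hd hd' hp
    by_cases hv : d.1 = v
    · have e1 := D.rl.pv d' (he.trans hv) hd'
      have e2 := k0 (tr d')
      omega
    by_cases hm : d.1 = m
    · have := km d hm hd
      omega
    rcases dich hch hv with hK | h0
    · have hdS : d.1 ∈ S := (D.md.mem _).2 ⟨hv, hK⟩
      rw [hS] at hdS
      rcases Finset.mem_union.1 hdS with e1 | e1
      · exact k1 d' (by rw [he]; exact e1)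
      · have := k2 d e1
        omega
    · obtain ⟨dF, a1, a2, a3, a4⟩ := h0 d.2.1
      have edF : dF = d := by
        rcases eq_or_fl (d := dF) (d' := d) a1.symm a2.symm with e | e
        · exact e.symm
        · exfalso
          rw [e, a4] at hd
          omega
      rw [edF] at a3 a4
      by_cases hs : d'.2.1 = d.2.1
      · rcases eq_or_fl he hs with e | e
        · rwa [e]
        · exfalso
          rw [e, a4] at hd'
          omega
      · have hs' : d'.2.1 = !d.2.1 := by
          cases h2 : d'.2.1 <;> cases h3 : d.2.1 <;> simp_all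
        have e1 := D.tr.tz d d' hv hm he hs' hd hd' a4
        have e2 := D.rl.ps d d' hv hm he hs' hd hd' e1
        rw [trE e1]
        rcases e2 with ⟨⟨r, hr⟩, e2⟩ | ⟨⟨r, hr⟩, e2⟩ <;> omega
  have X_iff : ∀ d : Dt V, 1 ≤ col f g ρ σ d →
      (X d.1 ↔ (p d : ℤ) ≤ 2 * sp.k (tr d) (a (tr d))) := by
    intro d hd
    constructor
    · rintro ⟨d', e1, e2, e3⟩
      exact hsame d' d e1.symm e2 hd e3
    · intro e
      exact ⟨d, rfl, hd, e⟩
  have hXm : ¬ X m := by
    rintro ⟨d, e1, e2, e3⟩
    have := km d e1 e2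
    omega
  have hXv : X v := by
    refine ⟨(v, true, true), rfl, ?_, ?_⟩
    · rw [col_v2 hch]
      exact hch.pos
    · rw [D.rl.pv (v, true, true) rfl (by rw [col_v2 hch]; exact hch.pos)]
      have := k0 (tr (v, true, true))
      push_cast
      omega
  have hX2 : ∀ x ∈ S₂, ¬ X x := by
    rintro x hx ⟨d, e1, e2, e3⟩
    have := k2 d (by rw [e1]; exact hx)
    omega
  have hX1 : ∀ x ∈ S₁, X x := by
    intro x hx
    obtain ⟨e1, e2⟩ := (D.md.mem x).1 (hS1 _ hx)
    exact ⟨(x, false, false), rfl, e2 false false, k1 _ hx⟩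
  -- crossing darts
  have hcr : ∀ d : Dt V, 1 ≤ col f g ρ σ d → X d.1 → ¬ X (nx f g d).1 →
      (p d : ℤ) = 2 * sp.k (tr d) (a (tr d)) := by
    intro d hd h1 h2
    rw [X_iff d hd] at h1
    rw [X_iff (nx f g d) (by rwa [col_nx]), trE (D.tr.tx d hd)] at h2
    rcases D.rl.nx d hd with ⟨_, e2⟩ | ⟨_, e2⟩ <;> omega
  have huni : ∀ d d' : Dt V, 1 ≤ col f g ρ σ d → X d.1 → ¬ X (nx f g d).1 →
      1 ≤ col f g ρ σ d' → X d'.1 → ¬ X (nx f g d').1 → (th d' ↔ th d) → d' = d := by
    intro d d' a1 a2 a3 b1 b2 b3 hth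
    refine D.rl.inj d d' a1 b1 hth ?_
    have e1 := hcr d a1 a2 a3
    have e2 := hcr d' b1 b2 b3
    rw [trE hth] at e2
    omega
  have hcol : ∀ d d' : Dt V, 1 ≤ col f g ρ σ d → X d.1 → ¬ X (nx f g d).1 →
      1 ≤ col f g ρ σ d' → X d'.1 → ¬ X (nx f g d').1 →
      col f g ρ σ d' = col f g ρ σ d := by
    intro d d' a1 a2 a3 b1 b2 b3
    obtain ⟨e, c1, c2, c3, c4⟩ := cross_pair hch X a2 a3
    have c5 : ¬ (th e ↔ th d) := fun q => c1 (huni d e a1 a2 a3 (by rw [c4]; exact a1) c2 c3 q)
    by_cases hth : th d' ↔ th d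
    · rw [huni d d' a1 a2 a3 b1 b2 b3 hth]
    · have hth' : th d' ↔ th e := by tauto
      rw [huni e d' (by rw [c4]; exact a1) c2 c3 b1 b2 b3 hth', c4]
  have hcross : ∀ d : Dt V, ¬ (X d.1 ↔ X (nx f g d).1) → ∃ d' : Dt V, X d'.1 ∧
      ¬ X (nx f g d').1 ∧ col f g ρ σ d' = col f g ρ σ d := by
    intro d hd
    by_cases h1 : X d.1
    · exact ⟨d, h1, fun e => hd (iff_of_true h1 e), rfl⟩
    · refine ⟨nx f g d, ?_, ?_, col_nx d⟩
      · by_contra e
        exact hd (iff_of_false h1 e)
      · rw [nx_nx]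
        exact h1
  by_cases hone : ∃ d : Dt V, col f g ρ σ d = 1 ∧ X d.1 ∧ ¬ X (nx f g d).1
  · -- only the colour `1` crosses
    obtain ⟨d₁, c1, c2, c3⟩ := hone
    have hno : ∀ j, 2 ≤ j → ∀ d, col f g ρ σ d = j → (X d.1 ↔ X (nx f g d).1) := by
      intro j hj d hd
      by_contra hc
      obtain ⟨d', e1, e2, e3⟩ := hcross d hc
      have := hcol d₁ d' (by omega) c2 c3 (by omega) e1 e2
      omega
    have hconst : ∀ j, 2 ≤ j → ∀ d d' : Dt V, col f g ρ σ d = j → col f g ρ σ d' = j →
        (X d.1 ↔ X d'.1) := fun j hj d d' hd hd' =>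
      side_const hch X (by omega) (hno j hj) d d' hd hd'
    -- the largest colour outside
    obtain ⟨y, hy⟩ := hS₂
    obtain ⟨y1, y2⟩ := (D.md.mem y).1 (hS2 _ hy)
    have hne : ((Finset.range (N + 1)).filter (fun j => 2 ≤ j ∧
        ∃ d : Dt V, col f g ρ σ d = j ∧ ¬ X d.1)).Nonempty := by
      have e1 := hch.step y y1
      have e2 := y2 false false
      have e3 := y2 false true
      change 1 ≤ ρ (f.symm y) at e2
      change 1 ≤ ρ y at e3
      rcases e1 with e1 | e1
      · refine ⟨ρ y, ?_⟩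
        rw [Finset.mem_filter, Finset.mem_range]
        exact ⟨by have := hch.rle y; omega, by omega, (y, false, true), rfl, hX2 y hy⟩
      · refine ⟨ρ (f.symm y), ?_⟩
        rw [Finset.mem_filter, Finset.mem_range]
        exact ⟨by have := hch.rle (f.symm y); omega, by omega, (y, false, false), rfl, hX2 y hy⟩
    obtain ⟨j, hj, hjmax⟩ := Finset.exists_max_image _ id hne
    rw [Finset.mem_filter, Finset.mem_range] at hj
    obtain ⟨j1, j2, dj, j3, j4⟩ := hj
    have hjN : j ≠ N := by
      intro e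
      refine j4 ((hconst j j2 dj (v, true, true) j3 ?_).2 hXv)
      rw [col_v2 hch, e]
    -- a letter with the colours `j` and `j + 1`
    obtain ⟨x', hx1, hx2⟩ : ∃ x', ρ x' ≤ j ∧ j < ρ (f x') := by
      by_contra hcon
      push Not at hcon
      have e1 := D.cf (Finset.univ.filter (fun x => ρ x ≤ j)) ⟨v, by simp [hch.r0]⟩ (by
        intro x hx
        simp only [Finset.mem_filter, Finset.mem_univ, true_and] at hx ⊢
        exact hcon x hx)
      have hc2 : 2 ≤ Fintype.card V := by
        have : Nontrivial V := ⟨m, v, D.hm⟩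
        exact Fintype.one_lt_card
      obtain ⟨z, hz⟩ := hch.cov.used D.cg hc2 v
      have e2 : z ∈ Finset.univ.filter (fun x => ρ x ≤ j) := by
        rw [e1]
        exact Finset.mem_univ _
      rw [Finset.mem_filter, hz, hch.sN] at e2
      have := e2.2
      omega
    have hxv : f x' ≠ v := by
      intro e
      rw [e, hch.r0] at hx2
      omega
    have e1 := hch.step (f x') hxv
    rw [Equiv.symm_apply_apply] at e1
    have e2 : ρ x' = j := by omega
    have e3 : ρ (f x') = j + 1 := by omega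
    have hXx : X (f x') := by
      by_contra hcon
      have e4 : j + 1 ∈ (Finset.range (N + 1)).filter (fun j => 2 ≤ j ∧
          ∃ d : Dt V, col f g ρ σ d = j ∧ ¬ X d.1) := by
        rw [Finset.mem_filter, Finset.mem_range]
        exact ⟨by have := hch.rle (f x'); omega, by omega, (f x', false, true), e3, hcon⟩
      have := hjmax (j + 1) e4
      simp only [id] at this
      omega
    refine j4 ((hconst j j2 dj (f x', false, false) j3 ?_).2 hXx)
    show ρ (f.symm (f x')) = j
    rw [Equiv.symm_apply_apply, e2]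
  · -- the colour `1` does not cross
    push Not at hone
    have hno : ∀ d, col f g ρ σ d = 1 → (X d.1 ↔ X (nx f g d).1) := by
      intro d hd
      by_contra hc
      obtain ⟨d', e1, e2, e3⟩ := hcross d hc
      exact e2 (hone d' (e3.trans hd) e1)
    have hX0 : ∀ d : Dt V, col f g ρ σ d = 1 → ¬ X d.1 := by
      intro d hd hX
      obtain ⟨dm, q1, q2, q3, q4⟩ := D.m0 false
      refine hXm ?_
      rw [← q1]
      exact (side_const hch X le_rfl hno d dm hd q3).1 hX
    have hXS : ∀ x, X x → x ≠ v → x ∈ S₁ := by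
      intro x hx hxv
      rcases dich hch hxv with hK | h0
      · have hdS : x ∈ S := (D.md.mem _).2 ⟨hxv, hK⟩
        rw [hS] at hdS
        rcases Finset.mem_union.1 hdS with e1 | e1
        · exact e1
        · exact absurd hx (hX2 x e1)
      · obtain ⟨d, q1, q2, q3, q4⟩ := h0 false
        exact absurd (by rw [q1]; exact hx) (hX0 d q3)
    have hv1 : v ∉ S₁ := fun e => ((D.md.mem v).1 (hS1 _ e)).1 rfl
    -- the edge out of `S₁`
    obtain ⟨x, hx, hfx⟩ : ∃ x ∈ S₁, f x ∉ S₁ := by
      by_contra hcon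
      push Not at hcon
      have := D.cf S₁ hS₁ hcon
      exact hv1 (by rw [this]; exact Finset.mem_univ _)
    obtain ⟨y, hy, hfy⟩ : ∃ y, y ∉ S₁ ∧ f y ∈ S₁ := by
      by_contra hcon
      push Not at hcon
      have := D.cf S₁ᶜ ⟨v, by simpa using hv1⟩ (by
        intro y hy
        rw [Finset.mem_compl] at hy ⊢
        exact hcon y hy)
      obtain ⟨z, hz⟩ := hS₁
      have e : z ∈ S₁ᶜ := by
        rw [this]
        exact Finset.mem_univ _
      exact (Finset.mem_compl.1 e) hz
    have hKx := ((D.md.mem x).1 (hS1 _ hx)).2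
    have hKy := ((D.md.mem (f y)).1 (hS1 _ hfy)).2
    have b1 : 1 ≤ col f g ρ σ (x, false, true) := hKx false true
    have b2 : ¬ X (nx f g (x, false, true)).1 := by
      intro e
      change X (f x) at e
      by_cases e1 : f x = v
      · have e2 : ρ x = 0 := by
          have := hch.cov.vf
          rw [← e1, Equiv.symm_apply_apply] at this
          rw [this, e1, hch.r0]
        change 1 ≤ ρ x at b1
        omega
      · exact hfx (hXS _ e e1)
    have b3 : 1 ≤ col f g ρ σ (f y, false, false) := hKy false false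
    have b4 : ¬ X (nx f g (f y, false, false)).1 := by
      intro e
      change X (f.symm (f y)) at e
      rw [Equiv.symm_apply_apply] at e
      by_cases e1 : y = v
      · change 1 ≤ ρ (f.symm (f y)) at b3
        rw [Equiv.symm_apply_apply, e1, hch.r0] at b3
        omega
      · exact hy (hXS _ e e1)
    have b5 : ¬ (th (f y, false, false) ↔ th (x, false, true)) := by
      intro e
      have := huni (x, false, true) (f y, false, false) b1 (hX1 x hx) b2 b3 (hX1 _ hfy) b4 e
      simp at this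
    -- an edge of the second circuit
    obtain ⟨z, hz, hgz⟩ : ∃ z, X z ∧ ¬ X (g z) := by
      by_contra hcon
      push Not at hcon
      have := D.cg (Finset.univ.filter X) ⟨v, by simpa using hXv⟩ (by
        intro z hz
        simp only [Finset.mem_filter, Finset.mem_univ, true_and] at hz ⊢
        exact hcon z hz)
      have e : m ∈ Finset.univ.filter X := by
        rw [this]
        exact Finset.mem_univ _
      exact hXm (Finset.mem_filter.1 e).2
    have c1 : 1 ≤ col f g ρ σ (z, true, true) := by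
      by_cases e1 : z = v
      · rw [e1, col_v2 hch]
        exact hch.pos
      · exact ((D.md.mem z).1 (hS1 _ (hXS z hz e1))).2 true true
    have c2 : ¬ X (nx f g (z, true, true)).1 := hgz
    by_cases hth : th (z, true, true) ↔ th (x, false, true)
    · have := huni (x, false, true) (z, true, true) b1 (hX1 x hx) b2 c1 hz c2 hth
      simp at this
    · have hth' : th (z, true, true) ↔ th (f y, false, false) := by tauto
      have := huni (f y, false, false) (z, true, true) b3 (hX1 _ hfy) b4 c1 hz c2 hth'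
      simp at this

end Pool.ROS
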