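import Pool.Agent.ROS.Stmts

/-!
# Road S: the signed permutation of a chain is not a direct sum (FINC)
-/

set_option autoImplicit false
set_option linter.unusedSectionVars false

namespace Pool.ROS

open Pool.GOD.PG

namespace FC

lemma even_card_invol {X : Type*} (s : Finset X) (e : X → X) (h1 : ∀ d ∈ s, e d ∈ s)
    (h2 : ∀ d ∈ s, e (e d) = d) (h3 : ∀ d ∈ s, e d ≠ d) : Even s.card := by
  have h4 : ∑ _x ∈ s, (1 : ZMod 2) = 0 :=
    Finset.sum_involution (fun d _ => e d) (fun _ _ => by decide) (fun d hd _ => h3 d hd)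
      (fun d hd => h1 d hd) (fun d hd => h2 d hd)
  rw [Finset.sum_const, nsmul_eq_mul, mul_one] at h4
  exact (ZMod.natCast_eq_zero_iff_even).1 h4

section

variable {V : Type} [Fintype V] [DecidableEq V] {f g : Equiv.Perm V} {v m : V} {N : ℕ}
  {ρ σ : V → ℕ} {th : Dt V → Prop} {p : Dt V → ℕ} {sp : GS.SP V} {S : Finset V}

/-- What is used of the lower part of the two tracks. -/
structure Lo (f g : Equiv.Perm V) (v m : V) (ρ σ : V → ℕ) (S₁ S₂ : Finset V)
    (th L : Dt V → Prop) : Prop where
  c1 : ∀ d, L d → 1 ≤ col f g ρ σ d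
  eq : ∀ d d' : Dt V, d.1 ≠ v → d'.1 = d.1 → 1 ≤ col f g ρ σ d → 1 ≤ col f g ρ σ d' → (L d' ↔ L d)
  v2 : ∀ o, L (v, true, o)
  m1 : ∀ d, d.1 = m → ¬ L d
  s1 : ∀ d, d.1 ∈ S₁ → L d
  s2 : ∀ d, d.1 ∈ S₂ → ¬ L d
  un : ∀ d d', L d → ¬ L (nx f g d) → L d' → ¬ L (nx f g d') → (th d' ↔ th d) → d' = d
  ex : ∀ t : Prop, ∃ d, L d ∧ ¬ L (nx f g d) ∧ (th d ↔ t)

lemma bne_not : ∀ a b : Bool, a ≠ b → a = !b := by decide

/-- a dart of every track at a letter of `S` -/
lemma exd (ht : Trk f g v m ρ σ th) {x : V} (hx : x ≠ v)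
    (hK : IsK f g ρ σ x) (i : Bool) (s : Bool) :
    ∃ d : Dt V, d.1 = x ∧ d.2.1 = s ∧ (th d ↔ i = false) := by
  obtain ⟨d, h1, h2, -, -, h3, -⟩ := ht.selK hx hK s (i = false)
  exact ⟨d, h1, h2, h3⟩

theorem exists_lo (hD : Dat f g v m N ρ σ th p sp S) {S₁ S₂ : Finset V} (n1 : S₁.Nonempty)
    (n2 : S₂.Nonempty) (hS : S = S₁ ∪ S₂)
    (hlt : ∀ x ∈ S₁, ∀ y ∈ S₂, ∀ i, sp.k i x < sp.k i y) :
    ∃ L, Lo f g v m ρ σ S₁ S₂ th L := by
  classical
  have h := hD.ch
  have ht := hD.tr
  have hr := hD.rl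
  have hM := hD.md
  have e1 : ∀ x ∈ S₁, x ∈ S := fun x hx => by rw [hS]; exact Finset.mem_union_left _ hx
  have e2 : ∀ x ∈ S₂, x ∈ S := fun x hx => by rw [hS]; exact Finset.mem_union_right _ hx
  have eX : ∀ i, ∃ x ∈ S₁, ∀ x' ∈ S₁, sp.k i x' ≤ sp.k i x := fun i =>
    Finset.exists_max_image S₁ (sp.k i) n1
  choose X hX hX2 using eX
  obtain ⟨K, hK⟩ : ∃ K : Bool → ℤ, ∀ i, K i = sp.k i (X i) := ⟨_, fun i => rfl⟩
  have idx : ∀ d : Dt V, ∃ i, (th d ↔ i = false) := by
    intro d
    by_cases k : th d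
    · exact ⟨false, by simp [k]⟩
    · exact ⟨true, by simp [k]⟩
  have idu : ∀ (d : Dt V) (i j : Bool), (th d ↔ i = false) → (th d ↔ j = false) → i = j := by
    intro d i j k1 k2
    cases i <;> cases j <;> simp_all
  have colK : ∀ x ∈ S, ∀ d : Dt V, d.1 = x → 1 ≤ col f g ρ σ d := by
    rintro x hx ⟨y, s, o⟩ rfl
    exact ((hM.mem _).1 hx).2 s o
  have K0 : ∀ i, 0 ≤ K i := by
    intro i
    obtain ⟨q1, q2⟩ := (hM.mem _).1 (e1 _ (hX i))
    obtain ⟨d, k1, -, k3⟩ := exd ht q1 q2 i false
    have := hM.k i d (by rw [k1]; exact e1 _ (hX i)) k3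
    rw [k1] at this
    rw [hK, this]
    positivity
  refine ⟨fun d => 1 ≤ col f g ρ σ d ∧ ∀ i, (th d ↔ i = false) → (p d : ℤ) ≤ 2 * K i, ?_⟩
  -- the letters of `S`
  have s1 : ∀ d : Dt V, d.1 ∈ S₁ → (1 ≤ col f g ρ σ d ∧
      ∀ i, (th d ↔ i = false) → (p d : ℤ) ≤ 2 * K i) := by
    intro d hd
    refine ⟨colK _ (e1 _ hd) d rfl, fun i hi => ?_⟩
    have k1 := hM.k i d (e1 _ hd) hi
    have k2 := hX2 i _ hd
    rw [k1, ← hK] at k2
    omega
  have s2 : ∀ d : Dt V, d.1 ∈ S₂ → ∀ i, (th d ↔ i = false) → 2 * K i < (p d : ℤ) := by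
    intro d hd i hi
    have k1 := hM.k i d (e2 _ hd) hi
    have k2 := hlt _ (hX i) _ hd i
    rw [k1, ← hK] at k2
    omega
  have m1 : ∀ d : Dt V, d.1 = m → 1 ≤ col f g ρ σ d → ∀ i, (th d ↔ i = false) →
      2 * K i < (p d : ℤ) := by
    intro d hd hc i hi
    obtain ⟨y, hy⟩ := n2
    obtain ⟨q1, q2⟩ := (hM.mem _).1 (e2 _ hy)
    obtain ⟨d', k1, -, k3⟩ := exd ht q1 q2 i false
    have k4 := s2 d' (by rw [k1]; exact hy) i k3
    have k5 := hr.pm d d' hd hc (colK _ (e2 _ hy) d' k1) (by rw [k3, hi])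
    omega
  have cr : ∀ d, (1 ≤ col f g ρ σ d ∧ ∀ i, (th d ↔ i = false) → (p d : ℤ) ≤ 2 * K i) →
      ¬ (1 ≤ col f g ρ σ (nx f g d) ∧ ∀ i, (th (nx f g d) ↔ i = false) →
        (p (nx f g d) : ℤ) ≤ 2 * K i) →
      ∀ i, (th d ↔ i = false) → (p d : ℤ) = 2 * K i := by
    intro d k1 k2 i hi
    have k3 := k1.2 i hi
    rcases hr.nx d k1.1 with ⟨-, k4⟩ | ⟨-, k4⟩
    · by_contra k5
      apply k2
      refine ⟨by rw [col_nx]; exact k1.1, fun j hj => ?_⟩
      rw [ht.tx d k1.1] at hj
      obtain rfl := idu d i j hi hj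
      omega
    · exfalso
      apply k2
      refine ⟨by rw [col_nx]; exact k1.1, fun j hj => ?_⟩
      rw [ht.tx d k1.1] at hj
      obtain rfl := idu d i j hi hj
      omega
  constructor
  · exact fun d hd => hd.1
  · intro d d' k1 k2 k3 k4
    by_cases k5 : d.1 ∈ S
    · rw [hS, Finset.mem_union] at k5
      rcases k5 with k5 | k5
      · exact iff_of_true (s1 d' (by rw [k2]; exact k5)) (s1 d k5)
      · refine iff_of_false (fun k6 => ?_) (fun k6 => ?_)
        · obtain ⟨i, hi⟩ := idx d'
          have k7 := s2 d' (by rw [k2]; exact k5) i hi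
          have k8 := k6.2 i hi
          omega
        · obtain ⟨i, hi⟩ := idx d
          have k7 := s2 d k5 i hi
          have k8 := k6.2 i hi
          omega
    · have k6 : Is0 f g ρ σ d.1 := (dich h k1).resolve_left (fun k7 => k5 ((hM.mem _).2 ⟨k1, k7⟩))
      by_cases k7 : d.1 = m
      · refine iff_of_false (fun k8 => ?_) (fun k8 => ?_)
        · obtain ⟨i, hi⟩ := idx d'
          have k9 := m1 d' (by rw [k2]; exact k7) k4 i hi
          have k8 := k8.2 i hi
          omega
        · obtain ⟨i, hi⟩ := idx d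
          have k9 := m1 d k7 k3 i hi
          have k8 := k8.2 i hi
          omega
      · have k8 : ∀ d'' : Dt V, d''.1 = d.1 → 1 ≤ col f g ρ σ d'' → col f g ρ σ (fl d'') = 0 := by
          intro d'' l1 l2
          obtain ⟨e, l3, l4, l5, l6⟩ := k6 d''.2.1
          rcases eq_or_fl (d := e) (d' := d'') (by rw [l1, l3]) l4.symm with l7 | l7
          · rw [l7]
            exact l6
          · rw [l7] at l2
            omega
        by_cases k9 : d'.2.1 = d.2.1
        · rcases eq_or_fl k2 k9 with l7 | l7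
          · rw [l7]
          · exfalso
            have := k8 d rfl k3
            rw [l7] at k4
            omega
        · have k10 : d'.2.1 = !d.2.1 := bne_not _ _ k9
          have k11 := ht.tz d d' k1 k7 k2 k10 k3 k4 (k8 d rfl k3)
          have k12 := hr.ps d d' k1 k7 k2 k10 k3 k4 k11
          refine ⟨fun l => ⟨k3, fun i hi => ?_⟩, fun l => ⟨k4, fun i hi => ?_⟩⟩
          · have := l.2 i (by rw [k11]; exact hi)
            rcases k12 with ⟨⟨w, l1⟩, l2⟩ | ⟨⟨w, l1⟩, l2⟩ <;> omega
          · have := l.2 i (by rw [← k11]; exact hi)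
            rcases k12 with ⟨⟨w, l1⟩, l2⟩ | ⟨⟨w, l1⟩, l2⟩ <;> omega
  · intro o
    have k1 : 1 ≤ col f g ρ σ (v, true, o) := by
      rw [col_v2 h]
      exact h.pos
    refine ⟨k1, fun i hi => ?_⟩
    rw [hr.pv _ rfl k1]
    have := K0 i
    push_cast
    omega
  · intro d hd k
    obtain ⟨i, hi⟩ := idx d
    have k9 := m1 d hd k.1 i hi
    have k8 := k.2 i hi
    omega
  · exact s1
  · intro d hd k
    obtain ⟨i, hi⟩ := idx d
    have k9 := s2 d hd i hi
    have k8 := k.2 i hi
    omega
  · intro d d' k1 k2 k3 k4 k5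
    obtain ⟨i, hi⟩ := idx d
    have l1 := cr d k1 k2 i hi
    have l2 := cr d' k3 k4 i (by rw [k5]; exact hi)
    exact hr.inj d d' k1.1 k3.1 k5 (by omega)
  · intro t
    obtain ⟨i, hi⟩ : ∃ i : Bool, (t ↔ i = false) := by
      by_cases k : t
      · exact ⟨false, by simp [k]⟩
      · exact ⟨true, by simp [k]⟩
    have hx := e1 _ (hX i)
    obtain ⟨q1, q2⟩ := (hM.mem _).1 hx
    obtain ⟨d, k1, k2, k3⟩ := exd ht q1 q2 i false
    obtain ⟨d', l1, l2, l3⟩ := exd ht q1 q2 i true
    -- one of the two darts has the position `2 K`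
    have key : ∃ e : Dt V, e.1 = X i ∧ (th e ↔ i = false) ∧ Even (p e) ∧ (p e : ℤ) = 2 * K i := by
      have w1 := hM.k i d (by rw [k1]; exact hx) k3
      have w2 := hM.k i d' (by rw [l1]; exact hx) l3
      rw [k1, ← hK] at w1
      rw [l1, ← hK] at w2
      have hxm : X i ≠ m := by
        intro k
        obtain ⟨e, n1, n2, n3, n4⟩ := hD.m0 false
        have := colK _ hx (fl e) (by rw [fl_fst, n1, k])
        omega
      rcases hr.ps d d' (by rw [k1]; exact q1) (by rw [k1]; exact hxm) (by rw [l1, k1])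
        (by rw [l2, k2]; rfl) (colK _ hx d k1) (colK _ hx d' l1) (by rw [l3, k3]) with
        ⟨⟨w, n1⟩, n2⟩ | ⟨⟨w, n1⟩, n2⟩
      · refine ⟨d', l1, l3, ⟨w + 1, by omega⟩, by omega⟩
      · refine ⟨d, k1, k3, ⟨w + 1, by omega⟩, by omega⟩
    obtain ⟨e, r1, r2, r3, r4⟩ := key
    have r5 : 1 ≤ col f g ρ σ e := colK _ hx e r1
    refine ⟨e, s1 e (by rw [r1]; exact hX i), ?_, by rw [r2, hi]⟩
    rintro ⟨-, r6⟩
    have r7 := r6 i (by rw [ht.tx e r5]; exact r2)
    rcases hr.nx e r5 with ⟨-, r8⟩ | ⟨r8, -⟩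
    · omega
    · exact (Nat.not_even_iff_odd.2 r8) r3

section lo

variable {S₁ S₂ : Finset V} {L : Dt V → Prop}

/-- the dart on the other side with the same colour -/
lemma mt_col (h : Chn f g v N ρ σ) {d : Dt V} (hd : d.1 ≠ v) :
    (mt (col f g ρ σ) d).1 = d.1 ∧ col f g ρ σ (mt (col f g ρ σ) d) = col f g ρ σ d ∧
      mt (col f g ρ σ) (mt (col f g ρ σ) d) = d ∧ mt (col f g ρ σ) d ≠ d := by
  obtain ⟨d', k1, k2, k3, k4⟩ := col_other h hd
  have k5 := col_step h hd
  have k6 : mt (col f g ρ σ) d = d' := mt_eq _ k1 k2 k3 (by rw [k4]; omega)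
  rw [k6]
  refine ⟨k1, k3, mt_eq _ k1.symm (by rw [k2, Bool.not_not]) k3.symm (by rw [k3]; omega), ?_⟩
  intro k7
  rw [k7] at k2
  cases k8 : d.2.1 <;> rw [k8] at k2 <;> simp at k2

/-- The number of crossing darts of every colour is even. -/
lemma even_cr (h : Chn f g v N ρ σ) (hL : Lo f g v m ρ σ S₁ S₂ th L) [DecidablePred L] (c : ℕ) :
    Even (Finset.univ.filter (fun d => (L d ∧ ¬ L (nx f g d)) ∧ col f g ρ σ d = c)).card := by
  classical
  have a1 : Even (Finset.univ.filter (fun d => L d ∧ col f g ρ σ d = c)).card := by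
    apply even_card_invol _ (fun d => if d.1 = v then fl d else mt (col f g ρ σ) d)
    · intro d hd
      simp only [Finset.mem_filter, Finset.mem_univ, true_and] at hd ⊢
      have k0 := hL.c1 d hd.1
      by_cases k : d.1 = v
      · rw [if_pos k]
        obtain ⟨x, s, o⟩ := d
        simp only at k
        subst k
        cases s
        · rw [col_v1 h] at k0
          omega
        · refine ⟨hL.v2 _, ?_⟩
          rw [← hd.2]
          show col f g ρ σ (x, true, !o) = _
          rw [col_v2 h, col_v2 h]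
      · rw [if_neg k]
        obtain ⟨k1, k2, -, -⟩ := mt_col h k
        refine ⟨(hL.eq d _ k k1 k0 (by rw [k2]; exact k0)).2 hd.1, by rw [k2]; exact hd.2⟩
    · intro d hd
      by_cases k : d.1 = v
      · simp only [k, if_true, fl_fst, fl_fl]
      · obtain ⟨k1, k2, k3, -⟩ := mt_col h k
        simp only [if_neg k]
        rw [if_neg (by rw [k1]; exact k), k3]
    · intro d hd
      by_cases k : d.1 = v
      · simp only [k, if_true]
        exact fl_ne d
      · simp only [if_neg k]
        exact (mt_col h k).2.2.2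
  have a2 : Even (Finset.univ.filter (fun d => (L d ∧ L (nx f g d)) ∧
      col f g ρ σ d = c)).card := by
    apply even_card_invol _ (nx f g)
    · intro d hd
      simp only [Finset.mem_filter, Finset.mem_univ, true_and] at hd ⊢
      rw [nx_nx, col_nx]
      exact ⟨⟨hd.1.2, hd.1.1⟩, hd.2⟩
    · exact fun d _ => nx_nx d
    · exact fun d _ => nx_ne d
  have a3 : (Finset.univ.filter (fun d => L d ∧ col f g ρ σ d = c)).card =
      (Finset.univ.filter (fun d => (L d ∧ L (nx f g d)) ∧ col f g ρ σ d = c)).card +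
      (Finset.univ.filter (fun d => (L d ∧ ¬ L (nx f g d)) ∧ col f g ρ σ d = c)).card := by
    rw [← Finset.card_union_of_disjoint]
    · congr 1
      ext d
      simp only [Finset.mem_filter, Finset.mem_univ, true_and, Finset.mem_union]
      tauto
    · rw [Finset.disjoint_left]
      intro d hd hd'
      simp only [Finset.mem_filter, Finset.mem_univ, true_and] at hd hd'
      exact hd'.1.2 hd.1.2
  rw [a3] at a1
  exact (Nat.even_add.1 a1).1 a2

/-- Both crossing darts have the colour `c` or none of them. -/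
lemma cr_all (h : Chn f g v N ρ σ) (hL : Lo f g v m ρ σ S₁ S₂ th L) (c : ℕ) :
    (∀ d, L d → ¬ L (nx f g d) → col f g ρ σ d ≠ c) ∨
    (∀ d, L d → ¬ L (nx f g d) → col f g ρ σ d = c) := by
  classical
  by_contra hcon
  push Not at hcon
  obtain ⟨⟨d, a1, a2, a3⟩, ⟨d', b1, b2, b3⟩⟩ := hcon
  have k := even_cr h hL c
  have k1 : Finset.univ.filter (fun d => (L d ∧ ¬ L (nx f g d)) ∧ col f g ρ σ d = c) = {d} := by
    ext e
    simp only [Finset.mem_filter, Finset.mem_univ, true_and, Finset.mem_singleton]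
    constructor
    · rintro ⟨⟨c1, c2⟩, c3⟩
      by_contra c4
      by_cases t1 : th e ↔ th d
      · exact c4 (hL.un d e a1 a2 c1 c2 t1)
      · by_cases t2 : th d' ↔ th d
        · have := hL.un d d' a1 a2 b1 b2 t2
          rw [this] at b3
          exact b3 a3
        · have := hL.un e d' c1 c2 b1 b2 (by tauto)
          rw [this] at b3
          exact b3 c3
    · rintro rfl
      exact ⟨⟨a1, a2⟩, a3⟩
  rw [k1, Finset.card_singleton] at k
  exact absurd k (by decide)

/-- A circuit without crossing darts is in the lower part or outside. -/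
lemma fineL (h : Chn f g v N ρ σ) (hL : Lo f g v m ρ σ S₁ S₂ th L) {j : ℕ} (hj : 1 ≤ j)
    (hc : ∀ d, L d → ¬ L (nx f g d) → col f g ρ σ d ≠ j) (d d' : Dt V)
    (hd : col f g ρ σ d = j) (hd' : col f g ρ σ d' = j) : L d ↔ L d' := by
  have n0 : ∀ d, col f g ρ σ d = j → (L (nx f g d) ↔ L d) := by
    intro d hd
    constructor
    · intro k
      by_contra k2
      exact hc _ k (by rw [nx_nx]; exact k2) (by rw [col_nx]; exact hd)
    · intro k
      by_contra k2
      exact hc _ k k2 hd
  have n1 : ∀ x : V, ρ (f.symm x) = j → (L (x, false, false) ↔ L (f.symm x, false, true)) := by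
    intro x hx
    exact (n0 (x, false, false) hx).symm
  have n2 : ∀ x : V, σ (g.symm x) = j → (L (x, true, false) ↔ L (g.symm x, true, true)) := by
    intro x hx
    exact (n0 (x, true, false) hx).symm
  have hh : ∀ x, x ≠ v → ∀ s s' o o' : Bool, col f g ρ σ (x, s, o) = j →
      col f g ρ σ (x, s', o') = j → (L (x, s, o) ↔ L (x, s', o')) := by
    intro x hx s s' o o' k1 k2
    exact (hL.eq (x, s, o) (x, s', o') hx rfl (by omega) (by omega)).symm
  obtain ⟨F1, F2, F3⟩ := h.fine (fun x => ρ x = j ∧ L (x, false, true))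
    (fun x => σ x = j ∧ L (x, true, true)) (by
      have e1 : ρ (f.symm v) = 0 := by rw [h.cov.vf, h.r0]
      have e2 : (0 : ℕ) ≠ j := by omega
      simp only [e1, h.r0, e2, false_and]) (by
      simp only [h.cov.vg, h.sN]
      by_cases e1 : N = j
      · simp only [e1, true_and]
        have e2 : σ (g.symm v) = j := by rw [h.cov.vg, h.sN, e1]
        rw [← n2 v e2]
        exact iff_of_true (hL.v2 _) (hL.v2 _)
      · simp only [e1, false_and]) (by
      intro x hx
      refine ⟨fun e => ?_, fun e => ?_, fun e => ?_, fun e => ?_⟩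
      · by_cases e1 : σ x = j
        · simp only [e, e1, true_and]
          rw [← n1 x (e.trans e1)]
          exact hh x hx _ _ _ _ (e.trans e1) e1
        · simp only [e, e1, false_and]
      · by_cases e1 : σ x = j
        · simp only [e, e1, true_and]
          exact hh x hx _ _ _ _ (e.trans e1) e1
        · simp only [e, e1, false_and]
      · by_cases e1 : σ (g.symm x) = j
        · simp only [e, e1, true_and]
          rw [← n1 x (e.trans e1), ← n2 x e1]
          exact hh x hx _ _ _ _ (e.trans e1) e1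
        · simp only [e, e1, false_and]
      · by_cases e1 : σ (g.symm x) = j
        · simp only [e, e1, true_and]
          rw [← n2 x e1]
          exact hh x hx _ _ _ _ (e.trans e1) e1
        · simp only [e, e1, false_and])
  have key : ∀ d : Dt V, col f g ρ σ d = j → ∃ x s, col f g ρ σ (x, s, true) = j ∧
      (L d ↔ L (x, s, true)) := by
    rintro ⟨x, s, o⟩ hx
    cases s <;> cases o
    · exact ⟨f.symm x, false, hx, n1 x hx⟩
    · exact ⟨x, false, hx, Iff.rfl⟩
    · exact ⟨g.symm x, true, hx, n2 x hx⟩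
    · exact ⟨x, true, hx, Iff.rfl⟩
  obtain ⟨x, s, k1, k2⟩ := key d hd
  obtain ⟨x', s', k1', k2'⟩ := key d' hd'
  rw [k2, k2']
  cases s <;> cases s'
  · change ρ x = j at k1
    change ρ x' = j at k1'
    have := F1 x x' (by rw [k1, k1'])
    simpa only [k1, k1', true_and] using this
  · change ρ x = j at k1
    change σ x' = j at k1'
    have := F2 x x' (by rw [k1, k1'])
    simpa only [k1, k1', true_and] using this
  · change σ x = j at k1
    change ρ x' = j at k1'
    have := F2 x' x (by rw [k1, k1'])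
    simpa only [k1, k1', true_and] using this.symm
  · change σ x = j at k1
    change σ x' = j at k1'
    have := F3 x x' (by rw [k1, k1'])
    simpa only [k1, k1', true_and] using this

/-- The crossing darts do not have the colour `1`. -/
lemma case_a (hD : Dat f g v m N ρ σ th p sp S) (hL : Lo f g v m ρ σ S₁ S₂ th L)
    (n1 : S₁.Nonempty) (n2 : S₂.Nonempty) (hS : S = S₁ ∪ S₂)
    (hc : ∀ d, L d → ¬ L (nx f g d) → col f g ρ σ d ≠ 1) : False := by
  classical
  have h := hD.ch
  have hM := hD.md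
  have e1 : ∀ x ∈ S₁, x ∈ S := fun x hx => by rw [hS]; exact Finset.mem_union_left _ hx
  have e2 : ∀ x ∈ S₂, x ∈ S := fun x hx => by rw [hS]; exact Finset.mem_union_right _ hx
  have no1 : ∀ d, L d → col f g ρ σ d ≠ 1 := by
    intro d hd hd1
    obtain ⟨dm, k1, k2, k3, k4⟩ := hD.m0 false
    exact hL.m1 dm k1 ((fineL h hL le_rfl hc d dm hd1 k3).1 hd)
  have loc : ∀ d, L d → d.1 = v ∨ d.1 ∈ S₁ := by
    intro d hd
    by_cases k : d.1 = v
    · exact Or.inl k
    · right
      rcases dich h k with k1 | k1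
      · have k2 : d.1 ∈ S := (hM.mem _).2 ⟨k, k1⟩
        rw [hS, Finset.mem_union] at k2
        rcases k2 with k2 | k2
        · exact k2
        · exact absurd hd (hL.s2 d k2)
      · exfalso
        obtain ⟨e, k2, k3, k4, k5⟩ := k1 d.2.1
        have k6 := hL.c1 d hd
        rcases eq_or_fl (d := e) (d' := d) k2.symm k3.symm with k7 | k7
        · rw [← k7] at k4
          exact no1 d hd k4
        · rw [← k7] at k5
          omega
  have vS : v ∉ S₁ := fun k => ((hM.mem v).1 (e1 v k)).1 rfl
  have x0 : ∃ x, L (x, false, true) ∧ ¬ L (nx f g (x, false, true)) := by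
    by_contra hcon
    push Not at hcon
    apply vS
    rw [hD.cf S₁ n1 (fun x hx => ?_)]
    · exact Finset.mem_univ _
    · have k := hcon x (hL.s1 (x, false, true) hx)
      rcases loc _ k with k1 | k1
      · exfalso
        change f x = v at k1
        have k2 := hL.c1 _ k
        change 1 ≤ col f g ρ σ (f x, false, false) at k2
        rw [k1, col_v1 h] at k2
        omega
      · exact k1
  have x1 : ∃ x, L (x, false, false) ∧ ¬ L (nx f g (x, false, false)) := by
    by_contra hcon
    push Not at hcon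
    apply vS
    rw [hD.cf.symm S₁ n1 (fun x hx => ?_)]
    · exact Finset.mem_univ _
    · have k := hcon x (hL.s1 (x, false, false) hx)
      rcases loc _ k with k1 | k1
      · exfalso
        change f.symm x = v at k1
        have k2 := hL.c1 _ k
        change 1 ≤ col f g ρ σ (f.symm x, false, true) at k2
        rw [k1, col_v1 h] at k2
        omega
      · exact k1
  obtain ⟨x0, a1, a2⟩ := x0
  obtain ⟨x1, b1, b2⟩ := x1
  have all : ∀ x, x = v ∨ x ∈ S₁ := by
    refine hD.cg.induct (p := fun x => x = v ∨ x ∈ S₁) (a := v) (Or.inl rfl) ?_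
    intro x hx
    have k1 : L (x, true, true) := by
      rcases hx with rfl | hx
      · exact hL.v2 _
      · exact hL.s1 _ hx
    by_cases k2 : L (nx f g (x, true, true))
    · exact loc _ k2
    · exfalso
      have t1 : ¬ (th (x, true, true) ↔ th (x0, false, true)) := fun t => by
        have := hL.un _ _ a1 a2 k1 k2 t
        simp at this
      have t2 : ¬ (th (x, true, true) ↔ th (x1, false, false)) := fun t => by
        have := hL.un _ _ b1 b2 k1 k2 t
        simp at this
      have := hL.un _ _ a1 a2 b1 b2 (by tauto)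
      simp at this
  obtain ⟨y, hy⟩ := n2
  rcases all y with k | k
  · exact ((hM.mem y).1 (e2 y hy)).1 k
  · exact hL.s2 (y, true, true) hy (hL.s1 (y, true, true) k)

/-- The crossing darts have the colour `1`. -/
lemma case_b (hD : Dat f g v m N ρ σ th p sp S) (hL : Lo f g v m ρ σ S₁ S₂ th L)
    (n2 : S₂.Nonempty) (hS : S = S₁ ∪ S₂)
    (hc : ∀ d, L d → ¬ L (nx f g d) → col f g ρ σ d = 1) : False := by
  have h := hD.ch
  have hM := hD.md
  have e2 : ∀ x ∈ S₂, x ∈ S := fun x hx => by rw [hS]; exact Finset.mem_union_right _ hx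
  have hc' : ∀ j, 2 ≤ j → ∀ d, L d → ¬ L (nx f g d) → col f g ρ σ d ≠ j := by
    intro j hj d k1 k2
    rw [hc d k1 k2]
    omega
  have all : ∀ n j, j + n = N → 2 ≤ j → ∀ d, col f g ρ σ d = j → L d := by
    intro n
    induction n with
    | zero =>
      intro j hj h2 d hd
      exact (fineL h hL (by omega) (hc' j h2) d (v, true, true) hd
        (by rw [col_v2 h]; omega)).2 (hL.v2 _)
    | succ n ih =>
      intro j hj h2 d hd
      by_contra hcon
      have hno : ∀ d, col f g ρ σ d = j → ¬ L d := fun d' hd' k =>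
        hcon ((fineL h hL (by omega) (hc' j h2) d d' hd hd').2 k)
      have hge : ∀ x, j + 1 ≤ σ x := by
        refine hD.cg.induct (p := fun x => j + 1 ≤ σ x) (a := v) ?_ ?_
        · rw [h.sN]
          omega
        · intro x hx
          by_cases k : g x = v
          · rw [k, h.sN]
            omega
          · have k1 : col f g ρ σ (g x, true, false) = σ x := by
              show σ (g.symm (g x)) = σ x
              rw [Equiv.symm_apply_apply]
            have k2 : col f g ρ σ (g x, true, true) = σ (g x) := rfl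
            have k3 := col_step h (d := (g x, true, true)) k
            change col f g ρ σ (g x, true, true) = col f g ρ σ (g x, true, false) + 1 ∨
              col f g ρ σ (g x, true, false) = col f g ρ σ (g x, true, true) + 1 at k3
            by_contra k4
            have k5 : σ x = j + 1 := by omega
            have k6 : σ (g x) = j := by omega
            have k7 : L (g x, true, false) := ih (j + 1) (by omega) (by omega) _ (by omega)
            exact hno (g x, true, true) (by omega) ((hL.eq (g x, true, false) (g x, true, true) k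
              rfl (by omega) (by omega)).2 k7)
      obtain ⟨⟨x, s, o⟩, k1, k2, k3, k4⟩ := hD.m0 true
      simp only at k1 k2
      subst k1 k2
      cases o
      · have := hge x
        change σ x = 0 at k4
        omega
      · have := hge (g.symm x)
        change σ (g.symm x) = 0 at k4
        omega
  obtain ⟨y, hy⟩ := n2
  obtain ⟨q1, q2⟩ := (hM.mem y).1 (e2 y hy)
  have k3 := col_step h (d := (y, true, true)) q1
  have k4 := q2 true true
  have k5 := q2 true false
  have k6 : fl ((y, true, true) : Dt V) = (y, true, false) := rfl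
  rw [k6] at k3
  rcases k3 with k3 | k3
  · have k7 := col_le h (y, true, true)
    exact hL.s2 (y, true, true) hy (all (N - col f g ρ σ (y, true, true)) _
      (by omega) (by omega) _ rfl)
  · have k7 := col_le h (y, true, false)
    exact hL.s2 (y, true, false) hy (all (N - col f g ρ σ (y, true, false)) _
      (by omega) (by omega) _ rfl)

end lo

end

end FC

/-- FINC: the signed permutation is not a direct sum. -/
theorem t_FINC54 : Stmt_FINC := by
  intro V _ _ f g v m N ρ σ th p sp S hD S₁ S₂ n1 n2 hS hlt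
  obtain ⟨L, hL⟩ := FC.exists_lo hD n1 n2 hS hlt
  rcases FC.cr_all hD.ch hL 1 with hc | hc
  · exact FC.case_a hD hL n1 n2 hS hc
  · exact FC.case_b hD hL n2 hS hc

end Pool.ROS
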