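import Pool.Agent.ROS.Stmts

/-!
# Road S: the smoothed side of a chain is one closed trail
-/

set_option autoImplicit false
set_option linter.unusedSectionVars false

namespace Pool.ROS

open Pool.GOD.PG

variable {V : Type*} [Fintype V] [DecidableEq V] {f g : Equiv.Perm V} {v : V} {N : ℕ}
  {ρ σ : V → ℕ}

/-- the new colours -/
noncomputable def kp (r : ℕ) (P : Prop) : ℕ := by
  classical
  exact if r = 0 then 0 else if (Odd r ↔ P) then 1 else 2

lemma kp_zero {r : ℕ} {P : Prop} : kp r P = 0 ↔ r = 0 := by
  unfold kp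
  by_cases h : r = 0
  · simp [h]
  · rw [if_neg h]
    split_ifs <;> simp [h]

lemma kp_one {r : ℕ} {P : Prop} (h : r ≠ 0) : kp r P = 1 ↔ (Odd r ↔ P) := by
  unfold kp
  rw [if_neg h]
  by_cases h1 : (Odd r ↔ P)
  · simp [h1]
  · rw [if_neg h1]
    simp [h1]

lemma kp_two {r : ℕ} {P : Prop} (h : r ≠ 0) : kp r P = 2 ↔ ¬ (Odd r ↔ P) := by
  unfold kp
  rw [if_neg h]
  by_cases h1 : (Odd r ↔ P)
  · simp [h1]
  · rw [if_neg h1]
    simp [h1]

lemma kp_or {r : ℕ} {P : Prop} (h : r ≠ 0) : kp r P = 1 ∨ kp r P = 2 := by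
  by_cases h1 : (Odd r ↔ P)
  · exact Or.inl ((kp_one h).2 h1)
  · exact Or.inr ((kp_two h).2 h1)

lemma kp_step {r s : ℕ} {P Q : Prop} (hr : r ≠ 0) (hs : s ≠ 0) (h : s = r + 1 ∨ r = s + 1)
    (hPQ : P ↔ Q) : kp r P ≠ kp s Q := by
  have e : Odd s ↔ ¬ Odd r := by
    rcases h with h | h
    · rw [h, Nat.odd_add_one]
    · rw [h, Nat.odd_add_one, not_not]
  intro h1
  rcases kp_or (P := P) hr with h2 | h2
  · have h3 := (kp_one hr).1 h2
    rw [h1, kp_one hs, e, ← hPQ] at h2
    by_cases hp : P <;> simp_all
  · have h3 := (kp_two hr).1 h2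
    rw [h1, kp_two hs, e, ← hPQ] at h2
    by_cases hp : P <;> simp_all

/-- equal up to exchange -/
lemma two_two {a b c d : ℕ} (ha : a = 1 ∨ a = 2) (hb : b = 1 ∨ b = 2) (hc : c = 1 ∨ c = 2)
    (hd : d = 1 ∨ d = 2) (hab : a ≠ b) (hcd : c ≠ d) : (c = a ∧ d = b) ∨ (c = b ∧ d = a) := by
  omega

section

variable (h : Chn f g v N ρ σ) (P : Dt V → Prop)
  (h1 : ∀ d, 1 ≤ col f g ρ σ d → (P (nx f g d) ↔ P d))
  (h2 : ∀ d, 1 ≤ col f g ρ σ d → (P (cc f g ρ σ v d) ↔ P d))

include h h1 h2

/-- `P` at the two darts at a point -/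
lemma kmp_fl (d : Dt V) (a : 1 ≤ col f g ρ σ d) (b : 1 ≤ col f g ρ σ (fl d)) :
    P (fl d) ↔ P d := by
  rw [← h2 d a, cc_K (by omega) (by omega)]

/-- `P` at the two darts of colour `1` at a letter of `D_0` -/
lemma kmp_op (d d' : Dt V) (hd : d.1 ≠ v) (e1 : d'.1 = d.1) (e2 : d'.2.1 = !d.2.1)
    (a : 1 ≤ col f g ρ σ d) (b : 1 ≤ col f g ρ σ d') (c : col f g ρ σ (fl d) = 0) :
    P d' ↔ P d := by
  have e3 : cc f g ρ σ v d = d' := cc_eq h hd (Or.inr c) e1 e2 (by omega)
  rw [← h2 d a, e3]

/-- the new cover -/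
lemma kmp_cov : Cov f g v (fun x => kp (ρ x) (P (x, false, true)))
    (fun x => kp (σ x) (P (x, true, true))) := by
  have nF : ∀ x, ρ (f.symm x) ≠ 0 → (P (f.symm x, false, true) ↔ P (x, false, false)) := fun x hx =>
    h1 (x, false, false) (Nat.one_le_iff_ne_zero.2 hx)
  have nG : ∀ x, σ (g.symm x) ≠ 0 → (P (g.symm x, true, true) ↔ P (x, true, false)) := fun x hx =>
    h1 (x, true, false) (Nat.one_le_iff_ne_zero.2 hx)
  have hN := h.pos
  refine ⟨?_, ?_, ?_, ?_⟩
  · show kp _ _ = kp _ _
    rw [kp_zero.2 (by rw [h.cov.vf, h.r0]), kp_zero.2 h.r0]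
  · show kp (σ (g.symm v)) (P (g.symm v, true, true)) = kp (σ v) (P (v, true, true))
    have e : P (g.symm v, true, true) ↔ P (v, true, true) := by
      rw [nG v (by rw [h.cov.vg, h.sN]; omega)]
      have := h2 (v, true, true) (by rw [col_v2 h]; exact hN)
      have e0 : cc f g ρ σ v (v, true, true) = (v, true, false) := cc_v rfl
      rw [e0] at this
      exact this
    rw [h.cov.vg, propext e]
  · intro x hx
    show kp (ρ (f.symm x)) (P (f.symm x, false, true)) ≠ kp (ρ x) (P (x, false, true))
    by_cases a : ρ (f.symm x) = 0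
    · rw [kp_zero.2 a]
      intro e
      have := kp_zero.1 e.symm
      exact h.cov.ne x hx (by rw [a, this])
    · by_cases b : ρ x = 0
      · rw [kp_zero.2 b]
        intro e
        exact a (kp_zero.1 e)
      · refine kp_step a b (h.step x hx) ?_
        rw [nF x a]
        exact (kmp_fl h P h1 h2 (x, false, false) (Nat.one_le_iff_ne_zero.2 a)
          (Nat.one_le_iff_ne_zero.2 b)).symm
  · intro x hx
    show (kp (σ (g.symm x)) (P (g.symm x, true, true)) =
        kp (ρ (f.symm x)) (P (f.symm x, false, true)) ∧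
        kp (σ x) (P (x, true, true)) = kp (ρ x) (P (x, false, true))) ∨
      (kp (σ (g.symm x)) (P (g.symm x, true, true)) = kp (ρ x) (P (x, false, true)) ∧
        kp (σ x) (P (x, true, true)) = kp (ρ (f.symm x)) (P (f.symm x, false, true)))
    have hs := h.step x hx
    have heq := h.cov.eq x hx
    by_cases a : ρ (f.symm x) = 0
    · have b : ρ x = 1 := by omega
      rcases heq with ⟨q1, q2⟩ | ⟨q1, q2⟩
      · left
        refine ⟨by rw [kp_zero.2 a, kp_zero.2 (q1.trans a)], ?_⟩
        have e : P (x, true, true) ↔ P (x, false, true) :=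
          kmp_op h P h1 h2 (x, false, true) (x, true, true) hx rfl rfl
            (by show 1 ≤ ρ x; omega) (by show 1 ≤ σ x; omega) a
        rw [q2, propext e]
      · right
        refine ⟨?_, by rw [kp_zero.2 a, kp_zero.2 (q2.trans a)]⟩
        have e : P (x, true, false) ↔ P (x, false, true) :=
          kmp_op h P h1 h2 (x, false, true) (x, true, false) hx rfl rfl
            (by show 1 ≤ ρ x; omega) (by show 1 ≤ σ (g.symm x); omega) a
        rw [← nG x (by omega)] at e
        rw [q1, propext e]
    · by_cases b : ρ x = 0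
      · have a' : ρ (f.symm x) = 1 := by omega
        rcases heq with ⟨q1, q2⟩ | ⟨q1, q2⟩
        · left
          refine ⟨?_, by rw [kp_zero.2 b, kp_zero.2 (q2.trans b)]⟩
          have e : P (x, true, false) ↔ P (x, false, false) :=
            kmp_op h P h1 h2 (x, false, false) (x, true, false) hx rfl rfl
              (by show 1 ≤ ρ (f.symm x); omega) (by show 1 ≤ σ (g.symm x); omega) b
          rw [← nG x (by omega), ← nF x a] at e
          rw [q1, propext e]
        · right
          refine ⟨by rw [kp_zero.2 b, kp_zero.2 (q1.trans b)], ?_⟩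
          have e : P (x, true, true) ↔ P (x, false, false) :=
            kmp_op h P h1 h2 (x, false, false) (x, true, true) hx rfl rfl
              (by show 1 ≤ ρ (f.symm x); omega) (by show 1 ≤ σ x; omega) b
          rw [← nF x a] at e
          rw [q2, propext e]
      · have c : σ (g.symm x) ≠ 0 := by omega
        have d : σ x ≠ 0 := by omega
        refine two_two (kp_or a) (kp_or b) (kp_or c) (kp_or d) ?_ ?_
        · refine kp_step a b hs ?_
          rw [nF x a]
          exact (kmp_fl h P h1 h2 (x, false, false) (Nat.one_le_iff_ne_zero.2 a)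
            (Nat.one_le_iff_ne_zero.2 b)).symm
        · refine kp_step c d (by omega) ?_
          rw [nG x c]
          exact (kmp_fl h P h1 h2 (x, true, false) (Nat.one_le_iff_ne_zero.2 c)
            (Nat.one_le_iff_ne_zero.2 d)).symm

end

/-- a predicate on the edges which is constant at the letters is constant -/
lemma cyc_const {f : Equiv.Perm V} (hf : Cyc f) (R : V → Prop) (hR : ∀ x, R (f.symm x) ↔ R x)
    (x y : V) : R x ↔ R y := by
  classical
  have key : ∀ a b, R a → R b := by
    intro a b ha
    have := hf (Finset.univ.filter R) ⟨a, by simpa using ha⟩ (by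
      intro w hw
      simp only [Finset.mem_filter, Finset.mem_univ, true_and] at hw ⊢
      rw [← hR, Equiv.symm_apply_apply]
      exact hw)
    have hb : b ∈ Finset.univ.filter R := by
      rw [this]
      exact Finset.mem_univ _
    simpa using hb
  exact ⟨key x y, key y x⟩

/-- the predicate `P` has the same value `t` at all darts of colour `1` at letters of `D_0`; then it
has this value everywhere, or the opposite value at `v` -/
lemma kmp_side (h : Chn f g v N ρ σ) (hf : Cyc f) (hg : Cyc g) (P : Dt V → Prop)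
    (h1 : ∀ d, 1 ≤ col f g ρ σ d → (P (nx f g d) ↔ P d))
    (h2 : ∀ d, 1 ≤ col f g ρ σ d → (P (cc f g ρ σ v d) ↔ P d))
    (h3 : ∀ d, d.1 ≠ v → col f g ρ σ d = 1 → col f g ρ σ (fl d) = 0 → ¬ P d) :
    (∀ x, ρ x ≠ 0 → ¬ P (x, false, true)) ∧
      ∀ x y, (σ x ≠ 0 ∧ P (x, true, true)) ↔ (σ y ≠ 0 ∧ P (y, true, true)) := by
  have nF : ∀ x, ρ (f.symm x) ≠ 0 → (P (f.symm x, false, true) ↔ P (x, false, false)) := fun x hx =>
    h1 (x, false, false) (Nat.one_le_iff_ne_zero.2 hx)
  have nG : ∀ x, σ (g.symm x) ≠ 0 → (P (g.symm x, true, true) ↔ P (x, true, false)) := fun x hx =>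
    h1 (x, true, false) (Nat.one_le_iff_ne_zero.2 hx)
  have hN := h.pos
  constructor
  · have c := cyc_const hf (fun x => ρ x ≠ 0 ∧ P (x, false, true)) (by
      intro x
      by_cases hx : x = v
      · subst hx
        have a : ρ (f.symm x) = 0 := by rw [h.cov.vf, h.r0]
        simp [a, h.r0]
      · have hs := h.step x hx
        by_cases a : ρ (f.symm x) = 0
        · have b := h3 (x, false, true) hx (by show ρ x = 1; omega) a
          simp [a, b]
        · by_cases b : ρ x = 0
          · have c := h3 (x, false, false) hx (by show ρ (f.symm x) = 1; omega) b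
            rw [← nF x a] at c
            simp [b, c]
          · have c := kmp_fl h P h1 h2 (x, false, false) (Nat.one_le_iff_ne_zero.2 a)
              (Nat.one_le_iff_ne_zero.2 b)
            rw [← nF x a] at c
            have c' : P (x, false, true) ↔ P (f.symm x, false, true) := c
            simp only [ne_eq, a, not_false_eq_true, true_and, b]
            exact c'.symm)
    intro x hx hP
    have := (c x v).1 ⟨hx, hP⟩
    exact this.1 h.r0
  · refine cyc_const hg (fun x => σ x ≠ 0 ∧ P (x, true, true)) ?_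
    intro x
    by_cases hx : x = v
    · subst hx
      have e0 : cc f g ρ σ x (x, true, true) = (x, true, false) := cc_v rfl
      have e1 := h2 (x, true, true) (by rw [col_v2 h]; exact hN)
      rw [e0, ← nG x (by rw [h.cov.vg, h.sN]; omega)] at e1
      show (σ (g.symm x) ≠ 0 ∧ _) ↔ _
      rw [h.cov.vg, e1]
    · have hs := h.step x hx
      have heq := h.cov.eq x hx
      by_cases a : σ (g.symm x) = 0
      · have b := h3 (x, true, true) hx (by show σ x = 1; omega) a
        simp [a, b]
      · by_cases b : σ x = 0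
        · have c := h3 (x, true, false) hx (by show σ (g.symm x) = 1; omega) b
          rw [← nG x a] at c
          simp [b, c]
        · have c := kmp_fl h P h1 h2 (x, true, false) (Nat.one_le_iff_ne_zero.2 a)
            (Nat.one_le_iff_ne_zero.2 b)
          rw [← nG x a] at c
          have c' : P (x, true, true) ↔ P (g.symm x, true, true) := c
          simp only [ne_eq, a, not_false_eq_true, true_and, b]
          exact c'.symm

/-- The smoothed side of a chain is one closed trail. -/
theorem kempe (hN : NN f g) (hf : Cyc f) (hg : Cyc g) (hc : 2 ≤ Fintype.card V)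
    (h : Chn f g v N ρ σ) : Kmp f g v ρ σ := by
  intro P h1 h2
  -- enough: `P` false at `v` implies `P` false everywhere
  suffices key : ∀ P : Dt V → Prop, (∀ d, 1 ≤ col f g ρ σ d → (P (nx f g d) ↔ P d)) →
      (∀ d, 1 ≤ col f g ρ σ d → (P (cc f g ρ σ v d) ↔ P d)) → ¬ P (v, true, true) →
      ∀ d, 1 ≤ col f g ρ σ d → ¬ P d by
    intro d d' hd hd'
    by_cases hv : P (v, true, true)
    · have k := key (fun d => ¬ P d) (fun d hd => not_congr (h1 d hd))
        (fun d hd => not_congr (h2 d hd)) (not_not.2 hv)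
      exact iff_of_true (not_not.1 (k d hd)) (not_not.1 (k d' hd'))
    · have k := key P h1 h2 hv
      exact iff_of_false (k d hd) (k d' hd')
  clear h1 h2 P
  intro P h1 h2 hv
  have hpos := h.pos
  have hC := kmp_cov h P h1 h2
  obtain ⟨N', ρ', σ', φ, h', k1, k2⟩ := exists_chn hN hf hg hc hC
  have φ0 : φ 0 = 0 := by
    have e := k1 v
    rw [h'.r0] at e
    rw [← e]
    exact kp_zero.2 h.r0
  have z1 : ∀ x, ρ' x = 0 → ρ x = 0 := by
    intro x hx
    have := k1 x
    rw [hx, φ0] at this
    exact kp_zero.1 this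
  have z2 : ∀ x, σ' x = 0 → σ x = 0 := by
    intro x hx
    have := k2 x
    rw [hx, φ0] at this
    exact kp_zero.1 this
  obtain ⟨F1, F2, F3⟩ := h.fine (fun x => ρ' x = 0) (fun x => σ' x = 0) (by
    show ρ' (f.symm v) = 0 ↔ ρ' v = 0
    rw [h'.cov.vf]) (by
    show σ' (g.symm v) = 0 ↔ σ' v = 0
    rw [h'.cov.vg]) (by
    intro x hx
    have hs := h.step x hx
    have heq' := h'.cov.eq x hx
    have y1 := z1 x
    have y2 := z1 (f.symm x)
    have y3 := z2 x
    have y4 := z2 (g.symm x)
    have c1 : φ (ρ' x) = 0 ↔ ρ x = 0 := by rw [← k1 x]; exact kp_zero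
    have c2 : φ (ρ' (f.symm x)) = 0 ↔ ρ (f.symm x) = 0 := by rw [← k1 (f.symm x)]; exact kp_zero
    have c3 : φ (σ' x) = 0 ↔ σ x = 0 := by rw [← k2 x]; exact kp_zero
    have c4 : φ (σ' (g.symm x)) = 0 ↔ σ (g.symm x) = 0 := by rw [← k2 (g.symm x)]; exact kp_zero
    refine ⟨fun e => ?_, fun e => ?_, fun e => ?_, fun e => ?_⟩
    · rcases heq' with ⟨q1, q2⟩ | ⟨q1, q2⟩
      · rw [q2] at c3 ⊢
        by_cases r : ρ' (f.symm x) = 0
        · have := y2 r
          have t : φ (ρ' x) = 0 := c3.2 (by omega)
          have := c1.1 t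
          omega
        · by_cases r' : ρ' x = 0
          · have := y1 r'
            omega
          · exact iff_of_false r r'
      · rw [q2]
    · rcases heq' with ⟨q1, q2⟩ | ⟨q1, q2⟩
      · rw [q2]
      · rw [q2] at c3 ⊢
        by_cases r : ρ' x = 0
        · have := y1 r
          have t : φ (ρ' (f.symm x)) = 0 := c3.2 (by omega)
          have := c2.1 t
          omega
        · by_cases r' : ρ' (f.symm x) = 0
          · have := y2 r'
            omega
          · exact iff_of_false r r'
    · rcases heq' with ⟨q1, q2⟩ | ⟨q1, q2⟩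
      · rw [q1]
      · rw [q1] at c4 ⊢
        by_cases r : ρ' (f.symm x) = 0
        · have := y2 r
          have t : φ (ρ' x) = 0 := c4.2 (by omega)
          have := c1.1 t
          omega
        · by_cases r' : ρ' x = 0
          · have := y1 r'
            omega
          · exact iff_of_false r r'
    · rcases heq' with ⟨q1, q2⟩ | ⟨q1, q2⟩
      · rw [q1] at c4 ⊢
        by_cases r : ρ' x = 0
        · have := y1 r
          have t : φ (ρ' (f.symm x)) = 0 := c4.2 (by omega)
          have := c2.1 t
          omega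
        · by_cases r' : ρ' (f.symm x) = 0
          · have := y2 r'
            omega
          · exact iff_of_false r r'
      · rw [q1])
  have w1 : ∀ x, ρ x = 0 → ρ' x = 0 := fun x hx => (F1 x v (by rw [hx, h.r0])).2 h'.r0
  have w2 : ∀ x, σ x = 0 → σ' x = 0 := fun x hx => (F2 v x (by rw [hx, h.r0])).1 h'.r0
  -- the value of `P` at the darts of colour `1` at letters of `D_0`
  have hval : ∀ d, d.1 ≠ v → col f g ρ σ d = 1 → col f g ρ σ (fl d) = 0 → (P d ↔ φ 1 = 1) := by
    have one : Odd 1 := odd_one
    rintro ⟨x, s, o⟩ hx a b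
    have hx' : x ≠ v := hx
    have hs' := h'.step x hx'
    have heq' := h'.cov.eq x hx'
    cases s <;> cases o
    · change ρ (f.symm x) = 1 at a
      change ρ x = 0 at b
      have e0 := w1 x b
      have e1 : ρ' (f.symm x) = 1 := by omega
      have e2 := k1 (f.symm x)
      rw [e1, a] at e2
      have e3 : P (f.symm x, false, true) ↔ P (x, false, false) :=
        h1 (x, false, false) (by show 1 ≤ ρ (f.symm x); omega)
      rw [← e2, kp_one one_ne_zero, ← e3]
      simp [one]
    · change ρ x = 1 at a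
      change ρ (f.symm x) = 0 at b
      have e0 := w1 _ b
      have e1 : ρ' x = 1 := by omega
      have e2 := k1 x
      rw [e1, a] at e2
      rw [← e2, kp_one one_ne_zero]
      simp [one]
    · change σ (g.symm x) = 1 at a
      change σ x = 0 at b
      have e0 := w2 x b
      have e1 : σ' (g.symm x) = 1 := by omega
      have e2 := k2 (g.symm x)
      rw [e1, a] at e2
      have e3 : P (g.symm x, true, true) ↔ P (x, true, false) :=
        h1 (x, true, false) (by show 1 ≤ σ (g.symm x); omega)
      rw [← e2, kp_one one_ne_zero, ← e3]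
      simp [one]
    · change σ x = 1 at a
      change σ (g.symm x) = 0 at b
      have e0 := w2 _ b
      have e1 : σ' x = 1 := by omega
      have e2 := k2 x
      rw [e1, a] at e2
      rw [← e2, kp_one one_ne_zero]
      simp [one]
  by_cases hφ : φ 1 = 1
  · -- the opposite value at `v`: impossible
    exfalso
    obtain ⟨-, b⟩ := kmp_side h hf hg (fun d => ¬ P d) (fun d hd => not_congr (h1 d hd))
      (fun d hd => not_congr (h2 d hd)) (fun d q1 q2 q3 => not_not.2 ((hval d q1 q2 q3).2 hφ))
    have hm : f v ≠ v := hf.ne hc v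
    have e0 : col f g ρ σ (f v, false, false) = 0 := by
      show ρ (f.symm (f v)) = 0
      rw [Equiv.symm_apply_apply, h.r0]
    have hm0 : Is0 f g ρ σ (f v) := by
      rcases dich h hm with k | k
      · have := k false false
        omega
      · exact k
    obtain ⟨⟨x, s, o⟩, a1, a2, a3, a4⟩ := hm0 true
    simp only at a1 a2
    subst a1 a2
    have hb := (b (f v) v).2 ⟨by rw [h.sN]; omega, hv⟩
    cases o
    · change σ (f v) = 0 at a4
      exact hb.1 a4
    · exact hb.2 ((hval _ hm a3 a4).2 hφ)
  · obtain ⟨a, b⟩ := kmp_side h hf hg P h1 h2 (fun d q1 q2 q3 q4 => hφ ((hval d q1 q2 q3).1 q4))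
    have b' : ∀ x, σ x ≠ 0 → ¬ P (x, true, true) := fun x hx hP => hv ((b x v).1 ⟨hx, hP⟩).2
    rintro ⟨x, s, o⟩ hd
    cases s <;> cases o
    · change 1 ≤ ρ (f.symm x) at hd
      have e3 : P (f.symm x, false, true) ↔ P (x, false, false) := h1 (x, false, false) hd
      rw [← e3]
      exact a _ (by omega)
    · change 1 ≤ ρ x at hd
      exact a _ (by omega)
    · change 1 ≤ σ (g.symm x) at hd
      have e3 : P (g.symm x, true, true) ↔ P (x, true, false) := h1 (x, true, false) hd
      rw [← e3]
      exact b' _ (by omega)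
    · change 1 ≤ σ x at hd
      exact b' _ (by omega)

theorem t_KMP : Stmt_KMP := fun V _ _ _ _ _ _ _ _ hf hg hc hN h => kempe (V := V) hN hf hg hc h

end Pool.ROS
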