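import Mathlib

/-!
# Road S: enumeration of a path

Two involutions `e, c` on a finite set, `e` without fixed points, `c` with exactly the two fixed
points `a, b`, and the whole set is connected: then it is a path from `a` to `b`.
-/

set_option autoImplicit false

namespace Pool.ROS

/-- The walk which starts at `a` and uses `e` and `c` alternately. -/
def walk {X : Type*} (e c : X → X) (a : X) : ℕ → X
  | 0 => a
  | i + 1 => if Even i then e (walk e c a i) else c (walk e c a i)

section

variable {X : Type*} {e c : X → X} {a b : X}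

lemma walk_succ (i : ℕ) :
    walk e c a (i + 1) = if Even i then e (walk e c a i) else c (walk e c a i) := rfl

lemma walk_pred (he : ∀ d, e (e d) = d) (hc : ∀ d, c (c d) = d) (i : ℕ) :
    walk e c a i = if Even i then e (walk e c a (i + 1)) else c (walk e c a (i + 1)) := by
  rw [walk_succ]
  split_ifs
  · rw [he]
  · rw [hc]

lemma walk_ne (he : ∀ d, e (e d) = d) (hc : ∀ d, c (c d) = d) (hne : ∀ d, e d ≠ d)
    (ha : c a = a) {M : ℕ} (hM : ∀ i, i < M → ¬ Even i → c (walk e c a i) ≠ walk e c a i) :
    ∀ i j, i < j → j ≤ M → walk e c a i ≠ walk e c a j := by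
  -- different parities
  have h1 : ∀ k i, i + (2 * k + 1) ≤ M → walk e c a i ≠ walk e c a (i + (2 * k + 1)) := by
    intro k
    induction k with
    | zero =>
      intro i hi h
      simp only [Nat.mul_zero, Nat.zero_add] at h hi
      rw [walk_succ] at h
      split_ifs at h with h2
      · exact hne _ h.symm
      · exact hM i (by omega) h2 h.symm
    | succ k ih =>
      intro i hi h
      have e1 : i + (2 * (k + 1) + 1) = (i + 1 + (2 * k + 1)) + 1 := by ring
      rw [e1] at h
      refine ih (i + 1) (by omega) ?_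
      have e2 : Even (i + 1 + (2 * k + 1)) ↔ Even i := by
        rw [show i + 1 + (2 * k + 1) = i + 2 * (k + 1) by ring, Nat.even_add]
        simp
      rw [walk_succ, walk_pred he hc (i + 1 + (2 * k + 1)), ← h]
      simp only [e2]
  -- the same parity
  have h2 : ∀ i k, i + 2 * (k + 1) ≤ M → walk e c a i ≠ walk e c a (i + 2 * (k + 1)) := by
    intro i
    induction i with
    | zero =>
      intro k hk h
      have e1 : 0 + 2 * (k + 1) = (2 * k + 1) + 1 := by ring
      rw [e1] at h
      have h3 : ¬ Even (2 * k + 1) := by simp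
      refine hM (2 * k + 1) (by omega) h3 ?_
      have h4 := walk_pred (a := a) he hc (2 * k + 1)
      rw [if_neg h3, ← h] at h4
      have h5 : walk e c a 0 = a := rfl
      rw [h5, ha] at h4
      rw [h4, ha]
    | succ i ih =>
      intro k hk h
      refine ih k (by omega) ?_
      have e1 : i + 1 + 2 * (k + 1) = (i + 2 * (k + 1)) + 1 := by ring
      rw [e1] at h
      have e2 : Even (i + 2 * (k + 1)) ↔ Even i := by
        rw [Nat.even_add]
        simp
      rw [walk_pred he hc i, walk_pred he hc (i + 2 * (k + 1)), h]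
      simp only [e2]
  intro i j hij hj
  rcases Nat.even_or_odd (j - i) with ⟨k, hk⟩ | ⟨k, hk⟩
  · obtain ⟨k', rfl⟩ : ∃ k', k = k' + 1 := ⟨k - 1, by omega⟩
    have : j = i + 2 * (k' + 1) := by omega
    rw [this]
    exact h2 i k' (by omega)
  · have : j = i + (2 * k + 1) := by omega
    rw [this]
    exact h1 k i (by omega)

/-- **Enumeration of a path.** -/
theorem path_enum [Finite X] (he : ∀ d, e (e d) = d) (hc : ∀ d, c (c d) = d)
    (hne : ∀ d, e d ≠ d) (hfix : ∀ d, c d = d ↔ d = a ∨ d = b)
    (conn : ∀ P : X → Prop, (∀ d, P (e d) ↔ P d) → (∀ d, P (c d) ↔ P d) → ∀ d d', P d ↔ P d') :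
    ∃ (M : ℕ) (w : ℕ → X), ¬ Even M ∧ w 0 = a ∧ w M = b ∧
      (∀ i, i < M → w (i + 1) = if Even i then e (w i) else c (w i)) ∧
      (∀ i j, i ≤ M → j ≤ M → w i = w j → i = j) ∧ ∀ d, ∃ i, i ≤ M ∧ w i = d := by
  classical
  have ha : c a = a := (hfix a).2 (Or.inl rfl)
  have hex : ∃ i, ¬ Even i ∧ c (walk e c a i) = walk e c a i := by
    by_contra hcon
    push Not at hcon
    obtain ⟨i, j, hij, h⟩ := Finite.exists_ne_map_eq_of_infinite (walk e c a)
    rcases Nat.lt_or_gt_of_ne hij with h1 | h1
    · exact walk_ne he hc hne ha (M := j) (fun i _ h2 => hcon i h2) i j h1 (le_refl _) h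
    · exact walk_ne he hc hne ha (M := i) (fun i _ h2 => hcon i h2) j i h1 (le_refl _) h.symm
  set M := Nat.find hex with hMdef
  obtain ⟨hM1, hM2⟩ := Nat.find_spec hex
  rw [← hMdef] at hM1 hM2
  have hmin : ∀ i, i < M → ¬ Even i → c (walk e c a i) ≠ walk e c a i := by
    intro i hi h1 h2
    exact Nat.find_min hex hi ⟨h1, h2⟩
  have hdist := walk_ne he hc hne ha hmin
  have hM0 : 0 < M := by
    rcases Nat.eq_zero_or_pos M with h | h
    · rw [h] at hM1
      simp at hM1
    · exact h
  refine ⟨M, walk e c a, hM1, rfl, ?_, fun i _ => walk_succ i, ?_, ?_⟩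
  · rcases (hfix _).1 hM2 with h | h
    · exact absurd h.symm (hdist 0 M hM0 (le_refl _))
    · exact h
  · intro i j hi hj h
    by_contra hij
    rcases Nat.lt_or_gt_of_ne hij with h1 | h1
    · exact hdist i j h1 hj h
    · exact hdist j i h1 hi h.symm
  · intro d
    have key := conn (fun d => ∃ i, i ≤ M ∧ walk e c a i = d) ?_ ?_ a d
    · exact key.1 ⟨0, Nat.zero_le _, rfl⟩
    · -- closed under `e`
      have cl : ∀ d, (∃ i, i ≤ M ∧ walk e c a i = d) → ∃ i, i ≤ M ∧ walk e c a i = e d := by
        rintro d ⟨i, hi, rfl⟩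
        by_cases h1 : Even i
        · have h2 : i ≠ M := fun h => hM1 (h ▸ h1)
          exact ⟨i + 1, by omega, by rw [walk_succ, if_pos h1]⟩
        · obtain ⟨j, rfl⟩ : ∃ j, i = j + 1 := ⟨i - 1, by
            rcases Nat.eq_zero_or_pos i with h | h
            · rw [h] at h1
              simp at h1
            · omega⟩
          have h2 : Even j := by
            by_contra h3
            exact h1 (by rw [Nat.even_add_one]; exact h3)
          exact ⟨j, by omega, by rw [walk_pred he hc j, if_pos h2]⟩
      intro d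
      exact ⟨fun h => by have := cl _ h; rwa [he] at this, cl d⟩
    · have cl : ∀ d, (∃ i, i ≤ M ∧ walk e c a i = d) → ∃ i, i ≤ M ∧ walk e c a i = c d := by
        rintro d ⟨i, hi, rfl⟩
        by_cases h1 : Even i
        · rcases Nat.eq_zero_or_pos i with h | h
          · subst h
            exact ⟨0, Nat.zero_le _, ha.symm⟩
          · obtain ⟨j, rfl⟩ : ∃ j, i = j + 1 := ⟨i - 1, by omega⟩
            have h2 : ¬ Even j := by
              rw [Nat.even_add_one] at h1
              exact h1
            exact ⟨j, by omega, by rw [walk_pred he hc j, if_neg h2]⟩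
        · by_cases h2 : i = M
          · subst h2
            exact ⟨M, le_refl _, hM2.symm⟩
          · exact ⟨i + 1, by omega, by rw [walk_succ, if_neg h1]⟩
      intro d
      exact ⟨fun h => by have := cl _ h; rwa [hc] at this, cl d⟩

end

end Pool.ROS
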