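import Pool.Agent.ROS.Theta

/-!
# Road S: there are no circuits in the tracks
-/

set_option autoImplicit false
set_option linter.unusedSectionVars false

namespace Pool.ROS

open Pool.GOD.PG

variable {V : Type*} [Fintype V] [DecidableEq V] {f g : Equiv.Perm V} {v : V} {N : ℕ}
  {ρ σ : V → ℕ}

/-- letters which are not on `D_0` -/
def IsK (f g : Equiv.Perm V) (ρ σ : V → ℕ) (x : V) : Prop := ∀ s o, 1 ≤ col f g ρ σ (x, s, o)

/-- letters on `D_0` -/
def Is0 (f g : Equiv.Perm V) (ρ σ : V → ℕ) (x : V) : Prop :=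
  ∀ s, ∃ d : Dt V, d.1 = x ∧ d.2.1 = s ∧ col f g ρ σ d = 1 ∧ col f g ρ σ (fl d) = 0

lemma dich (h : Chn f g v N ρ σ) {x : V} (hx : x ≠ v) : IsK f g ρ σ x ∨ Is0 f g ρ σ x := by
  have h1 := h.step x hx
  have h2 := h.cov.eq x hx
  by_cases h0 : ρ (f.symm x) = 0 ∨ ρ x = 0
  · right
    intro s
    cases s
    · rcases h0 with h0 | h0
      · exact ⟨(x, false, true), rfl, rfl, show ρ x = 1 by omega, h0⟩
      · exact ⟨(x, false, false), rfl, rfl, show ρ (f.symm x) = 1 by omega, h0⟩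
    · rcases h2 with ⟨h2, h3⟩ | ⟨h2, h3⟩ <;> rcases h0 with h0 | h0
      · exact ⟨(x, true, true), rfl, rfl, show σ x = 1 by omega, show σ (g.symm x) = 0 by omega⟩
      · exact ⟨(x, true, false), rfl, rfl, show σ (g.symm x) = 1 by omega, show σ x = 0 by omega⟩
      · exact ⟨(x, true, false), rfl, rfl, show σ (g.symm x) = 1 by omega, show σ x = 0 by omega⟩
      · exact ⟨(x, true, true), rfl, rfl, show σ x = 1 by omega, show σ (g.symm x) = 0 by omega⟩
  · left
    push Not at h0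
    intro s o
    cases s <;> cases o
    · show 1 ≤ ρ (f.symm x)
      omega
    · show 1 ≤ ρ x
      omega
    · show 1 ≤ σ (g.symm x)
      omega
    · show 1 ≤ σ x
      omega

lemma Trk.selK {m : V} {th : Dt V → Prop} (ht : Trk f g v m ρ σ th) {x : V} (hx : x ≠ v)
    (hK : IsK f g ρ σ x) (s : Bool) (t : Prop) : ∃ d : Dt V, d.1 = x ∧ d.2.1 = s ∧
      1 ≤ col f g ρ σ d ∧ 1 ≤ col f g ρ σ (fl d) ∧ (th d ↔ t) ∧ ¬ (th (fl d) ↔ t) := by
  have h1 := ht.tK (x, s, false) hx (hK s false) (hK s true)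
  have h2 : fl (x, s, false) = ((x, s, true) : Dt V) := rfl
  have h3 : fl (x, s, true) = ((x, s, false) : Dt V) := rfl
  rw [h2] at h1
  by_cases h4 : th (x, s, false) ↔ t
  · exact ⟨(x, s, false), rfl, rfl, hK _ _, hK _ _, h4, by rw [h2]; tauto⟩
  · exact ⟨(x, s, true), rfl, rfl, hK _ _, hK _ _, by tauto, by rw [h3]; tauto⟩

lemma q1 {a b t : Prop} (h : b ↔ ¬ a) : ¬ ((a ↔ t) ↔ (b ↔ t)) := by
  by_cases ha : a <;> by_cases hb : b <;> by_cases ht : t <;> simp_all

lemma q2 {a a' t w w' : Prop} (h : a' ↔ ¬ a) (h' : ¬ (w' ↔ w)) :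
    ¬ ((a ↔ t) ↔ w) ↔ ¬ ((a' ↔ t) ↔ w') := by
  by_cases ha : a <;> by_cases ha' : a' <;> by_cases ht : t <;> by_cases hw : w <;>
    by_cases hw' : w' <;> simp_all

lemma q3 {a b t : Prop} (h : b ↔ ¬ a) (h1 : a ↔ t) (h2 : b ↔ t) : False := by
  by_cases ha : a <;> by_cases hb : b <;> by_cases ht : t <;> simp_all

lemma xor_fl (E : Dt V → Prop) {x : V} {s : Bool} {d : Dt V} (h1 : d.1 = x) (h2 : d.2.1 = s) :
    ¬ (E (x, s, true) ↔ E (x, s, false)) ↔ ¬ (E d ↔ E (fl d)) := by
  obtain ⟨x', s', o⟩ := d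
  simp only at h1 h2
  subst h1 h2
  cases o
  · show _ ↔ ¬ (E (x', s', false) ↔ E (x', s', true))
    tauto
  · exact Iff.rfl

lemma mem_bd_E (E : Dt V → Prop) (e1 : ∀ d, E (nx f g d) ↔ E d) [DecidablePred E] (x : V) :
    (x ∈ bd f (Finset.univ.filter fun x => E (x, false, true)) ↔
      ¬ (E (x, false, true) ↔ E (x, false, false))) ∧
    (x ∈ bd g (Finset.univ.filter fun x => E (x, true, true)) ↔
      ¬ (E (x, true, true) ↔ E (x, true, false))) := by
  rw [mem_bd, mem_bd]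
  simp only [Finset.mem_filter, Finset.mem_univ, true_and]
  have e2 : E (f.symm x, false, true) ↔ E (x, false, false) := e1 (x, false, false)
  have e3 : E (g.symm x, true, true) ↔ E (x, true, false) := e1 (x, true, false)
  rw [e2, e3]
  exact ⟨Iff.rfl, Iff.rfl⟩

/-- The certificate of a letter of `D_0`. -/
lemma cert0 (h : Chn f g v N ρ σ) (A B : Finset V) (hA : ∀ x ∈ A, 1 ≤ ρ x)
    (hB : ∀ x ∈ B, 1 ≤ σ x) {z : V} (hz : Is0 f g ρ σ z) : Cert f g A B z := by
  classical
  refine ⟨_, _, ?_, ?_, h.cov.bd 0, ?_⟩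
  · rw [Finset.disjoint_left]
    intro x hx hx'
    simp only [Finset.mem_filter, Finset.mem_univ, true_and] at hx
    have := hA x hx'
    omega
  · rw [Finset.disjoint_left]
    intro x hx hx'
    simp only [Finset.mem_filter, Finset.mem_univ, true_and] at hx
    have := hB x hx'
    omega
  · rw [mem_bd]
    simp only [Finset.mem_filter, Finset.mem_univ, true_and]
    obtain ⟨⟨x, s, o⟩, h1, h2, h3, h4⟩ := hz false
    simp only at h1 h2
    subst h1 h2
    cases o
    · change ρ (f.symm x) = 1 at h3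
      change ρ x = 0 at h4
      omega
    · change ρ x = 1 at h3
      change ρ (f.symm x) = 0 at h4
      omega

/-- The tracks contain no circuits. -/
theorem pconn (h : Chn f g v N ρ σ) (hN : NN f g) {m : V} (hm : m ≠ v) (hm0 : Is0 f g ρ σ m)
    {th : Dt V → Prop} (ht : Trk f g v m ρ σ th) (t : Prop) (Z : Dt V → Prop)
    (z1 : ∀ d, Z d → 1 ≤ col f g ρ σ d ∧ (th d ↔ t) ∧ d.1 ≠ v ∧ d.1 ≠ m)
    (z2 : ∀ d, Z d → Z (nx f g d))
    (z3 : ∀ d d', Z d → d'.1 = d.1 → d'.2.1 = (!d.2.1) → 1 ≤ col f g ρ σ d' →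
      (th d' ↔ th d) → Z d') (d : Dt V) : ¬ Z d := by
  classical
  intro hd
  have hZn : ∀ d, Z (nx f g d) ↔ Z d := fun d => ⟨fun k => by
    have := z2 _ k
    rwa [nx_nx] at this, z2 d⟩
  -- not both darts at a point
  have hZf : ∀ d, Z d → ¬ Z (fl d) := by
    intro d k1 k2
    obtain ⟨a1, a2, a3, a4⟩ := z1 d k1
    obtain ⟨b1, b2, b3, b4⟩ := z1 _ k2
    exact q3 (ht.tK d a3 a1 b1) a2 b2
  -- the point of `Z` on the other side
  have hZo : ∀ d, Z d → ∃ d', Z d' ∧ d'.1 = d.1 ∧ d'.2.1 = !d.2.1 := by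
    intro d k1
    obtain ⟨a1, a2, a3, a4⟩ := z1 d k1
    rcases dich h a3 with hK | h0
    · obtain ⟨d', b1, b2, b3, b4, b5, b6⟩ := ht.selK a3 hK (!d.2.1) t
      exact ⟨d', z3 d d' k1 b1 b2 b3 (by rw [b5, a2]), b1, b2⟩
    · obtain ⟨d', b1, b2, b3, b4⟩ := h0 (!d.2.1)
      obtain ⟨d'', c1, c2, c3, c4⟩ := h0 d.2.1
      have hfl : col f g ρ σ (fl d) = 0 := by
        rcases eq_or_fl (d := d'') (d' := d) c1.symm c2.symm with e | e
        · rw [e, c4]
        · exfalso
          rw [e, c4] at a1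
          omega
      refine ⟨d', z3 d d' k1 b1 b2 (by omega) ?_, b1, b2⟩
      exact ht.tz d d' a3 a4 b1 b2 a1 (by omega) hfl
  have hEx : ∀ (x : V) (s : Bool), ¬ (Z (x, s, true) ↔ Z (x, s, false)) ↔
      ∃ d, Z d ∧ d.1 = x ∧ d.2.1 = s := by
    intro x s
    constructor
    · intro k
      by_cases k1 : Z (x, s, true)
      · exact ⟨_, k1, rfl, rfl⟩
      · by_cases k2 : Z (x, s, false)
        · exact ⟨_, k2, rfl, rfl⟩
        · exact absurd (iff_of_false k1 k2) k
    · rintro ⟨d, k1, k2, k3⟩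
      rw [xor_fl Z k2 k3]
      exact fun k => hZf d k1 (k.1 k1)
  set A := Finset.univ.filter fun x => Z (x, false, true) with hA
  set B := Finset.univ.filter fun x => Z (x, true, true) with hB
  have hbA : ∀ x, x ∈ bd f A ↔ ∃ d, Z d ∧ d.1 = x ∧ d.2.1 = false := fun x => by
    rw [hA, (mem_bd_E Z hZn x).1, hEx]
  have hbB : ∀ x, x ∈ bd g B ↔ ∃ d, Z d ∧ d.1 = x ∧ d.2.1 = true := fun x => by
    rw [hB, (mem_bd_E Z hZn x).2, hEx]
  have hAlt : Alt f g A B := by
    refine ⟨?_, ?_, ?_, ?_⟩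
    · obtain ⟨d1, k1, k2⟩ : ∃ d1, Z d1 ∧ d1.2.1 = false := by
        cases hs : d.2.1
        · exact ⟨d, hd, hs⟩
        · obtain ⟨d', k1, k2, k3⟩ := hZo d hd
          exact ⟨d', k1, by rw [k3, hs]; rfl⟩
      obtain ⟨x, s, o⟩ := d1
      simp only at k2
      subst k2
      cases o
      · refine ⟨f.symm x, ?_⟩
        rw [hA, Finset.mem_filter]
        exact ⟨Finset.mem_univ _, z2 _ k1⟩
      · refine ⟨x, ?_⟩
        rw [hA, Finset.mem_filter]
        exact ⟨Finset.mem_univ _, k1⟩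
    · intro x hx hfx
      rw [hA, Finset.mem_filter] at hx hfx
      exact hZf (f x, false, true) hfx.2 (z2 _ hx.2)
    · intro x hx hgx
      rw [hB, Finset.mem_filter] at hx hgx
      exact hZf (g x, true, true) hgx.2 (z2 _ hx.2)
    · ext x
      rw [hbA, hbB]
      constructor
      · rintro ⟨d, k1, k2, k3⟩
        obtain ⟨d', q1, q2, q3⟩ := hZo d k1
        exact ⟨d', q1, by rw [q2, k2], by rw [q3, k3]; rfl⟩
      · rintro ⟨d, k1, k2, k3⟩
        obtain ⟨d', q1, q2, q3⟩ := hZo d k1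
        exact ⟨d', q1, by rw [q2, k2], by rw [q3, k3]; rfl⟩
  obtain ⟨W, w1, w2⟩ := exists_W h hm (by
    obtain ⟨⟨x, s, o⟩, h1, h2, h3, h4⟩ := hm0 false
    simp only at h1 h2
    subst h1 h2
    cases o
    · exact Or.inr h4
    · exact Or.inl h4)
  -- the even subgraph which consists of the rest of the track, `v` and a part of `D_0`
  let E : Dt V → Prop := fun d => (1 ≤ col f g ρ σ d ∧ (th d ↔ t) ∧ ¬ Z d) ∨
    (col f g ρ σ d = 0 ∧ W d)
  have E1 : ∀ d, E (nx f g d) ↔ E d := by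
    intro d
    show ((1 ≤ col f g ρ σ (nx f g d) ∧ (th (nx f g d) ↔ t) ∧ ¬ Z (nx f g d)) ∨
      (col f g ρ σ (nx f g d) = 0 ∧ W (nx f g d))) ↔ ((1 ≤ col f g ρ σ d ∧ (th d ↔ t) ∧ ¬ Z d) ∨
      (col f g ρ σ d = 0 ∧ W d))
    rw [col_nx, hZn]
    by_cases k : col f g ρ σ d = 0
    · rw [w1 d k]
      simp [k]
    · rw [ht.tx d (by omega)]
      simp [k]
  have Epos : ∀ d, 1 ≤ col f g ρ σ d → (E d ↔ (th d ↔ t) ∧ ¬ Z d) := by
    intro d k
    show ((1 ≤ col f g ρ σ d ∧ (th d ↔ t) ∧ ¬ Z d) ∨ (col f g ρ σ d = 0 ∧ W d)) ↔ _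
    have : ¬ col f g ρ σ d = 0 := by omega
    simp [k, this]
  have Ezero : ∀ d, col f g ρ σ d = 0 → (E d ↔ W d) := by
    intro d k
    show ((1 ≤ col f g ρ σ d ∧ (th d ↔ t) ∧ ¬ Z d) ∨ (col f g ρ σ d = 0 ∧ W d)) ↔ _
    simp [k]
  have hv1 : ¬ (E (v, false, true) ↔ E (v, false, false)) := by
    rw [Ezero _ (col_v1 h true), Ezero _ (col_v1 h false)]
    have e1 := w2 (v, false, true) (col_v1 h true)
    have e0 : cc f g ρ σ v (v, false, true) = (v, false, false) := cc_v rfl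
    rw [e0] at e1
    simp only [true_or, not_true_eq_false, iff_false] at e1
    exact fun k => e1 k.symm
  have hv2 : ¬ (E (v, true, true) ↔ E (v, true, false)) := by
    have hp := h.pos
    rw [Epos _ (by rw [col_v2 h]; exact hp), Epos _ (by rw [col_v2 h]; exact hp)]
    have e1 : ¬ Z (v, true, true) := fun k => (z1 _ k).2.2.1 rfl
    have e2 : ¬ Z (v, true, false) := fun k => (z1 _ k).2.2.1 rfl
    simp only [e1, e2, not_false_eq_true, and_true]
    exact q1 ht.tv
  have hK : ∀ x, x ≠ v → IsK f g ρ σ x → ∀ s, (¬ (E (x, s, true) ↔ E (x, s, false)) ↔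
      ¬ ∃ d, Z d ∧ d.1 = x ∧ d.2.1 = s) := by
    intro x hx hK s
    obtain ⟨d, b1, b2, b3, b4, b5, b6⟩ := ht.selK hx hK s t
    rw [xor_fl E b1 b2, Epos d b3, Epos _ b4]
    have e1 : (∃ d, Z d ∧ d.1 = x ∧ d.2.1 = s) ↔ Z d := by
      constructor
      · rintro ⟨d', c1, c2, c3⟩
        rcases eq_or_fl (d := d) (d' := d') (by rw [c2, b1]) (by rw [c3, b2]) with e | e
        · rwa [← e]
        · rw [e] at c1
          exact absurd (z1 _ c1).2.1 b6
      · intro k
        exact ⟨d, k, b1, b2⟩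
    rw [e1, eq_true b5, eq_false b6]
    simp
  have hE : bd f (Finset.univ.filter fun x => E (x, false, true)) =
      bd g (Finset.univ.filter fun x => E (x, true, true)) := by
    ext x
    rw [(mem_bd_E E E1 x).1, (mem_bd_E E E1 x).2]
    by_cases hx : x = v
    · subst hx
      exact iff_of_true hv1 hv2
    · rcases dich h hx with k | k
      · rw [hK x hx k, hK x hx k, ← hbA, ← hbB, hAlt.bd]
      · obtain ⟨d, b1, b2, b3, b4⟩ := k false
        obtain ⟨d', c1, c2, c3, c4⟩ := k true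
        rw [xor_fl E b1 b2, xor_fl E c1 c2, Epos d (by omega), Epos d' (by omega), Ezero _ b4,
          Ezero _ c4]
        have hc : cc f g ρ σ v (fl d) = fl d' := by
          apply cc_eq h (by rw [fl_fst, b1]; exact hx) (Or.inl b4)
          · rw [fl_fst, fl_fst, b1, c1]
          · rw [fl_side, fl_side, b2, c2]
            rfl
          · rw [b4, c4]
        have e1 := w2 (fl d) b4
        rw [hc, fl_fst, b1] at e1
        by_cases hxm : x = m
        · subst hxm
          have e2 := ht.tm d d' b1 c1 (by rw [b2, c2]; rfl) (by omega) (by omega)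
          have e3 : ¬ Z d := fun k => (z1 _ k).2.2.2 b1
          have e4 : ¬ Z d' := fun k => (z1 _ k).2.2.2 c1
          simp only [or_true, not_true_eq_false, iff_false] at e1
          simp only [e3, e4, not_false_eq_true, and_true]
          exact q2 e2 e1
        · have e2 := ht.tz d d' (by rw [b1]; exact hx) (by rw [b1]; exact hxm) (by rw [b1, c1])
            (by rw [b2, c2]; rfl) (by omega) (by omega) b4
          have e3 : Z d ↔ Z d' := by
            constructor
            · intro k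
              exact z3 d d' k (by rw [b1, c1]) (by rw [b2, c2]; rfl) (by omega) e2
            · intro k
              exact z3 d' d k (by rw [b1, c1]) (by rw [b2, c2]; rfl) (by omega) e2.symm
          simp only [hx, hxm, or_self, not_false_eq_true, iff_true] at e1
          rw [e1, e2, e3]
  have hdis1 : Disjoint (Finset.univ.filter fun x => E (x, false, true)) A := by
    rw [Finset.disjoint_left]
    intro x hx hx'
    rw [hA, Finset.mem_filter] at hx'
    rw [Finset.mem_filter] at hx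
    exact ((Epos _ (z1 _ hx'.2).1).1 hx.2).2 hx'.2
  have hdis2 : Disjoint (Finset.univ.filter fun x => E (x, true, true)) B := by
    rw [Finset.disjoint_left]
    intro x hx hx'
    rw [hB, Finset.mem_filter] at hx'
    rw [Finset.mem_filter] at hx
    exact ((Epos _ (z1 _ hx'.2).1).1 hx.2).2 hx'.2
  refine hN A B ⟨hAlt, fun z => ?_⟩
  by_cases hz : z ∈ bd f A
  · exact cert_of_mem hAlt.bd hz
  · by_cases hzv : z = v
    · refine ⟨_, _, hdis1, hdis2, hE, ?_⟩
      rw [(mem_bd_E E E1 z).1, hzv]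
      exact hv1
    · rcases dich h hzv with k | k
      · refine ⟨_, _, hdis1, hdis2, hE, ?_⟩
        rw [(mem_bd_E E E1 z).1, hK z hzv k, ← hbA]
        exact hz
      · refine cert0 h A B (fun x hx => ?_) (fun x hx => ?_) k
        · rw [hA, Finset.mem_filter] at hx
          exact (z1 _ hx.2).1
        · rw [hB, Finset.mem_filter] at hx
          exact (z1 _ hx.2).1

end Pool.ROS
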