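import Pool.Agent.ROS.Final
import Pool.Agent.ROS.Finc

/-!
# Q1 of MP_7b7176_co
-/

set_option autoImplicit false

namespace Pool.ROS

open Pool.GOD Pool.GOD.PG

/-- All chains have at most three circuits. -/
theorem t3 : Stmt_T3 := t3' t_FINC

/-- Goddyn's question. -/
theorem goddyn_q1 : MGraph.Q1 := MGraph.q1_of_T3 t3

end Pool.ROS
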