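import Pool.Agent.ROS.Stmts
import Pool.Agent.ROS.Path

/-!
# Road S: the positions of the darts on the two tracks
-/

set_option autoImplicit false
set_option linter.unusedSectionVars false

namespace Pool.ROS

open Pool.GOD.PG

section

variable {V : Type} [Fintype V] [DecidableEq V] {f g : Equiv.Perm V} {v m : V} {N : ℕ}
  {ρ σ : V → ℕ} {th : Dt V → Prop}

/-- the darts of a track -/
def OnT (f g : Equiv.Perm V) (ρ σ : V → ℕ) (th : Dt V → Prop) (t : Prop) (d : Dt V) : Prop :=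
  1 ≤ col f g ρ σ d ∧ (th d ↔ t)

lemma onT_fl (h : Chn f g v N ρ σ) (ht : Trk f g v m ρ σ th) {t : Prop} {d : Dt V}
    (hd : OnT f g ρ σ th t d) : ¬ OnT f g ρ σ th t (fl d) := by
  intro hd'
  obtain ⟨h1, h2⟩ := hd
  obtain ⟨h3, h4⟩ := hd'
  by_cases hv : d.1 = v
  · obtain ⟨x, s, o⟩ := d
    simp only at hv
    subst hv
    cases s
    · rw [col_v1 h] at h1
      omega
    · have h5 := ht.tv
      cases o
      · change th (x, true, true) ↔ t at h4
        exact q3 h5 h4 h2 |>.elim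
      · change th (x, true, false) ↔ t at h4
        exact q3 h5 h2 h4 |>.elim
  · exact q3 (ht.tK d hv h1 h3) h2 h4

lemma onT_v (h : Chn f g v N ρ σ) (ht : Trk f g v m ρ σ th) {t : Prop} {d d' : Dt V}
    (hd : OnT f g ρ σ th t d) (hd' : OnT f g ρ σ th t d') (h1 : d.1 = v) (h2 : d'.1 = v) :
    d' = d := by
  have hs : ∀ d : Dt V, OnT f g ρ σ th t d → d.1 = v → d.2.1 = true := by
    rintro ⟨x, s, o⟩ k1 k2
    simp only at k2
    subst k2
    cases s
    · have := k1.1
      rw [col_v1 h] at this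
      omega
    · rfl
  rcases eq_or_fl (d := d) (d' := d') (by rw [h1, h2]) (by rw [hs _ hd h1, hs _ hd' h2]) with e | e
  · exact e
  · rw [e] at hd'
    exact absurd hd' (onT_fl h ht hd)

lemma onT_m (h : Chn f g v N ρ σ) (ht : Trk f g v m ρ σ th) {t : Prop} {d d' : Dt V}
    (hd : OnT f g ρ σ th t d) (hd' : OnT f g ρ σ th t d') (h1 : d.1 = m) (h2 : d'.1 = m) :
    d' = d := by
  by_cases hs : d'.2.1 = d.2.1
  · rcases eq_or_fl (d := d) (d' := d') (by rw [h1, h2]) hs with e | e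
    · exact e
    · rw [e] at hd'
      exact absurd hd' (onT_fl h ht hd)
  · have hs' : d'.2.1 = !d.2.1 := by
      cases k1 : d'.2.1 <;> cases k2 : d.2.1 <;> simp_all
    exact (q3 (ht.tm d d' h1 h2 hs' hd.1 hd'.1) hd.2 hd'.2).elim

lemma onT_other (h : Chn f g v N ρ σ) (ht : Trk f g v m ρ σ th) {t : Prop} {d : Dt V}
    (hd : OnT f g ρ σ th t d) (hv : d.1 ≠ v) (hm : d.1 ≠ m) :
    ∃ d', OnT f g ρ σ th t d' ∧ d'.1 = d.1 ∧ d'.2.1 = !d.2.1 := by
  obtain ⟨a1, a2⟩ := hd
  rcases dich h hv with hK | h0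
  · obtain ⟨d', b1, b2, b3, b4, b5, b6⟩ := ht.selK hv hK (!d.2.1) t
    exact ⟨d', ⟨b3, b5⟩, b1, b2⟩
  · obtain ⟨d', b1, b2, b3, b4⟩ := h0 (!d.2.1)
    have hv' : d'.1 ≠ v := by rw [b1]; exact hv
    have hm' : d'.1 ≠ m := by rw [b1]; exact hm
    have k : th d ↔ th d' := ht.tz d' d hv' hm' b1.symm (by rw [b2, Bool.not_not]) (by omega) a1 b4
    exact ⟨d', ⟨by omega, by rw [← k]; exact a2⟩, b1, b2⟩

/-- the numbering of one track -/
theorem track (h : Chn f g v N ρ σ) (hN : NN f g) (hmv : m ≠ v) (hm0 : Is0 f g ρ σ m)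
    (ht : Trk f g v m ρ σ th) (t : Prop) : ∃ p : Dt V → ℕ,
      (∀ d d', OnT f g ρ σ th t d → OnT f g ρ σ th t d' → p d' = p d → d' = d) ∧
      (∀ d, OnT f g ρ σ th t d →
        (Even (p d) ∧ p (nx f g d) = p d + 1) ∨ (Odd (p d) ∧ p d = p (nx f g d) + 1)) ∧
      (∀ d d', OnT f g ρ σ th t d → OnT f g ρ σ th t d' → d.1 ≠ v → d.1 ≠ m → d'.1 = d.1 →
        d'.2.1 = (!d.2.1) →
        (Odd (p d) ∧ p d' = p d + 1) ∨ (Odd (p d') ∧ p d = p d' + 1)) ∧
      (∀ d, OnT f g ρ σ th t d → d.1 = v → p d = 0) ∧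
      (∀ d d', OnT f g ρ σ th t d → OnT f g ρ σ th t d' → d.1 = m → p d' ≤ p d) := by
  classical
  have hpos := h.pos
  -- the end darts
  obtain ⟨a, haT, ha⟩ : ∃ a, OnT f g ρ σ th t a ∧ a.1 = v := by
    have hc : ∀ o : Bool, 1 ≤ col f g ρ σ (v, true, o) := fun o => by
      rw [col_v2 h]; exact hpos
    have htv := ht.tv
    by_cases h1 : th (v, true, true) ↔ t
    · exact ⟨(v, true, true), ⟨hc _, h1⟩, rfl⟩
    · exact ⟨(v, true, false), ⟨hc _, by tauto⟩, rfl⟩
  obtain ⟨b, hbT, hb⟩ : ∃ b, OnT f g ρ σ th t b ∧ b.1 = m := by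
    obtain ⟨d, h1, h2, h3, h4⟩ := hm0 false
    obtain ⟨d', k1, k2, k3, k4⟩ := hm0 true
    have htm := ht.tm d d' h1 k1 (by rw [h2, k2]; rfl) (by omega) (by omega)
    by_cases h5 : th d ↔ t
    · exact ⟨d, ⟨by omega, h5⟩, h1⟩
    · exact ⟨d', ⟨by omega, by tauto⟩, k1⟩
  let R : Dt V → Bool := fun d => decide (OnT f g ρ σ th t d)
  have hR : ∀ d d' : Dt V, OnT f g ρ σ th t d → OnT f g ρ σ th t d' → d'.1 = d.1 →
      d'.2.1 = (!d.2.1) → mt R d = d' := by
    intro d d' k1 k2 k3 k4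
    refine mt_eq R k3 k4 ?_ ?_
    · simp [R, k1, k2]
    · simp [R, k1, onT_fl h ht k2]
  let q : Dt V → Dt V := fun d => if d.1 = v ∨ d.1 = m then d else mt R d
  have hq0 : ∀ d : Dt V, (d.1 = v ∨ d.1 = m) → q d = d := fun d k => if_pos k
  have hq1 : ∀ d d' : Dt V, OnT f g ρ σ th t d → OnT f g ρ σ th t d' → d.1 ≠ v → d.1 ≠ m →
      d'.1 = d.1 → d'.2.1 = (!d.2.1) → q d = d' := by
    intro d d' k1 k2 k3 k4 k5 k6
    show (if d.1 = v ∨ d.1 = m then d else mt R d) = d'
    rw [if_neg (by tauto)]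
    exact hR d d' k1 k2 k5 k6
  have hqT : ∀ d, OnT f g ρ σ th t d → OnT f g ρ σ th t (q d) := by
    intro d hd
    by_cases k : d.1 = v ∨ d.1 = m
    · rw [hq0 d k]
      exact hd
    · push Not at k
      obtain ⟨d', k1, k2, k3⟩ := onT_other h ht hd k.1 k.2
      rw [hq1 d d' hd k1 k.1 k.2 k2 k3]
      exact k1
  have hqq : ∀ d, OnT f g ρ σ th t d → q (q d) = d := by
    intro d hd
    by_cases k : d.1 = v ∨ d.1 = m
    · rw [hq0 d k, hq0 d k]
    · push Not at k
      obtain ⟨d', k1, k2, k3⟩ := onT_other h ht hd k.1 k.2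
      rw [hq1 d d' hd k1 k.1 k.2 k2 k3]
      exact hq1 d' d k1 hd (by rw [k2]; exact k.1) (by rw [k2]; exact k.2) k2.symm
        (by rw [k3, Bool.not_not])
  have hnT : ∀ d, OnT f g ρ σ th t d → OnT f g ρ σ th t (nx f g d) := fun d hd =>
    ⟨by rw [col_nx]; exact hd.1, by rw [ht.tx d hd.1]; exact hd.2⟩
  obtain ⟨p, p1, p2, p3, p4, p5⟩ := path (X := {d : Dt V // OnT f g ρ σ th t d})
    (fun d => ⟨nx f g d.1, hnT _ d.2⟩) (fun d => ⟨q d.1, hqT _ d.2⟩)
    (fun d => Subtype.ext (nx_nx _)) (fun d hd => nx_ne d.1 (congrArg Subtype.val hd))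
    (fun d => Subtype.ext (hqq _ d.2)) ⟨a, haT⟩ ⟨b, hbT⟩
    (fun k => hmv (by rw [← hb, ← ha]; exact congrArg (fun d => d.1.1) k.symm)) (by
      rintro ⟨d, hd⟩
      simp only [Subtype.mk.injEq]
      constructor
      · intro k
        by_cases k1 : d.1 = v
        · exact Or.inl (onT_v h ht haT hd ha k1)
        · by_cases k2 : d.1 = m
          · exact Or.inr (onT_m h ht hbT hd hb k2)
          · exfalso
            obtain ⟨d', k3, k4, k5⟩ := onT_other h ht hd k1 k2
            rw [hq1 d d' hd k3 k1 k2 k4 k5] at k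
            rw [k] at k5
            cases k6 : d.2.1 <;> rw [k6] at k5 <;> simp at k5
      · rintro (rfl | rfl)
        · exact hq0 _ (Or.inl ha)
        · exact hq0 _ (Or.inr hb)) (by
      intro Z k1 k2 k3 k4 ⟨d, hd⟩ k5
      refine pconn h hN hmv hm0 ht t (fun d => ∃ hd : OnT f g ρ σ th t d, Z ⟨d, hd⟩) ?_ ?_ ?_ d
        ⟨hd, k5⟩
      · rintro e ⟨he, hZ⟩
        refine ⟨he.1, he.2, ?_, ?_⟩
        · intro k6
          have : e = a := onT_v h ht haT he ha k6
          subst this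
          exact k1 hZ
        · intro k6
          have : e = b := onT_m h ht hbT he hb k6
          subst this
          exact k2 hZ
      · rintro e ⟨he, hZ⟩
        exact ⟨hnT e he, k3 _ hZ⟩
      · rintro e e' ⟨he, hZ⟩ l1 l2 l3 l4
        have hv : e.1 ≠ v := by
          intro k6
          have : e = a := onT_v h ht haT he ha k6
          subst this
          exact k1 hZ
        have hm : e.1 ≠ m := by
          intro k6
          have : e = b := onT_m h ht hbT he hb k6
          subst this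
          exact k2 hZ
        have he' : OnT f g ρ σ th t e' := ⟨l3, by rw [l4]; exact he.2⟩
        have k7 := k4 _ hZ
        have k8 : q e = e' := hq1 e e' he he' hv hm l1 l2
        refine ⟨he', ?_⟩
        have k9 : (⟨q e, hqT e he⟩ : {d : Dt V // OnT f g ρ σ th t d}) = ⟨e', he'⟩ :=
          Subtype.ext k8
        rw [← k9]
        exact k7)
  -- every position is attained
  have hsur : ∀ n, n ≤ p ⟨b, hbT⟩ → ∃ d, p d = n := by
    intro n
    induction n with
    | zero => exact fun _ => ⟨_, p2⟩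
    | succ n ih =>
      intro hn
      obtain ⟨d, hd⟩ := ih (by omega)
      rcases Nat.even_or_odd n with k | k
      · exact ⟨_, by rw [p3 d (by rw [hd]; exact k), hd]⟩
      · have hdb : d ≠ ⟨b, hbT⟩ := by
          rintro rfl
          omega
        exact ⟨_, by rw [p4 d (by rw [hd]; exact k) hdb, hd]⟩
  let p' : Dt V → ℕ := fun d => if hd : OnT f g ρ σ th t d then p ⟨d, hd⟩ else 0
  have hp' : ∀ d (hd : OnT f g ρ σ th t d), p' d = p ⟨d, hd⟩ := fun d hd => dif_pos hd
  refine ⟨p', ?_, ?_, ?_, ?_, ?_⟩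
  · intro d d' hd hd' k
    rw [hp' d hd, hp' d' hd'] at k
    exact congrArg Subtype.val (p1 k)
  · intro d hd
    rw [hp' d hd, hp' _ (hnT d hd)]
    rcases Nat.even_or_odd (p ⟨d, hd⟩) with k | k
    · exact Or.inl ⟨k, p3 _ k⟩
    · right
      refine ⟨k, ?_⟩
      obtain ⟨j, hj⟩ := k
      obtain ⟨d0, hd0⟩ := hsur (2 * j) (by
        have := p5 ⟨d, hd⟩
        omega)
      have k1 := p3 d0 (by rw [hd0]; exact even_two_mul j)
      have k2 := p1 (k1.trans (by rw [hd0, hj]) : _ = p ⟨d, hd⟩)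
      have k3 : d0.1 = nx f g d := by
        have := congrArg (fun e => nx f g e.1) k2
        simpa [nx_nx] using this
      have k4 : (⟨nx f g d, hnT d hd⟩ : {d : Dt V // OnT f g ρ σ th t d}) = d0 :=
        Subtype.ext k3.symm
      rw [k4, hd0, hj]
  · intro d d' hd hd' hv hm k1 k2
    rw [hp' d hd, hp' _ hd']
    have k8 : q d = d' := hq1 d d' hd hd' hv hm k1 k2
    have k9 : (⟨q d, hqT d hd⟩ : {d : Dt V // OnT f g ρ σ th t d}) = ⟨d', hd'⟩ :=
      Subtype.ext k8
    rcases Nat.even_or_odd (p ⟨d, hd⟩) with k | k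
    · right
      have hne : p ⟨d, hd⟩ ≠ 0 := by
        intro k0
        have := p1 (k0.trans p2.symm)
        exact hv (by rw [← ha]; exact congrArg (fun e => e.1.1) this)
      obtain ⟨j, hj⟩ := k
      obtain ⟨d0, hd0⟩ := hsur (2 * j - 1) (by
        have := p5 ⟨d, hd⟩
        omega)
      have hodd : Odd (p d0) := ⟨j - 1, by omega⟩
      have k3 := p4 d0 hodd (by
        rintro rfl
        have := p5 ⟨d, hd⟩
        omega)
      have k4 := p1 (k3.trans (by rw [hd0, hj]; omega) : _ = p ⟨d, hd⟩)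
      have k5 : q d0.1 = d := congrArg Subtype.val k4
      have k6 : d0 = ⟨d', hd'⟩ := by
        apply Subtype.ext
        rw [← hqq d0.1 d0.2, k5, k8]
      rw [← k6]
      exact ⟨hodd, by omega⟩
    · left
      refine ⟨k, ?_⟩
      rw [← k9]
      exact p4 _ k (fun k0 => hm (by rw [← hb]; exact congrArg (fun e => e.1.1) k0))
  · intro d hd hv
    rw [hp' d hd]
    have : d = a := onT_v h ht haT hd ha hv
    subst this
    exact p2
  · intro d d' hd hd' hm
    rw [hp' d hd, hp' _ hd']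
    have : d = b := onT_m h ht hbT hd hb hm
    subst this
    exact p5 _

end

/-- REAL -/
theorem t_REAL87 : Stmt_REAL := by
  classical
  intro V _ _ f g v m N ρ σ th h hN hmv hm0 ht
  obtain ⟨p, a1, a2, a3, a4, a5⟩ := track h hN hmv hm0 ht True
  obtain ⟨r, b1, b2, b3, b4, b5⟩ := track h hN hmv hm0 ht False
  have hT : ∀ d, 1 ≤ col f g ρ σ d → th d → OnT f g ρ σ th True d := fun d k1 k2 =>
    ⟨k1, iff_true_intro k2⟩
  have hF : ∀ d, 1 ≤ col f g ρ σ d → ¬ th d → OnT f g ρ σ th False d := fun d k1 k2 =>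
    ⟨k1, iff_of_false k2 id⟩
  refine ⟨fun d => if th d then p d else r d, ⟨?_, ?_, ?_, ?_, ?_⟩⟩
  · intro d d' k1 k2 k3 k4
    by_cases k : th d
    · have k' : th d' := k3.mpr k
      simp only [k, k', if_true] at k4
      exact a1 d d' (hT _ k1 k) (hT _ k2 k') k4
    · have k' : ¬ th d' := fun k5 => k (k3.mp k5)
      simp only [k, k', if_false] at k4
      exact b1 d d' (hF _ k1 k) (hF _ k2 k') k4
  · intro d k1
    have k3 := ht.tx d k1
    by_cases k : th d
    · have k' : th (nx f g d) := k3.mpr k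
      simp only [k, k', if_true]
      exact a2 d (hT _ k1 k)
    · have k' : ¬ th (nx f g d) := fun k5 => k (k3.mp k5)
      simp only [k, k', if_false]
      exact b2 d (hF _ k1 k)
  · intro d d' hv hm e1 e2 k1 k2 k3
    by_cases k : th d
    · have k' : th d' := k3.mpr k
      simp only [k, k', if_true]
      exact a3 d d' (hT _ k1 k) (hT _ k2 k') hv hm e1 e2
    · have k' : ¬ th d' := fun k5 => k (k3.mp k5)
      simp only [k, k', if_false]
      exact b3 d d' (hF _ k1 k) (hF _ k2 k') hv hm e1 e2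
  · intro d hv k1
    by_cases k : th d
    · simp only [k, if_true]
      exact a4 d (hT _ k1 k) hv
    · simp only [k, if_false]
      exact b4 d (hF _ k1 k) hv
  · intro d d' hm k1 k2 k3
    by_cases k : th d
    · have k' : th d' := k3.mpr k
      simp only [k, k', if_true]
      exact a5 d d' (hT _ k1 k) (hT _ k2 k') hm
    · have k' : ¬ th d' := fun k5 => k (k3.mp k5)
      simp only [k, k', if_false]
      exact b5 d d' (hF _ k1 k) (hF _ k2 k') hm

end Pool.ROS
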