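import Pool.Agent.ROS.Base

/-!
# Road S: segments of a circuit
-/

set_option autoImplicit false
set_option linter.unusedSectionVars false

namespace Pool.ROS

open Pool.GOD.PG

lemma seg_aux (H H' A p q r s : Prop) (n1 : ¬ (p ∧ q)) (n2 : ¬ (p ∧ r)) (n3 : ¬ (q ∧ s))
    (n4 : ¬ (r ∧ s)) (h : (H' ↔ H) ↔ (A ↔ (p ∨ q))) :
    (¬ (H' ↔ (q ∨ s)) ↔ ¬ (H ↔ (p ∨ r))) ↔ (A ↔ (r ∨ s)) := by
  by_cases hp : p <;> by_cases hq : q <;> by_cases hr : r <;> by_cases hs : s <;>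
    by_cases hA : A <;> by_cases hH : H <;> by_cases hH' : H' <;>
    simp only [hp, hq, hr, hs, hA, hH, hH', and_self, not_true_eq_false, not_false_eq_true,
      and_true, true_and, and_false, false_and, or_self, or_true, or_false, true_or, false_or,
      iff_self, iff_true, iff_false, true_iff, false_iff] at n1 n2 n3 n4 h ⊢

/-- On a circuit (darts `X`, edges `{d, e d}`, points `{d, c d}`) there is a set of edges which
changes exactly at the points `{a, c a}` and `{b, c b}`. -/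
theorem seg {X : Type*} (e c : X → X) (he : ∀ d, e (e d) = d) (hc : ∀ d, c (c d) = d)
    (hne : ∀ d, e d ≠ d) (hnc : ∀ d, c d ≠ d)
    (conn : ∀ P : X → Prop, (∀ d, P (e d) ↔ P d) → (∀ d, P (c d) ↔ P d) → ∀ d d', P d ↔ P d')
    (a b : X) : ∃ h : X → Prop, (∀ d, h (e d) ↔ h d) ∧
      ∀ d, (h (c d) ↔ h d) ↔ ((d = a ∨ d = c a) ↔ (d = b ∨ d = c b)) := by
  have key : ∀ x y : X, (∃ h : X → Prop, (∀ d, h (e d) ↔ h d) ∧
      ∀ d, (h (c d) ↔ h d) ↔ ((d = a ∨ d = c a) ↔ (d = x ∨ d = c x))) →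
      y = e x ∨ y = c x → ∃ h : X → Prop, (∀ d, h (e d) ↔ h d) ∧
      ∀ d, (h (c d) ↔ h d) ↔ ((d = a ∨ d = c a) ↔ (d = y ∨ d = c y)) := by
    rintro x y ⟨h, h1, h2⟩ (rfl | rfl)
    · refine ⟨fun d => ¬ (h d ↔ (d = x ∨ d = e x)), fun d => ?_, fun d => ?_⟩
      · have e1 : e d = x ↔ d = e x := ⟨fun h => by rw [← h, he], fun h => by rw [h, he]⟩
        have e2 : e d = e x ↔ d = x := ⟨fun h => by rw [← he d, h, he], fun h => by rw [h]⟩
        simp only [h1, e1, e2, or_comm]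
      · have e1 : c d = x ↔ d = c x := ⟨fun h => by rw [← h, hc], fun h => by rw [h, hc]⟩
        have e2 : c d = e x ↔ d = c (e x) := ⟨fun h => by rw [← h, hc], fun h => by rw [h, hc]⟩
        have n1 : ¬ (d = x ∧ d = c x) := fun ⟨p, q⟩ => hnc x (by rw [← q, p])
        have n2 : ¬ (d = x ∧ d = e x) := fun ⟨p, q⟩ => hne x (by rw [← q, p])
        have n3 : ¬ (d = c x ∧ d = c (e x)) := fun ⟨p, q⟩ => hne x (by
          rw [← hc (e x), ← q, p, hc])
        have n4 : ¬ (d = e x ∧ d = c (e x)) := fun ⟨p, q⟩ => hnc (e x) (by rw [← q, p])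
        simp only [e1, e2]
        exact seg_aux _ _ _ _ _ _ _ n1 n2 n3 n4 (h2 d)
    · refine ⟨h, h1, fun d => ?_⟩
      rw [h2, hc]
      tauto
  have h0 : ∃ h : X → Prop, (∀ d, h (e d) ↔ h d) ∧
      ∀ d, (h (c d) ↔ h d) ↔ ((d = a ∨ d = c a) ↔ (d = a ∨ d = c a)) :=
    ⟨fun _ => False, fun _ => Iff.rfl, fun d => by simp⟩
  refine (conn (fun x => ∃ h : X → Prop, (∀ d, h (e d) ↔ h d) ∧
      ∀ d, (h (c d) ↔ h d) ↔ ((d = a ∨ d = c a) ↔ (d = x ∨ d = c x))) (fun x => ⟨fun h => ?_,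
      fun h => ?_⟩) (fun x => ⟨fun h => ?_, fun h => ?_⟩) a b).1 h0
  · exact key (e x) x h (Or.inl (he x).symm)
  · exact key x (e x) h (Or.inl rfl)
  · exact key (c x) x h (Or.inr (hc x).symm)
  · exact key x (c x) h (Or.inr rfl)

end Pool.ROS
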