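import Pool.Agent.ROS.Pconn
import Pool.Agent.GSP.DefsST

/-!
# Road S: the signed permutation of a chain, statements of the last pieces

`i = false` is the track with `th`, `i = true` is the track with `¬ th`.
-/

set_option autoImplicit false
set_option linter.unusedSectionVars false

namespace Pool.GS

/-- `{a, b} = {j, j + 1}` -/
def Nb (j a b : ℕ) : Prop := (a = j ∧ b = j + 1) ∨ (a = j + 1 ∧ b = j)

/-- A colouring of the gaps: `c i a` is the colour of the gap of `P_i` after `a`; the two gaps at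
`r_1` have the colour `n`, the two gaps at `r_2` have the colour `1`, and the two gaps at each of
the two points of a letter have the colours `j` and `j + 1` for some `j ≥ 1`. -/
structure SP.Clr {Λ : Type} [Fintype Λ] [DecidableEq Λ] (sp : SP Λ) (S : Finset Λ)
    (c : Bool → Option Λ → ℕ) (n : ℕ) : Prop where
  root : ∀ i, c i none = n
  last : ∀ i a, sp.Cons i S a none → c i a = 1
  step : ∀ x ∈ S, ∀ a a', sp.Cons false S a (some x) → sp.Cons true S a' (some x) → ∃ j, 1 ≤ j ∧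
    Nb j (if sp.o false x then c false a else c false (some x))
      (if sp.o true x then c true a' else c true (some x)) ∧
    Nb j (if sp.o false x then c false (some x) else c false a)
      (if sp.o true x then c true (some x) else c true a')

/-- SUM: without a good circuit the two root colours are close or `S` is a direct sum. -/
def Stmt_SUM : Prop :=
  ∀ (Λ : Type) [Fintype Λ] [DecidableEq Λ] (sp : SP Λ) (S : Finset Λ) (c : Bool → Option Λ → ℕ)
    (n : ℕ), sp.Clr S c n → (¬∃ Z, sp.Gd S Z) → n ≤ 2 ∨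
      ∃ S₁ S₂ : Finset Λ, S₁.Nonempty ∧ S₂.Nonempty ∧ S = S₁ ∪ S₂ ∧
        ∀ x ∈ S₁, ∀ y ∈ S₂, ∀ i, sp.k i x < sp.k i y

end Pool.GS

namespace Pool.ROS

open Pool.GOD.PG

section

variable {V : Type} [Fintype V] [DecidableEq V]

/-- The positions of the darts on the two tracks: the edge number `g` has the darts `2 g` and
`2 g + 1`. -/
structure Rl (f g : Equiv.Perm V) (v m : V) (ρ σ : V → ℕ) (th : Dt V → Prop) (p : Dt V → ℕ) :
    Prop where
  inj : ∀ d d', 1 ≤ col f g ρ σ d → 1 ≤ col f g ρ σ d' → (th d' ↔ th d) → p d' = p d → d' = d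
  nx : ∀ d, 1 ≤ col f g ρ σ d →
    (Even (p d) ∧ p (nx f g d) = p d + 1) ∨ (Odd (p d) ∧ p d = p (nx f g d) + 1)
  ps : ∀ d d', d.1 ≠ v → d.1 ≠ m → d'.1 = d.1 → d'.2.1 = (!d.2.1) → 1 ≤ col f g ρ σ d →
    1 ≤ col f g ρ σ d' → (th d' ↔ th d) →
    (Odd (p d) ∧ p d' = p d + 1) ∨ (Odd (p d') ∧ p d = p d' + 1)
  pv : ∀ d, d.1 = v → 1 ≤ col f g ρ σ d → p d = 0
  pm : ∀ d d', d.1 = m → 1 ≤ col f g ρ σ d → 1 ≤ col f g ρ σ d' → (th d' ↔ th d) → p d' ≤ p d

/-- The signed permutation of the two tracks: the letters are the letters which are not on `D_0`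
(without `v`), the point `false` of a letter is its point on the first circuit, the key is the
position `k` such that the two darts of the track at the letter are the darts `2 k - 1`, `2 k`, and
`o i x = true` iff the track enters `x` on the first circuit. -/
structure Mdl (f g : Equiv.Perm V) (v : V) (ρ σ : V → ℕ) (th : Dt V → Prop) (p : Dt V → ℕ)
    (sp : GS.SP V) (S : Finset V) : Prop where
  mem : ∀ x, x ∈ S ↔ x ≠ v ∧ IsK f g ρ σ x
  k : ∀ i (d : Dt V), d.1 ∈ S → (th d ↔ i = false) → sp.k i d.1 = (((p d + 1) / 2 : ℕ) : ℤ)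
  o : ∀ i (d : Dt V), d.1 ∈ S → (th d ↔ i = false) →
    (sp.o i d.1 = true ↔ (d.2.1 = false ↔ Odd (p d)))

/-- `d` is the dart of the track `i` at which the track leaves `a` (for `a = none`: leaves `y`). -/
def Dep (f g : Equiv.Perm V) (v : V) (ρ σ : V → ℕ) (th : Dt V → Prop) (p : Dt V → ℕ)
    (i : Bool) (a : Option V) (d : Dt V) : Prop :=
  1 ≤ col f g ρ σ d ∧ (th d ↔ i = false) ∧ ((a = none ∧ d.1 = v) ∨ (a = some d.1 ∧ Even (p d)))

/-- `d` is the dart of the track `i` at which the track enters `b` (for `b = none`: enters `m`). -/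
def Arr (f g : Equiv.Perm V) (m : V) (ρ σ : V → ℕ) (th : Dt V → Prop) (p : Dt V → ℕ)
    (i : Bool) (b : Option V) (d : Dt V) : Prop :=
  1 ≤ col f g ρ σ d ∧ (th d ↔ i = false) ∧ ((b = none ∧ d.1 = m) ∨ (b = some d.1 ∧ Odd (p d)))

/-- all the data of a chain -/
structure Dat (f g : Equiv.Perm V) (v m : V) (N : ℕ) (ρ σ : V → ℕ) (th : Dt V → Prop)
    (p : Dt V → ℕ) (sp : GS.SP V) (S : Finset V) : Prop where
  cf : Cyc f
  cg : Cyc g
  ch : Chn f g v N ρ σ
  nn : NN f g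
  hm : m ≠ v
  m0 : Is0 f g ρ σ m
  tr : Trk f g v m ρ σ th
  rl : Rl f g v m ρ σ th p
  md : Mdl f g v ρ σ th p sp S

end

/-- REAL -/
def Stmt_REAL : Prop :=
  ∀ (V : Type) [Fintype V] [DecidableEq V] (f g : Equiv.Perm V) (v m : V) (N : ℕ) (ρ σ : V → ℕ)
    (th : Dt V → Prop), Chn f g v N ρ σ → NN f g → m ≠ v → Is0 f g ρ σ m → Trk f g v m ρ σ th →
    ∃ p, Rl f g v m ρ σ th p

/-- MDL -/
def Stmt_MDL : Prop :=
  ∀ (V : Type) [Fintype V] [DecidableEq V] (f g : Equiv.Perm V) (v m : V) (N : ℕ) (ρ σ : V → ℕ)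
    (th : Dt V → Prop) (p : Dt V → ℕ), Chn f g v N ρ σ → m ≠ v → Is0 f g ρ σ m →
    Trk f g v m ρ σ th → Rl f g v m ρ σ th p → ∃ sp S, Mdl f g v ρ σ th p sp S

/-- DAR: the darts at which the tracks leave and enter the letters -/
def Stmt_DAR : Prop :=
  ∀ (V : Type) [Fintype V] [DecidableEq V] (f g : Equiv.Perm V) (v m : V) (N : ℕ) (ρ σ : V → ℕ)
    (th : Dt V → Prop) (p : Dt V → ℕ) (sp : GS.SP V) (S : Finset V),
    Dat f g v m N ρ σ th p sp S →
      (∀ i, ∀ a ∈ Finset.insertNone S, (∃ d, Dep f g v ρ σ th p i a d) ∧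
        (∃ d, Arr f g m ρ σ th p i a d)) ∧
      (∀ i d, Dep f g v ρ σ th p i none d → d.2.1 = true) ∧
      (∀ i, ∀ x ∈ S, ∀ d, (Dep f g v ρ σ th p i (some x) d → d.2.1 = sp.o i x) ∧
        (Arr f g m ρ σ th p i (some x) d → d.2.1 = !sp.o i x))

/-- GAP: the passage from the start to the end of a gap. -/
def Stmt_GAP : Prop :=
  ∀ (V : Type) [Fintype V] [DecidableEq V] (f g : Equiv.Perm V) (v m : V) (N : ℕ) (ρ σ : V → ℕ)
    (th : Dt V → Prop) (p : Dt V → ℕ) (sp : GS.SP V) (S : Finset V),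
    Dat f g v m N ρ σ th p sp S → ∀ i a b, sp.Cons i S a b → ∀ Q : Dt V → Prop,
      (∀ d, 1 ≤ col f g ρ σ d → (th d ↔ i = false) → Q d → Q (nx f g d)) →
      (∀ d d', d.1 ≠ v → d.1 ≠ m → Is0 f g ρ σ d.1 → d'.1 = d.1 → d'.2.1 = (!d.2.1) →
        1 ≤ col f g ρ σ d → 1 ≤ col f g ρ σ d' → (th d ↔ i = false) → (th d' ↔ th d) → Q d →
        Q d') → ∀ d d', Dep f g v ρ σ th p i a d → Arr f g m ρ σ th p i b d' → Q d → Q d'

/-- BADC: no good circuit. -/
def Stmt_BADC : Prop :=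
  ∀ (V : Type) [Fintype V] [DecidableEq V] (f g : Equiv.Perm V) (v m : V) (N : ℕ) (ρ σ : V → ℕ)
    (th : Dt V → Prop) (p : Dt V → ℕ) (sp : GS.SP V) (S : Finset V),
    Dat f g v m N ρ σ th p sp S → ∀ Z, ¬ sp.Gd S Z

/-- CLR: the colours of the gaps. -/
def Stmt_CLR : Prop :=
  ∀ (V : Type) [Fintype V] [DecidableEq V] (f g : Equiv.Perm V) (v m : V) (N : ℕ) (ρ σ : V → ℕ)
    (th : Dt V → Prop) (p : Dt V → ℕ) (sp : GS.SP V) (S : Finset V),
    Dat f g v m N ρ σ th p sp S → ∃ c, sp.Clr S c N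

/-- FINC: the signed permutation is not a direct sum. -/
def Stmt_FINC : Prop :=
  ∀ (V : Type) [Fintype V] [DecidableEq V] (f g : Equiv.Perm V) (v m : V) (N : ℕ) (ρ σ : V → ℕ)
    (th : Dt V → Prop) (p : Dt V → ℕ) (sp : GS.SP V) (S : Finset V),
    Dat f g v m N ρ σ th p sp S → ∀ S₁ S₂ : Finset V, S₁.Nonempty → S₂.Nonempty → S = S₁ ∪ S₂ →
      (∀ x ∈ S₁, ∀ y ∈ S₂, ∀ i, sp.k i x < sp.k i y) → False

/-- KEMPE -/
def Stmt_KMP : Prop :=
  ∀ (V : Type) [Fintype V] [DecidableEq V] (f g : Equiv.Perm V) (v : V) (N : ℕ) (ρ σ : V → ℕ),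
    Cyc f → Cyc g → 2 ≤ Fintype.card V → NN f g → Chn f g v N ρ σ → Kmp f g v ρ σ

/-- the assembly -/
theorem t3_of (hST : GS.Stmt_ST → GS.Stmt_SUM) (h0 : GS.Stmt_ST) (h1 : Stmt_KMP) (h2 : Stmt_REAL)
    (h3 : Stmt_MDL) (h4 : Stmt_BADC) (h5 : Stmt_CLR) (h6 : Stmt_FINC) : Stmt_T3 := by
  intro V _ _ f g hf hg hodd hc hB hN v N ρ σ h
  have hk := h1 V f g v N ρ σ hf hg (by omega) hN h
  have hm : f v ≠ v := hf.ne (by omega) v
  have e0 : col f g ρ σ (f v, false, false) = 0 := by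
    show ρ (f.symm (f v)) = 0
    rw [Equiv.symm_apply_apply, h.r0]
  have hm0 : Is0 f g ρ σ (f v) := by
    rcases dich h hm with k | k
    · have := k false false
      omega
    · exact k
  obtain ⟨th, ht⟩ := exists_trk h hk hm (Or.inl e0)
  obtain ⟨p, hp⟩ := h2 V f g v (f v) N ρ σ th h hN hm hm0 ht
  obtain ⟨sp, S, hS⟩ := h3 V f g v (f v) N ρ σ th p h hm hm0 ht hp
  have hD : Dat f g v (f v) N ρ σ th p sp S := ⟨hf, hg, h, hN, hm, hm0, ht, hp, hS⟩
  obtain ⟨c, hcl⟩ := h5 V f g v (f v) N ρ σ th p sp S hD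
  rcases hST h0 V sp S c N hcl (fun ⟨Z, hZ⟩ => h4 V f g v (f v) N ρ σ th p sp S hD Z hZ) with
    h7 | ⟨S₁, S₂, q1, q2, q3, q4⟩
  · exact h7
  · exact (h6 V f g v (f v) N ρ σ th p sp S hD S₁ S₂ q1 q2 q3 q4).elim

end Pool.ROS
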