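import Pool.Agent.ROS.Darts

/-!
# Road S: the two tracks between `y` and the mark `m`
-/

set_option autoImplicit false
set_option linter.unusedSectionVars false

namespace Pool.ROS

open Pool.GOD.PG

variable {V : Type*} [Fintype V] [DecidableEq V] {f g : Equiv.Perm V} {v : V} {N : ℕ}
  {ρ σ : V → ℕ}

/-- the segment lemma for a set of darts -/
lemma seg' (h : Chn f g v N ρ σ) (T : Dt V → Prop) (T1 : ∀ d, T d → T (nx f g d))
    (T2 : ∀ d, T d → T (cc f g ρ σ v d))
    (conn : ∀ P : Dt V → Prop, (∀ d, T d → (P (nx f g d) ↔ P d)) →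
      (∀ d, T d → (P (cc f g ρ σ v d) ↔ P d)) → ∀ d d', T d → T d' → (P d ↔ P d'))
    (a b : Dt V) (ha : T a) (hb : T b) : ∃ H : Dt V → Prop, (∀ d, T d → (H (nx f g d) ↔ H d)) ∧
      ∀ d, T d → ((H (cc f g ρ σ v d) ↔ H d) ↔
        ((d = a ∨ d = cc f g ρ σ v a) ↔ (d = b ∨ d = cc f g ρ σ v b))) := by
  classical
  obtain ⟨H, h1, h2⟩ := seg (X := {d : Dt V // T d}) (fun d => ⟨nx f g d.1, T1 _ d.2⟩)
    (fun d => ⟨cc f g ρ σ v d.1, T2 _ d.2⟩) (fun d => Subtype.ext (nx_nx _))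
    (fun d => Subtype.ext (cc_cc h _)) (fun d hd => nx_ne d.1 (congrArg Subtype.val hd))
    (fun d hd => cc_ne h d.1 (congrArg Subtype.val hd)) (by
      intro P k1 k2 d d'
      have h3 := conn (fun d => ∃ hd : T d, P ⟨d, hd⟩) (fun d hd => ?_) (fun d hd => ?_) d.1 d'.1
        d.2 d'.2
      · constructor
        · intro h4
          obtain ⟨_, h5⟩ := h3.1 ⟨d.2, h4⟩
          exact h5
        · intro h4
          obtain ⟨_, h5⟩ := h3.2 ⟨d'.2, h4⟩
          exact h5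
      · have := k1 ⟨d, hd⟩
        exact ⟨fun ⟨_, h4⟩ => ⟨hd, this.1 h4⟩, fun ⟨_, h4⟩ => ⟨T1 _ hd, this.2 h4⟩⟩
      · have := k2 ⟨d, hd⟩
        exact ⟨fun ⟨_, h4⟩ => ⟨hd, this.1 h4⟩, fun ⟨_, h4⟩ => ⟨T2 _ hd, this.2 h4⟩⟩)
    ⟨a, ha⟩ ⟨b, hb⟩
  refine ⟨fun d => ∃ hd : T d, H ⟨d, hd⟩, fun d hd => ?_, fun d hd => ?_⟩
  · have := h1 ⟨d, hd⟩
    exact ⟨fun ⟨_, h4⟩ => ⟨hd, this.1 h4⟩, fun ⟨_, h4⟩ => ⟨T1 _ hd, this.2 h4⟩⟩
  · have h3 := h2 ⟨d, hd⟩
    simp only [Subtype.mk.injEq] at h3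
    rw [← h3]
    have e1 : (∃ hd' : T d, H ⟨d, hd'⟩) ↔ H ⟨d, hd⟩ := ⟨fun ⟨_, h4⟩ => h4, fun h4 => ⟨hd, h4⟩⟩
    have e2 : (∃ hd' : T (cc f g ρ σ v d), H ⟨cc f g ρ σ v d, hd'⟩) ↔
        H ⟨cc f g ρ σ v d, T2 _ hd⟩ := ⟨fun ⟨_, h4⟩ => h4, fun h4 => ⟨T2 _ hd, h4⟩⟩
    beta_reduce
    rw [e1, e2]

/-- the darts at `v` and at the mark `m` -/
lemma pts (h : Chn f g v N ρ σ) {m : V} (hm : m ≠ v) (c0 : Prop)
    (a b : Dt V) (ha : (col f g ρ σ a = 0) ↔ c0) (hb : (col f g ρ σ b = 0) ↔ c0)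
    (ha' : a.1 = v) (hb' : b.1 = m) (h0 : col f g ρ σ b = 0 ∨ col f g ρ σ (fl b) = 0)
    (d : Dt V) (hd : (col f g ρ σ d = 0) ↔ c0) :
    ((d = a ∨ d = cc f g ρ σ v a) ↔ (d = b ∨ d = cc f g ρ σ v b)) ↔ ¬ (d.1 = v ∨ d.1 = m) := by
  have e1 : (d = a ∨ d = cc f g ρ σ v a) ↔ d.1 = v := by
    rw [cc_v ha']
    constructor
    · rintro (rfl | rfl)
      · exact ha'
      · rw [fl_fst, ha']
    · intro h1
      refine eq_or_fl (by rw [h1, ha']) ?_
      obtain ⟨x, s, o⟩ := d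
      obtain ⟨x', s', o'⟩ := a
      simp only at h1 ha'
      subst h1 ha'
      have h2 := h.pos
      cases s <;> cases s'
      · rfl
      · rw [col_v1 h, ← ha, col_v2 h] at hd
        omega
      · rw [col_v2 h, ← ha, col_v1 h] at hd
        omega
      · rfl
  have e2 : (d = b ∨ d = cc f g ρ σ v b) ↔ d.1 = m := by
    have hbv : b.1 ≠ v := by rw [hb']; exact hm
    constructor
    · rintro (rfl | rfl)
      · exact hb'
      · rw [cc_fst h, hb']
    · intro h1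
      have hdv : d.1 ≠ v := by rw [h1]; exact hm
      by_cases hs : d.2.1 = b.2.1
      · rcases eq_or_fl (h1.trans hb'.symm) hs with h2 | h2
        · exact Or.inl h2
        · exfalso
          rw [h2] at hd
          have h3 := col_step h hbv
          rw [← hb] at hd
          omega
      · right
        have hs' : d.2.1 = !b.2.1 := by
          cases h2 : d.2.1 <;> cases h3 : b.2.1 <;> simp_all
        exact (cc_eq h hbv h0 (h1.trans hb'.symm) hs' (by rw [hd, hb])).symm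
  rw [e1, e2]
  constructor
  · rintro h1 (h2 | h2)
    · exact hm (by rw [← h1.1 h2, h2])
    · exact hm (by rw [← h1.2 h2, h2])
  · intro h1
    push Not at h1
    exact iff_of_false h1.1 h1.2

/-- the segment of `D_0` between `v` and `m` -/
theorem exists_W (h : Chn f g v N ρ σ) {m : V} (hm : m ≠ v)
    (h0 : col f g ρ σ (m, false, false) = 0 ∨ col f g ρ σ (m, false, true) = 0) :
    ∃ W : Dt V → Prop, (∀ d, col f g ρ σ d = 0 → (W (nx f g d) ↔ W d)) ∧
      ∀ d, col f g ρ σ d = 0 → ((W (cc f g ρ σ v d) ↔ W d) ↔ ¬ (d.1 = v ∨ d.1 = m)) := by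
  obtain ⟨b, hb1, hb2, hb3⟩ : ∃ b : Dt V, b.1 = m ∧ b.2.1 = false ∧ col f g ρ σ b = 0 := by
    rcases h0 with h0 | h0
    · exact ⟨(m, false, false), rfl, rfl, h0⟩
    · exact ⟨(m, false, true), rfl, rfl, h0⟩
  obtain ⟨W, w1, w2⟩ := seg' h (fun d => col f g ρ σ d = 0) (fun d hd => by rw [col_nx, hd])
    (fun d hd => by rwa [cc_col0 h]) (fun P k1 k2 d d' hd hd' => conn0 h P k1 k2 d d' hd hd')
    (v, false, true) b (col_v1 h true) hb3
  refine ⟨W, w1, fun d hd => ?_⟩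
  rw [w2 d hd]
  exact pts h hm True (v, false, true) b (iff_true_intro (col_v1 h true)) (iff_true_intro hb3) rfl
    hb1 (Or.inl hb3) d (iff_true_intro hd)

/-- the connectedness of the smoothing of the side of a chain -/
def Kmp (f g : Equiv.Perm V) (v : V) (ρ σ : V → ℕ) : Prop :=
  ∀ P : Dt V → Prop, (∀ d, 1 ≤ col f g ρ σ d → (P (nx f g d) ↔ P d)) →
    (∀ d, 1 ≤ col f g ρ σ d → (P (cc f g ρ σ v d) ↔ P d)) →
    ∀ d d', 1 ≤ col f g ρ σ d → 1 ≤ col f g ρ σ d' → (P d ↔ P d')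

/-- the segment of the smoothed side between `y` and `m` -/
theorem exists_H (h : Chn f g v N ρ σ) (hk : Kmp f g v ρ σ) {m : V} (hm : m ≠ v)
    (h0 : col f g ρ σ (m, false, false) = 0 ∨ col f g ρ σ (m, false, true) = 0) :
    ∃ H : Dt V → Prop, (∀ d, 1 ≤ col f g ρ σ d → (H (nx f g d) ↔ H d)) ∧
      ∀ d, 1 ≤ col f g ρ σ d → ((H (cc f g ρ σ v d) ↔ H d) ↔ ¬ (d.1 = v ∨ d.1 = m)) := by
  obtain ⟨b, hb1, hb2, hb3, hb4⟩ : ∃ b : Dt V, b.1 = m ∧ b.2.1 = false ∧
      1 ≤ col f g ρ σ b ∧ col f g ρ σ (fl b) = 0 := by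
    have h1 := col_step h (d := (m, false, true)) hm
    have h2 : col f g ρ σ (fl (m, false, true)) = col f g ρ σ (m, false, false) := rfl
    rw [h2] at h1
    rcases h0 with h0 | h0
    · exact ⟨(m, false, true), rfl, rfl, by omega, h0⟩
    · exact ⟨(m, false, false), rfl, rfl, by omega, h0⟩
  have hN := h.pos
  have hv : 1 ≤ col f g ρ σ (v, true, true) := by rw [col_v2 h]; exact hN
  obtain ⟨H, w1, w2⟩ := seg' h (fun d => 1 ≤ col f g ρ σ d) (fun d hd => by rwa [col_nx])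
    (fun d hd => by
      have := cc_col0 h d
      omega) (fun P k1 k2 d d' hd hd' => hk P k1 k2 d d' hd hd')
    (v, true, true) b hv hb3
  refine ⟨H, w1, fun d hd => ?_⟩
  rw [w2 d hd]
  exact pts h hm False (v, true, true) b (iff_of_false (by omega) id) (iff_of_false (by omega) id)
    rfl hb1 (Or.inr hb4) d (iff_of_false (by omega) id)

/-- the two tracks between `y` and `m` -/
structure Trk (f g : Equiv.Perm V) (v m : V) (ρ σ : V → ℕ) (th : Dt V → Prop) : Prop where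
  tx : ∀ d, 1 ≤ col f g ρ σ d → (th (nx f g d) ↔ th d)
  tK : ∀ d, d.1 ≠ v → 1 ≤ col f g ρ σ d → 1 ≤ col f g ρ σ (fl d) → (th (fl d) ↔ ¬ th d)
  tv : th (v, true, false) ↔ ¬ th (v, true, true)
  tm : ∀ d d', d.1 = m → d'.1 = m → d'.2.1 = (!d.2.1) → 1 ≤ col f g ρ σ d →
    1 ≤ col f g ρ σ d' → (th d' ↔ ¬ th d)
  tz : ∀ d d', d.1 ≠ v → d.1 ≠ m → d'.1 = d.1 → d'.2.1 = (!d.2.1) → 1 ≤ col f g ρ σ d →
    1 ≤ col f g ρ σ d' → col f g ρ σ (fl d) = 0 → (th d' ↔ th d)

theorem exists_trk (h : Chn f g v N ρ σ) (hk : Kmp f g v ρ σ) {m : V} (hm : m ≠ v)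
    (h0 : col f g ρ σ (m, false, false) = 0 ∨ col f g ρ σ (m, false, true) = 0) :
    ∃ th : Dt V → Prop, Trk f g v m ρ σ th := by
  obtain ⟨H, h1, h2⟩ := exists_H h hk hm h0
  -- the darts at a letter of `D_0`
  have hz : ∀ d d' : Dt V, d.1 ≠ v → d'.1 = d.1 → d'.2.1 = (!d.2.1) → 1 ≤ col f g ρ σ d →
      1 ≤ col f g ρ σ d' → col f g ρ σ (fl d) = 0 → cc f g ρ σ v d = d' ∧
        col f g ρ σ d' = 1 ∧ col f g ρ σ d = 1 := by
    intro d d' k1 k2 k3 k4 k5 k6
    have e1 : cc f g ρ σ v d = d' := cc_eq h k1 (Or.inr k6) k2 k3 (by omega)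
    have e2 := col_step h k1
    refine ⟨e1, ?_, by omega⟩
    rcases cc_cases h d with ⟨_, _, _, _, e3, _⟩ | ⟨_, e3⟩
    · rw [e1] at e3
      omega
    · rw [e1] at e3
      rw [e3, fl_side] at k3
      cases h4 : d.2.1 <;> rw [h4] at k3 <;> simp at k3
  refine ⟨fun d => (Odd (col f g ρ σ d) ↔ H d), ⟨fun d hd => ?_, fun d k1 k2 k3 => ?_, ?_,
    fun d d' k1 k2 k3 k4 k5 => ?_, fun d d' k1 k2 k3 k4 k5 k6 k7 => ?_⟩⟩
  · rw [h1 d hd, col_nx]
  · have e0 : cc f g ρ σ v d = fl d := cc_K (by omega) (by omega)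
    have e1 := h2 d k2
    rw [e0] at e1
    have e2 : H (fl d) ↔ H d := by
      rw [e1]
      rintro (e3 | e3)
      · exact k1 e3
      · have e4 := col_step h k1
        have e5 : col f g ρ σ d = 0 ∨ col f g ρ σ (fl d) = 0 := by
          obtain ⟨d', q1, q2, q3, q4⟩ := col_other h k1
          obtain ⟨x, s, o⟩ := d
          simp only at e3
          subst e3
          cases s
          · cases o
            · exact h0
            · exact h0.symm
          · obtain ⟨x', s', o'⟩ := d'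
            simp only [Bool.not_true] at q1 q2
            subst q1 q2
            rw [← q3, ← q4]
            cases o'
            · exact h0
            · exact h0.symm
        omega
    have e3 : Odd (col f g ρ σ (fl d)) ↔ ¬ Odd (col f g ρ σ d) := by
      rcases col_step h k1 with e3 | e3
      · rw [e3, Nat.odd_add_one, not_not]
      · rw [e3, Nat.odd_add_one]
    rw [e2, e3]
    tauto
  · have hN := h.pos
    have hv : 1 ≤ col f g ρ σ (v, true, true) := by rw [col_v2 h]; exact hN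
    have e1 := h2 (v, true, true) hv
    have e0 : cc f g ρ σ v (v, true, true) = fl (v, true, true) := cc_v rfl
    rw [e0] at e1
    have e2 : fl (v, true, true) = ((v, true, false) : Dt V) := rfl
    rw [e2] at e1
    simp only [col_v2 h]
    simp only [true_or, not_true_eq_false, iff_false] at e1
    tauto
  · have k6 : d.1 ≠ v := by rw [k1]; exact hm
    have k7 : col f g ρ σ (fl d) = 0 := by
      obtain ⟨d'', q1, q2, q3, q4⟩ := col_other h k6
      obtain ⟨x, s, o⟩ := d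
      simp only at k1
      subst k1
      cases s
      · cases o
        · rcases h0 with h0 | h0
          · change 1 ≤ col f g ρ σ (x, false, false) at k4
            omega
          · exact h0
        · rcases h0 with h0 | h0
          · exact h0
          · change 1 ≤ col f g ρ σ (x, false, true) at k4
            omega
      · obtain ⟨x', s', o'⟩ := d''
        simp only [Bool.not_true] at q1 q2
        subst q1 q2
        rw [← q4]
        rw [← q3] at k4
        cases o'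
        · rcases h0 with h0 | h0
          · omega
          · exact h0
        · rcases h0 with h0 | h0
          · exact h0
          · omega
    obtain ⟨e1, e2, e3⟩ := hz d d' k6 (k2.trans k1.symm) k3 k4 k5 k7
    have e4 := h2 d k4
    rw [e1] at e4
    simp only [k1, or_true, not_true_eq_false, iff_false] at e4
    simp only [e2, e3]
    tauto
  · obtain ⟨e1, e2, e3⟩ := hz d d' k1 k3 k4 k5 k6 k7
    have e4 := h2 d k5
    rw [e1] at e4
    simp only [k1, k2, or_self, not_false_eq_true, iff_true] at e4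
    simp only [e2, e3, e4]

end Pool.ROS
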